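import Mathlib

-- merged part: Pool.Agent.Work.MP_b4cb8e_al.Good
section
-- merged part: Pool.Agent.Work.MP_b4cb8e_al.Rat
section
-- merged part: Pool.Agent.Work.MP_b4cb8e_al.Basic
section
set_option autoImplicit false

namespace Pool.Agent.Work.MP_b4cb8e_al

universe u

variable {D : Type u} [DivisionRing D]

/-- The elements of `D` that are values of units in `N`. -/
def SN (N : Subgroup Dˣ) : Set D := {x | ∃ u ∈ N, (u : D) = x}

lemma SN.ne_zero {N : Subgroup Dˣ} {x : D} (h : x ∈ SN N) : x ≠ 0 := by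
  obtain ⟨u, -, rfl⟩ := h
  exact u.ne_zero

lemma SN.coe {N : Subgroup Dˣ} {u : Dˣ} : (u : D) ∈ SN N ↔ u ∈ N := by
  constructor
  · rintro ⟨v, hv, h⟩
    rwa [← Units.ext h]
  · intro h
    exact ⟨u, h, rfl⟩

lemma SN.one (N : Subgroup Dˣ) : (1 : D) ∈ SN N := ⟨1, N.one_mem, rfl⟩

lemma SN.mul {N : Subgroup Dˣ} {x y : D} (hx : x ∈ SN N) (hy : y ∈ SN N) : x * y ∈ SN N := by
  obtain ⟨u, hu, rfl⟩ := hx
  obtain ⟨v, hv, rfl⟩ := hy
  exact ⟨u * v, N.mul_mem hu hv, rfl⟩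

lemma SN.inv {N : Subgroup Dˣ} {x : D} (hx : x ∈ SN N) : x⁻¹ ∈ SN N := by
  obtain ⟨u, hu, rfl⟩ := hx
  exact ⟨u⁻¹, N.inv_mem hu, by simp⟩

lemma SN.pow {N : Subgroup Dˣ} {x : D} (hx : x ∈ SN N) (n : ℕ) : x ^ n ∈ SN N := by
  obtain ⟨u, hu, rfl⟩ := hx
  exact ⟨u ^ n, N.pow_mem hu n, by simp⟩

lemma SN.mono {N M : Subgroup Dˣ} (h : N ≤ M) {x : D} (hx : x ∈ SN N) : x ∈ SN M := by
  obtain ⟨u, hu, rfl⟩ := hx
  exact ⟨u, h hu, rfl⟩

lemma SN.inf {N M : Subgroup Dˣ} {x : D} : x ∈ SN (N ⊓ M) ↔ x ∈ SN N ∧ x ∈ SN M := by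
  constructor
  · intro h
    exact ⟨SN.mono inf_le_left h, SN.mono inf_le_right h⟩
  · rintro ⟨⟨u, hu, rfl⟩, h⟩
    exact ⟨u, ⟨hu, SN.coe.1 h⟩, rfl⟩

lemma SN.conj {N M : Subgroup Dˣ} (hle : N ≤ M) (hn : (N.subgroupOf M).Normal) {x m : D}
    (hx : x ∈ SN N) (hm : m ∈ SN M) : m * x * m⁻¹ ∈ SN N := by
  obtain ⟨u, hu, rfl⟩ := hx
  obtain ⟨v, hv, rfl⟩ := hm
  have := (Subgroup.normal_subgroupOf_iff hle).1 hn u v hu hv
  exact ⟨_, this, by simp⟩

lemma SN.top {x : D} (hx : x ≠ 0) : x ∈ SN (⊤ : Subgroup Dˣ) :=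
  ⟨Units.mk0 x hx, trivial, rfl⟩

/-- pull back of a subgroup along a ring map -/
def pull {E : Type*} [DivisionRing E] (f : E →+* D) (N : Subgroup Dˣ) : Subgroup Eˣ :=
  N.comap (Units.map (f : E →* D))

lemma mem_pull {E : Type*} [DivisionRing E] (f : E →+* D) (N : Subgroup Dˣ) {x : E} :
    x ∈ SN (pull f N) ↔ f x ∈ SN N := by
  constructor
  · rintro ⟨u, hu, rfl⟩
    exact ⟨_, hu, rfl⟩
  · intro h
    have hx : x ≠ 0 := by
      rintro rfl
      exact SN.ne_zero h (map_zero f)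
    refine ⟨Units.mk0 x hx, ?_, rfl⟩
    have : ((Units.map (f : E →* D) (Units.mk0 x hx) : Dˣ) : D) ∈ SN N := h
    exact (SN.coe (N := N)).1 this

lemma pull_subnormal {E : Type*} [DivisionRing E] (f : E →+* D) {N : Subgroup Dˣ}
    (h : N.IsSubnormal) : (pull f N).IsSubnormal := h.comap _

/-- iterated commutators `[u, a, ..., a]` -/
def ds (a u : D) : ℕ → D
  | 0 => u
  | k + 1 => ds a u k * (a * (ds a u k)⁻¹ * a⁻¹)

lemma ds_ne_zero {a u : D} (ha : a ≠ 0) (hu : u ≠ 0) (k : ℕ) : ds a u k ≠ 0 := by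
  induction k with
  | zero => exact hu
  | succ k ih => simp [ds, ha, ih]

lemma absorb {N : Subgroup Dˣ} (hN : N.IsSubnormal) :
    ∃ r : ℕ, ∀ a ∈ SN N, ∀ u : D, u ≠ 0 → ds a u r ∈ SN N := by
  induction hN with
  | top => exact ⟨0, fun a _ u hu => SN.top hu⟩
  | step H K hle hK hn ih =>
    obtain ⟨r, hr⟩ := ih
    refine ⟨r + 1, fun a ha u hu => ?_⟩
    have h1 := hr a (SN.mono hle ha) u hu
    have h2 := SN.conj hle hn ha h1
    have : ds a u (r + 1) = (ds a u r * a * (ds a u r)⁻¹) * a⁻¹ := by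
      simp [ds, mul_assoc]
    rw [this]
    exact SN.mul h2 (SN.inv ha)

/-- conjugation by `a` as an additive endomorphism -/
def cj (a : D) : AddMonoid.End D where
  toFun x := a * x * a⁻¹
  map_zero' := by simp
  map_add' x y := by simp [mul_add, add_mul]

lemma end_mul_apply (f g : AddMonoid.End D) (x : D) : (f * g) x = f (g x) := rfl

lemma cj_apply (a x : D) : cj a x = a * x * a⁻¹ := rfl

/-- `1 - conjugation by a` -/
def dl (a : D) : AddMonoid.End D := 1 - cj a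

lemma dl_apply (a x : D) : dl a x = x - a * x * a⁻¹ := rfl

lemma cj_mul {a : D} (ha : a ≠ 0) (x y : D) : cj a (x * y) = cj a x * cj a y := by
  simp [cj_apply, mul_assoc, ha]

lemma cj_pow_apply (a : D) (n : ℕ) (x : D) : (cj a ^ n) x = a ^ n * x * (a ^ n)⁻¹ := by
  induction n with
  | zero => simp
  | succ n ih =>
    rw [pow_succ', end_mul_apply, ih, cj_apply, pow_succ' a n, mul_inv_rev]
    simp [mul_assoc]

lemma dl_pow_succ (a : D) (k : ℕ) (x : D) : (dl a ^ (k + 1)) x = dl a ((dl a ^ k) x) := by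
  rw [pow_succ', end_mul_apply]

lemma dl_pow_succ' (a : D) (k : ℕ) (x : D) : (dl a ^ (k + 1)) x = (dl a ^ k) (dl a x) := by
  rw [pow_succ, end_mul_apply]

lemma dl_eq_zero_iff {a : D} (ha : a ≠ 0) (x : D) : dl a x = 0 ↔ a * x = x * a := by
  rw [dl_apply, sub_eq_zero]
  constructor
  · intro h
    calc a * x = a * x * a⁻¹ * a := by simp [ha]
      _ = x * a := by rw [← h]
  · intro h
    rw [h]; simp [ha]

lemma charP_end (p : ℕ) [CharP D p] : CharP (AddMonoid.End D) p :=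
  charP_of_injective_ringHom (f := Module.toAddMonoidEnd D D) (fun x y h => by
    have h1 : x • (1 : D) = y • (1 : D) := congrArg (fun f : AddMonoid.End D => f 1) h
    simpa using h1) p

lemma dl_pow_char (p : ℕ) [Fact p.Prime] [CharP D p] (a : D) (i : ℕ) :
    dl a ^ (p ^ i) = 1 - cj a ^ (p ^ i) := by
  have := charP_end (D := D) p
  rw [dl, sub_pow_char_pow_of_commute p i (Commute.one_left _), one_pow]

/-- in characteristic `p`, an element killed by a power of `dl a` commutes with `a ^ (p ^ k)` -/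
lemma comm_of_dl_pow (p : ℕ) [Fact p.Prime] [CharP D p] {a : D} (ha : a ≠ 0) {k : ℕ} {x : D}
    (h : (dl a ^ k) x = 0) : a ^ (p ^ k) * x = x * a ^ (p ^ k) := by
  have hk : k ≤ p ^ k := (Nat.lt_pow_self (Fact.out : p.Prime).one_lt).le
  have h1 : (dl a ^ (p ^ k)) x = 0 := by
    obtain ⟨j, hj⟩ := Nat.exists_eq_add_of_le' hk
    rw [hj, pow_add, end_mul_apply, h, map_zero]
  rw [dl_pow_char] at h1
  have h2 : x - (cj a ^ (p ^ k)) x = 0 := h1
  rw [cj_pow_apply] at h2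
  exact (dl_eq_zero_iff (pow_ne_zero _ ha) x).1 h2

/-- the centralizer of a set, as a division subring -/
def cent (s : Set D) : Subfield D where
  __ := Subring.centralizer s
  inv_mem' x hx := by
    intro y hy
    have h : y * x = x * y := hx y hy
    exact (Commute.inv_right₀ (a := y) (b := x) h)

lemma mem_cent {s : Set D} {x : D} : x ∈ cent s ↔ ∀ y ∈ s, y * x = x * y := Iff.rfl

lemma mem_center {x : D} : x ∈ Subring.center D ↔ ∀ y, y * x = x * y := Subring.mem_center_iff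

/-- reduction to prime exponent -/
lemma prime_red (P : D → Prop) (a : D) (n : ℕ) (hn : 1 ≤ n) (h : P (a ^ n)) (ha : ¬ P a) :
    ∃ j l : ℕ, 1 ≤ j ∧ l.Prime ∧ ¬ P (a ^ j) ∧ P ((a ^ j) ^ l) := by
  induction n using Nat.strong_induction_on with
  | _ n ih =>
    have hn1 : n ≠ 1 := by
      rintro rfl
      exact ha (by simpa using h)
    obtain ⟨l, hl, m, rfl⟩ := Nat.exists_prime_and_dvd hn1
    have hm : 1 ≤ m := by
      rcases Nat.eq_zero_or_pos m with rfl | hm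
      · simp at hn
      · exact hm
    by_cases hP : P (a ^ m)
    · refine ih m ?_ hm hP
      have := hl.one_lt
      nlinarith
    · exact ⟨m, l, hm, hl, hP, by rwa [← pow_mul, mul_comm]⟩

/-- Herstein's conjecture for `D` -/
def HC (D : Type u) [DivisionRing D] : Prop :=
  ∀ N : Subgroup Dˣ, N.IsSubnormal → (∀ x ∈ SN N, ∃ m : ℕ, 1 ≤ m ∧ x ^ m ∈ Subring.center D) →
    ∀ x ∈ SN N, x ∈ Subring.center D

/-- the centralizer of a noncentral subnormal subgroup is the centre -/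
def CC (D : Type u) [DivisionRing D] : Prop :=
  ∀ N : Subgroup Dˣ, N.IsSubnormal → ∀ z : D, (∀ x ∈ SN N, x * z = z * x) →
    z ∉ Subring.center D → ∀ x ∈ SN N, x ∈ Subring.center D

/-- the statement of the problem for `D` -/
def QQ (D : Type u) [DivisionRing D] : Prop :=
  ∀ K : Subfield D, K ≠ ⊤ → ∀ N : Subgroup Dˣ, N.IsSubnormal →
    (∀ x ∈ SN N, ∃ m : ℕ, 1 ≤ m ∧ x ^ m ∈ K) → ∀ x ∈ SN N, x ∈ Subring.center D

lemma HC.pull {E : Type*} [DivisionRing E] (hE : HC E) (f : E →+* D) {N : Subgroup Dˣ}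
    (hN : N.IsSubnormal)
    (hrad : ∀ x : E, f x ∈ SN N → ∃ m : ℕ, 1 ≤ m ∧ ∀ y : E, f y * f x ^ m = f x ^ m * f y)
    (x y : E) (hx : f x ∈ SN N) : f y * f x = f x * f y := by
  have := hE (Work.MP_b4cb8e_al.pull f N) (pull_subnormal f hN) (fun z hz => by
    obtain ⟨m, hm, h⟩ := hrad z ((mem_pull f N).1 hz)
    refine ⟨m, hm, mem_center.2 fun w => f.injective ?_⟩
    simpa using h w) x ((mem_pull f N).2 hx)
  rw [← map_mul, ← map_mul, mem_center.1 this y]

lemma QQ.pull {E : Type*} [DivisionRing E] (hE : QQ E) (f : E →+* D) (K : Subfield D)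
    {N : Subgroup Dˣ} (hN : N.IsSubnormal) (e : E) (he : f e ∉ K)
    (hrad : ∀ x ∈ SN N, ∃ m : ℕ, 1 ≤ m ∧ x ^ m ∈ K)
    (x y : E) (hx : f x ∈ SN N) : f y * f x = f x * f y := by
  have := hE (K.comap f) (fun h => he (by
      have : e ∈ K.comap f := h ▸ Subfield.mem_top e
      exact this)) (Work.MP_b4cb8e_al.pull f N) (pull_subnormal f hN) (fun z hz => by
    obtain ⟨m, hm, h⟩ := hrad _ ((mem_pull f N).1 hz)
    exact ⟨m, hm, by simpa using h⟩) x ((mem_pull f N).2 hx)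
  rw [← map_mul, ← map_mul, mem_center.1 this y]

/-- the centralizer in `Y` of an element `g` whose commutators with `Y` are central -/
lemma cent_subnormal {Y : Subgroup Dˣ} (hY : Y.IsSubnormal) (g : D)
    (hg : ∀ y ∈ SN Y, ∃ c ∈ Subring.center D, y * g = c * (g * y)) :
    ∃ Y' : Subgroup Dˣ, Y'.IsSubnormal ∧ ∀ x, x ∈ SN Y' ↔ x ∈ SN Y ∧ x * g = g * x := by
  let Y' : Subgroup Dˣ :=
    { carrier := {u | u ∈ Y ∧ (u : D) * g = g * u}
      mul_mem' := by
        rintro u v ⟨hu, hu'⟩ ⟨hv, hv'⟩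
        refine ⟨Y.mul_mem hu hv, ?_⟩
        rw [Units.val_mul, mul_assoc, hv', ← mul_assoc, hu', mul_assoc]
      one_mem' := ⟨Y.one_mem, by simp⟩
      inv_mem' := by
        rintro u ⟨hu, hu'⟩
        refine ⟨Y.inv_mem hu, ?_⟩
        rw [Units.val_inv_eq_inv_val]
        exact Commute.inv_left₀ (a := (u : D)) (b := g) hu' }
  have hle : Y' ≤ Y := fun u hu => hu.1
  refine ⟨Y', Subgroup.IsSubnormal.step _ _ hle hY ?_, fun x => ?_⟩
  · rw [Subgroup.normal_subgroupOf_iff hle]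
    rintro u v ⟨hu, hu'⟩ hv
    refine ⟨Y.mul_mem (Y.mul_mem hv hu) (Y.inv_mem hv), ?_⟩
    obtain ⟨c, hc, h⟩ := hg v (SN.coe.2 hv)
    have hc' := mem_center.1 hc
    have hv0 : (v : D) ≠ 0 := v.ne_zero
    have h2 : g * (v : D)⁻¹ = c * ((v : D)⁻¹ * g) := by
      have : (v : D)⁻¹ * ((v : D) * g) * (v : D)⁻¹ = (v : D)⁻¹ * (c * (g * v)) * (v : D)⁻¹ := by
        rw [h]
      rw [← mul_assoc, inv_mul_cancel₀ hv0, one_mul] at this
      rw [this, ← mul_assoc, hc', mul_assoc, mul_assoc, mul_assoc, mul_inv_cancel₀ hv0, mul_one]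
    simp only [Units.val_mul, Units.val_inv_eq_inv_val]
    have hc0 : c ≠ 0 ∨ g = 0 := by
      by_contra hh
      push Not at hh
      rw [hh.1, zero_mul] at h
      exact (mul_ne_zero hv0 hh.2) h
    rcases hc0 with hc0 | rfl
    · apply mul_left_cancel₀ hc0
      calc c * ((v : D) * u * (v : D)⁻¹ * g) = (v : D) * u * (c * ((v : D)⁻¹ * g)) := by
            rw [← mul_assoc ((v : D) * u) c, hc', mul_assoc c, mul_assoc ((v : D) * u)]
        _ = (v : D) * (u * g) * (v : D)⁻¹ := by rw [← h2]; simp only [mul_assoc]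
        _ = ((v : D) * g) * u * (v : D)⁻¹ := by rw [hu']; simp only [mul_assoc]
        _ = c * (g * ((v : D) * u * (v : D)⁻¹)) := by rw [h]; simp only [mul_assoc]
    · simp
  · constructor
    · rintro ⟨u, hu, rfl⟩
      exact ⟨SN.coe.2 hu.1, hu.2⟩
    · rintro ⟨⟨u, hu, rfl⟩, h⟩
      exact ⟨u, ⟨hu, h⟩, rfl⟩

/-- noncentral subgroups -/
def NC (N : Subgroup Dˣ) : Prop := ∃ x ∈ SN N, x ∉ Subring.center D

lemma NC.mono {N M : Subgroup Dˣ} (h : N ≤ M) (hN : NC N) : NC M := by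
  obtain ⟨x, hx, hx'⟩ := hN
  exact ⟨x, SN.mono h hx, hx'⟩

lemma comm_central {x y : D} (hx : x ≠ 0) (hy : y ≠ 0) :
    x * y = (x * y * x⁻¹ * y⁻¹) * (y * x) := by
  simp [mul_assoc, hx, hy]

/-- the intersection of two noncentral subnormal subgroups is noncentral -/
lemma CC.inf (hC : CC D) {A B : Subgroup Dˣ} (hA : A.IsSubnormal) (hB : B.IsSubnormal)
    (ha : NC A) (hb : NC B) : NC (A ⊓ B) := by
  induction hA generalizing B with
  | top => simpa using hb
  | step A A' hAle hA' hAn ihA =>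
    have hA : A.IsSubnormal := Subgroup.IsSubnormal.step _ _ hAle hA' hAn
    induction hB with
    | top => simpa using ha
    | step B B' hBle hB' hBn ihB =>
      have hB : B.IsSubnormal := Subgroup.IsSubnormal.step _ _ hBle hB' hBn
      have hX : NC (A' ⊓ B) := ihA hB (ha.mono hAle) hb
      have hY : NC (A ⊓ B') := ihB (hb.mono hBle)
      by_contra hcon
      have hcen : ∀ x ∈ SN (A ⊓ B), x ∈ Subring.center D := by
        intro x hx
        by_contra h
        exact hcon ⟨x, hx, h⟩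
      obtain ⟨x, hx, hx'⟩ := hX
      have hYs : (A ⊓ B').IsSubnormal := hA.inf hB'
      have key : ∀ y ∈ SN (A ⊓ B'), y * x * y⁻¹ * x⁻¹ ∈ Subring.center D := by
        intro y hy
        apply hcen
        rw [SN.inf] at hx hy ⊢
        constructor
        · have := SN.mul hy.1 (SN.conj hAle hAn (SN.inv hy.1) hx.1)
          simpa only [mul_assoc] using this
        · exact SN.mul (SN.conj hBle hBn hx.2 hy.2) (SN.inv hx.2)
      obtain ⟨Y1, hY1, hY1'⟩ := cent_subnormal hYs x fun y hy =>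
        ⟨_, key y hy, comm_central (SN.ne_zero hy) (SN.ne_zero hx)⟩
      have hY1c := hC Y1 hY1 x (fun y hy => ((hY1' y).1 hy).2) hx'
      obtain ⟨y0, hy0, hy0'⟩ := hY
      have key2 : ∀ y ∈ SN (A ⊓ B'), y * y0 * y⁻¹ * y0⁻¹ ∈ Subring.center D := by
        intro y hy
        apply hY1c
        rw [hY1']
        refine ⟨SN.mul (SN.mul (SN.mul hy hy0) (SN.inv hy)) (SN.inv hy0), ?_⟩
        have hx0 := SN.ne_zero hx
        have hy1 := SN.ne_zero hy
        have hy2 := SN.ne_zero hy0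
        have e1 := comm_central hy1 hx0
        have e2 := comm_central hy2 hx0
        have hc1 := mem_center.1 (key y hy)
        have hc2 := mem_center.1 (key y0 hy0)
        generalize y * x * y⁻¹ * x⁻¹ = c1 at e1 hc1
        generalize y0 * x * y0⁻¹ * x⁻¹ = c2 at e2 hc2
        have e3 : y * y0 * x = c1 * c2 * x * (y * y0) := by
          calc y * y0 * x = y * (c2 * (x * y0)) := by rw [mul_assoc, e2]
            _ = c2 * (y * x) * y0 := by rw [← mul_assoc, hc2]; simp only [mul_assoc]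
            _ = c2 * c1 * x * (y * y0) := by rw [e1]; simp only [mul_assoc]
            _ = _ := by rw [hc1 c2]
        have e4 : y0 * y * x = c1 * c2 * x * (y0 * y) := by
          calc y0 * y * x = y0 * (c1 * (x * y)) := by rw [mul_assoc, e1]
            _ = c1 * (y0 * x) * y := by rw [← mul_assoc, hc1]; simp only [mul_assoc]
            _ = c1 * c2 * x * (y0 * y) := by rw [e2]; simp only [mul_assoc]
        have hyy : y0 * y ≠ 0 := mul_ne_zero hy2 hy1
        have e5 : y * y0 * y⁻¹ * y0⁻¹ = (y * y0) * (y0 * y)⁻¹ := by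
          rw [mul_inv_rev]; simp only [mul_assoc]
        have hcc : ∀ w, w * (c1 * c2) = c1 * c2 * w := by
          intro w
          rw [← mul_assoc, hc1, mul_assoc, hc2, mul_assoc]
        have hc0 : c1 * c2 ≠ 0 := by
          intro h0
          rw [h0, zero_mul, zero_mul] at e3
          exact mul_ne_zero (mul_ne_zero hy1 hy2) hx0 e3
        have e6 : x * (y0 * y)⁻¹ = (y0 * y)⁻¹ * (c1 * c2 * x) := by
          have : (y0 * y)⁻¹ * (y0 * y * x) * (y0 * y)⁻¹ =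
              (y0 * y)⁻¹ * (c1 * c2 * x * (y0 * y)) * (y0 * y)⁻¹ := by rw [e4]
          rw [← mul_assoc, inv_mul_cancel₀ hyy, one_mul] at this
          rw [this, mul_assoc, mul_assoc (c1 * c2 * x), mul_inv_cancel₀ hyy, mul_one]
        rw [e5]
        apply mul_left_cancel₀ hc0
        calc c1 * c2 * (y * y0 * (y0 * y)⁻¹ * x)
            = y * y0 * ((y0 * y)⁻¹ * (c1 * c2 * x)) := by
              rw [← hcc, mul_assoc, hcc x, mul_assoc (y * y0)]
          _ = (y * y0 * x) * (y0 * y)⁻¹ := by rw [← e6]; simp only [mul_assoc]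
          _ = _ := by rw [e3]; simp only [mul_assoc]
      obtain ⟨Y2, hY2, hY2'⟩ := cent_subnormal hYs y0 fun y hy =>
        ⟨_, key2 y hy, comm_central (SN.ne_zero hy) (SN.ne_zero hy0)⟩
      exact hy0' (hC Y2 hY2 y0 (fun y hy => ((hY2' y).1 hy).2) hy0' y0 ((hY2' y0).2 ⟨hy0, rfl⟩))

end Pool.Agent.Work.MP_b4cb8e_al
end

-- merged part: Pool.Agent.Work.MP_b4cb8e_al.Skew
section
set_option autoImplicit false

namespace Pool.Agent.Work.MP_b4cb8e_al

open Finset

section General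

variable {R : Type*} [Ring R]

/-- sums `∑_{i<n} w^i h_i` with `h_i ∈ H` -/
def Tn (H : Subring R) (w : R) (n : ℕ) : AddSubgroup R where
  carrier := {x | ∃ h : ℕ → R, (∀ i, h i ∈ H) ∧ x = ∑ i ∈ range n, w ^ i * h i}
  zero_mem' := ⟨fun _ => 0, fun _ => H.zero_mem, by simp⟩
  add_mem' := by
    rintro _ _ ⟨h, hh, rfl⟩ ⟨g, hg, rfl⟩
    exact ⟨fun i => h i + g i, fun i => H.add_mem (hh i) (hg i), by
      simp [mul_add, sum_add_distrib]⟩
  neg_mem' := by
    rintro _ ⟨h, hh, rfl⟩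
    exact ⟨fun i => - h i, fun i => H.neg_mem (hh i), by simp⟩

variable {H : Subring R} {w : R}

lemma Tn_zero {x : R} : x ∈ Tn H w 0 ↔ x = 0 := by
  constructor
  · rintro ⟨h, -, rfl⟩
    simp
  · rintro rfl
    exact zero_mem _

lemma Tn_low {n : ℕ} {x : R} :
    x ∈ Tn H w (n + 1) ↔ ∃ h ∈ H, ∃ t ∈ Tn H w n, x = h + w * t := by
  constructor
  · rintro ⟨h, hh, rfl⟩
    refine ⟨h 0, hh 0, ∑ i ∈ range n, w ^ i * h (i + 1), ⟨fun i => h (i + 1), fun i => hh _, rfl⟩,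
      ?_⟩
    rw [sum_range_succ', mul_sum, add_comm]
    simp [pow_succ', mul_assoc]
  · rintro ⟨h, hh, _, ⟨g, hg, rfl⟩, rfl⟩
    refine ⟨fun i => Nat.casesOn i h g, fun i => ?_, ?_⟩
    · cases i
      · exact hh
      · exact hg _
    · rw [sum_range_succ', mul_sum, add_comm]
      simp [pow_succ', mul_assoc]

lemma Tn_top {n : ℕ} {x : R} :
    x ∈ Tn H w (n + 1) ↔ ∃ t ∈ Tn H w n, ∃ h ∈ H, x = t + w ^ n * h := by
  constructor
  · rintro ⟨h, hh, rfl⟩
    exact ⟨_, ⟨h, hh, rfl⟩, h n, hh n, by rw [sum_range_succ]⟩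
  · rintro ⟨_, ⟨g, hg, rfl⟩, h, hh, rfl⟩
    refine ⟨fun i => if i = n then h else g i, fun i => ?_, ?_⟩
    · dsimp only
      split_ifs
      · exact hh
      · exact hg i
    · rw [sum_range_succ]
      simp only [if_true]
      congr 1
      refine sum_congr rfl fun i hi => ?_
      rw [if_neg (mem_range.1 hi).ne]

lemma Tn_succ {n : ℕ} {x : R} (hx : x ∈ Tn H w n) : x ∈ Tn H w (n + 1) :=
  Tn_top.2 ⟨x, hx, 0, H.zero_mem, by simp⟩

lemma Tn_mono {n m : ℕ} (h : n ≤ m) {x : R} (hx : x ∈ Tn H w n) : x ∈ Tn H w m := by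
  induction h with
  | refl => exact hx
  | step _ ih => exact Tn_succ ih

lemma Tn_of_mem {n : ℕ} {h : R} (hh : h ∈ H) : h ∈ Tn H w (n + 1) :=
  Tn_low.2 ⟨h, hh, 0, zero_mem _, by simp⟩

lemma Tn_w_mul {n : ℕ} {t : R} (ht : t ∈ Tn H w n) : w * t ∈ Tn H w (n + 1) :=
  Tn_low.2 ⟨0, H.zero_mem, t, ht, by simp⟩

lemma Tn_pow_mul (n : ℕ) {h : R} (hh : h ∈ H) : w ^ n * h ∈ Tn H w (n + 1) :=
  Tn_top.2 ⟨0, zero_mem _, h, hh, by simp⟩

lemma Tn_mul_H {n : ℕ} {t h : R} (ht : t ∈ Tn H w n) (hh : h ∈ H) : t * h ∈ Tn H w n := by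
  obtain ⟨g, hg, rfl⟩ := ht
  exact ⟨fun i => g i * h, fun i => H.mul_mem (hg i) hh, by simp [sum_mul, mul_assoc]⟩

lemma Tn_finite (hH : (H : Set R).Finite) (n : ℕ) : (Tn H w n : Set R).Finite := by
  induction n with
  | zero => exact (Set.finite_singleton (0 : R)).subset fun x hx => Tn_zero.1 hx
  | succ n ih =>
    refine ((hH.prod ih).image fun p => p.1 + w * p.2).subset fun x hx => ?_
    obtain ⟨h, hh, t, ht, rfl⟩ := Tn_low.1 hx
    exact ⟨(h, t), ⟨hh, ht⟩, rfl⟩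

/-- `H w ⊆ w H` -/
def Nr (H : Subring R) (w : R) : Prop := ∀ h ∈ H, ∃ h' ∈ H, h * w = w * h'

/-- `w H ⊆ H w` -/
def Nl (H : Subring R) (w : R) : Prop := ∀ h ∈ H, ∃ h' ∈ H, w * h = h' * w

lemma H_mul_Tn (hw : Nr H w) {n : ℕ} {t h : R} (ht : t ∈ Tn H w n) (hh : h ∈ H) :
    h * t ∈ Tn H w n := by
  induction n generalizing t h with
  | zero => rw [Tn_zero.1 ht, mul_zero]; exact zero_mem _
  | succ n ih =>
    obtain ⟨g, hg, s, hs, rfl⟩ := Tn_low.1 ht
    obtain ⟨h', hh', e⟩ := hw h hh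
    refine Tn_low.2 ⟨h * g, H.mul_mem hh hg, h' * s, ih hs hh', ?_⟩
    rw [mul_add, ← mul_assoc, e, mul_assoc]

lemma Tn_wr (hw : Nr H w) {n : ℕ} {t : R} (ht : t ∈ Tn H w n) :
    ∃ t' ∈ Tn H w n, t * w = w * t' := by
  induction n generalizing t with
  | zero => exact ⟨0, zero_mem _, by rw [Tn_zero.1 ht]; simp⟩
  | succ n ih =>
    obtain ⟨g, hg, s, hs, rfl⟩ := Tn_low.1 ht
    obtain ⟨g', hg', e⟩ := hw g hg
    obtain ⟨s', hs', e'⟩ := ih hs
    exact ⟨g' + w * s', Tn_low.2 ⟨g', hg', s', hs', rfl⟩, by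
      rw [add_mul, e, mul_assoc, e', mul_add]⟩

lemma Tn_wl (hw : Nl H w) {n : ℕ} {t : R} (ht : t ∈ Tn H w n) :
    ∃ t' ∈ Tn H w n, w * t = t' * w := by
  induction n generalizing t with
  | zero => exact ⟨0, zero_mem _, by rw [Tn_zero.1 ht]; simp⟩
  | succ n ih =>
    obtain ⟨g, hg, s, hs, rfl⟩ := Tn_low.1 ht
    obtain ⟨g', hg', e⟩ := hw g hg
    obtain ⟨s', hs', e'⟩ := ih hs
    exact ⟨g' + w * s', Tn_low.2 ⟨g', hg', s', hs', rfl⟩, by
      rw [mul_add, e, e', add_mul, mul_assoc]⟩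

lemma Tn_mul_pow (hw : Nr H w) {n : ℕ} {t : R} (ht : t ∈ Tn H w n) (j : ℕ) :
    t * w ^ j ∈ Tn H w (n + j) := by
  induction j with
  | zero => simpa using ht
  | succ j ih =>
    obtain ⟨t', ht', e⟩ := Tn_wr hw ih
    rw [pow_succ, ← mul_assoc, e]
    exact Tn_w_mul ht'

lemma Tn_mul (hw : Nr H w) {n m : ℕ} {t s : R} (ht : t ∈ Tn H w n) (hs : s ∈ Tn H w m) :
    t * s ∈ Tn H w (m + n) := by
  induction n generalizing t with
  | zero => rw [Tn_zero.1 ht, zero_mul]; exact zero_mem _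
  | succ n ih =>
    obtain ⟨g, hg, t', ht', rfl⟩ := Tn_low.1 ht
    rw [add_mul, mul_assoc]
    exact add_mem (Tn_mono (by omega) (H_mul_Tn hw hs hg)) (Tn_w_mul (ih ht'))

/-- the subring `H[w]` -/
def Ts (hw : Nr H w) : Subring R where
  carrier := {x | ∃ n, x ∈ Tn H w n}
  mul_mem' := by
    rintro x y ⟨n, hx⟩ ⟨m, hy⟩
    exact ⟨_, Tn_mul hw hx hy⟩
  one_mem' := ⟨1, Tn_of_mem H.one_mem⟩
  add_mem' := by
    rintro x y ⟨n, hx⟩ ⟨m, hy⟩
    exact ⟨max n m, add_mem (Tn_mono (le_max_left _ _) hx) (Tn_mono (le_max_right _ _) hy)⟩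
  zero_mem' := ⟨0, zero_mem _⟩
  neg_mem' := by
    rintro x ⟨n, hx⟩
    exact ⟨n, neg_mem hx⟩

lemma mem_Ts {hw : Nr H w} {x : R} : x ∈ Ts hw ↔ ∃ n, x ∈ Tn H w n := Iff.rfl

lemma H_le_Ts (hw : Nr H w) {h : R} (hh : h ∈ H) : h ∈ Ts hw := ⟨1, Tn_of_mem hh⟩

lemma w_mem_Ts (hw : Nr H w) : w ∈ Ts hw :=
  ⟨2, by simpa using Tn_pow_mul (w := w) 1 H.one_mem⟩

lemma Ts_low {hw : Nr H w} {x : R} (hx : x ∈ Ts hw) : ∃ h ∈ H, ∃ t ∈ Ts hw, x = h + w * t := by
  obtain ⟨n, hx⟩ := hx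
  obtain ⟨h, hh, t, ht, e⟩ := Tn_low.1 (Tn_succ hx)
  exact ⟨h, hh, t, ⟨n, ht⟩, e⟩

lemma Ts_finite (hw : Nr H w) (hH : (H : Set R).Finite) {s : ℕ} (hs : 1 ≤ s) (h1 : w ^ s = 1) :
    (Ts hw : Set R).Finite := by
  obtain ⟨s, rfl⟩ : ∃ k, s = k + 1 := ⟨s - 1, by omega⟩
  refine (Tn_finite (w := w) hH (s + 1)).subset ?_
  rintro x ⟨n, hx⟩
  induction n generalizing x with
  | zero => rw [Tn_zero.1 hx]; exact zero_mem _
  | succ n ih =>
    obtain ⟨h, hh, t, ht, rfl⟩ := Tn_low.1 hx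
    obtain ⟨t', ht', g, hg, rfl⟩ := Tn_top.1 (ih ht)
    refine add_mem (Tn_of_mem hh) ?_
    rw [mul_add, ← mul_assoc, ← pow_succ', h1, one_mul]
    exact add_mem (Tn_w_mul ht') (Tn_of_mem hg)

lemma H_mul_pow (hw : Nr H w) {h : R} (hh : h ∈ H) (j : ℕ) :
    ∃ h' ∈ H, h * w ^ j = w ^ j * h' := by
  induction j with
  | zero => exact ⟨h, hh, by simp⟩
  | succ j ih =>
    obtain ⟨h', hh', e⟩ := ih
    obtain ⟨h'', hh'', e'⟩ := hw h' hh'
    exact ⟨h'', hh'', by rw [pow_succ, ← mul_assoc, e, mul_assoc, e', mul_assoc]⟩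

lemma euclid (hw : Nr H w) {n : ℕ} {q0 h h' : R} (hq0 : q0 ∈ Tn H w n) (hh' : h' ∈ H)
    (hhh : h * h' = 1) {p : R} (hp : p ∈ Ts hw) :
    ∃ s ∈ Ts hw, p - (q0 + w ^ n * h) * s ∈ Tn H w n := by
  obtain ⟨m, hp⟩ := hp
  induction m generalizing p with
  | zero => exact ⟨0, zero_mem _, by rw [Tn_zero.1 hp]; simp⟩
  | succ m ih =>
    by_cases hm : m + 1 ≤ n
    · exact ⟨0, zero_mem _, by simpa using Tn_mono hm hp⟩
    · obtain ⟨j, rfl⟩ : ∃ j, m = n + j := ⟨m - n, by omega⟩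
      obtain ⟨p0, hp0, g, hg, rfl⟩ := Tn_top.1 hp
      have h1 : p0 - q0 * h' * w ^ j * g ∈ Tn H w (n + j) :=
        sub_mem hp0 (Tn_mul_H (Tn_mul_pow hw (Tn_mul_H hq0 hh') j) hg)
      obtain ⟨s, hs, h2⟩ := ih h1
      refine ⟨s + h' * w ^ j * g, add_mem hs (mul_mem (mul_mem (H_le_Ts hw hh')
        (pow_mem (w_mem_Ts hw) j)) (H_le_Ts hw hg)), ?_⟩
      have : (q0 + w ^ n * h) * (h' * w ^ j * g) = q0 * h' * w ^ j * g + w ^ (n + j) * g := by
        rw [add_mul, pow_add]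
        congr 1
        · simp only [mul_assoc]
        · calc w ^ n * h * (h' * w ^ j * g) = w ^ n * (h * h') * w ^ j * g := by
                simp only [mul_assoc]
            _ = _ := by rw [hhh, mul_one]
      convert h2 using 1
      rw [mul_add, this]
      abel

variable [IsDomain R]

lemma ore (hw : Nr H w) (hinv : ∀ h ∈ H, h ≠ 0 → ∃ h' ∈ H, h * h' = 1) {q : R}
    (hq : q ∈ Ts hw) (hq0 : q ≠ 0) {p : R} (hp : p ∈ Ts hw) :
    ∃ p' ∈ Ts hw, ∃ q' ∈ Ts hw, q' ≠ 0 ∧ p * q' = q * p' := by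
  obtain ⟨n, hq⟩ := hq
  induction n generalizing q p with
  | zero => exact absurd (Tn_zero.1 hq) hq0
  | succ n ih =>
    have hqT : q ∈ Ts hw := ⟨_, hq⟩
    obtain ⟨q0, hq0', h, hh, e⟩ := Tn_top.1 hq
    by_cases h0 : h = 0
    · refine ih hq0 hp ?_
      rw [e, h0]
      simpa using hq0'
    · obtain ⟨h', hh', hhh⟩ := hinv h hh h0
      obtain ⟨s, hs, hr⟩ := euclid hw hq0' hh' hhh hp
      rw [← e] at hr
      by_cases hr0 : p - q * s = 0
      · exact ⟨s, hs, 1, one_mem _, one_ne_zero, by rw [mul_one]; exact sub_eq_zero.1 hr0⟩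
      · obtain ⟨a, ha, b, hb, hb0, e'⟩ := ih hr0 hqT hr
        refine ⟨s * a + b, add_mem (mul_mem hs ha) hb, a, ha, ?_, ?_⟩
        · rintro rfl
          rw [mul_zero] at e'
          exact mul_ne_zero hq0 hb0 e'
        · rw [mul_add, e', sub_mul, mul_assoc]
          abel

/-- membership in `w H[w]` -/
def Tp (hw : Nr H w) (x : R) : Prop := ∃ t ∈ Ts hw, x = w * t

omit [IsDomain R] in
lemma Tp.mul_left {hw : Nr H w} {x y : R} (hx : x ∈ Ts hw) (hy : Tp hw y) : Tp hw (x * y) := by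
  obtain ⟨t, ht, rfl⟩ := hy
  obtain ⟨n, hx⟩ := hx
  obtain ⟨x', hx', e⟩ := Tn_wr hw hx
  exact ⟨x' * t, mul_mem ⟨n, hx'⟩ ht, by rw [← mul_assoc, e, mul_assoc]⟩

omit [IsDomain R] in
lemma Tp.add {hw : Nr H w} {x y : R} (hx : Tp hw x) (hy : Tp hw y) : Tp hw (x + y) := by
  obtain ⟨t, ht, rfl⟩ := hy
  obtain ⟨s, hs, rfl⟩ := hx
  exact ⟨s + t, add_mem hs ht, by rw [mul_add]⟩

omit [IsDomain R] in
lemma Tp.sub {hw : Nr H w} {x y : R} (hx : Tp hw x) (hy : Tp hw y) : Tp hw (x - y) := by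
  obtain ⟨t, ht, rfl⟩ := hy
  obtain ⟨s, hs, rfl⟩ := hx
  exact ⟨s - t, sub_mem hs ht, by rw [mul_sub]⟩

lemma Tp.prime {hw : Nr H w} (hind : ∀ h ∈ H, Tp hw h → h = 0) {q p : R} (hq : q ∈ Ts hw)
    (hq' : ¬ Tp hw q) (hp : p ∈ Ts hw) (h : Tp hw (q * p)) : Tp hw p := by
  obtain ⟨a, ha, t, ht, rfl⟩ := Ts_low hq
  obtain ⟨b, hb, s, hs, rfl⟩ := Ts_low hp
  have ha0 : a ≠ 0 := by
    rintro rfl
    exact hq' ⟨t, ht, by simp⟩
  have h1 : Tp hw (a * b) := by
    have h2 : Tp hw (a * (w * s)) := Tp.mul_left (H_le_Ts hw ha) ⟨s, hs, rfl⟩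
    have h3 : Tp hw (w * (t * (b + w * s))) := ⟨_, mul_mem ht hp, rfl⟩
    convert (h.sub h2).sub h3 using 1
    noncomm_ring
  have hb0 : b = 0 := (mul_eq_zero.1 (hind _ (H.mul_mem ha hb) h1)).resolve_left ha0
  exact ⟨s, hs, by rw [hb0, zero_add]⟩

lemma ore' {hw : Nr H w} (hw' : Nl H w) (hw0 : w ≠ 0)
    (hinv : ∀ h ∈ H, h ≠ 0 → ∃ h' ∈ H, h * h' = 1)
    (hind : ∀ h ∈ H, Tp hw h → h = 0) {q : R}
    (hq : q ∈ Ts hw) (hq' : ¬ Tp hw q) {p : R} (hp : p ∈ Ts hw) :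
    ∃ p' ∈ Ts hw, ∃ q' ∈ Ts hw, ¬ Tp hw q' ∧ p * q' = q * p' := by
  have hq0 : q ≠ 0 := by
    rintro rfl
    exact hq' ⟨0, zero_mem _, by simp⟩
  obtain ⟨p', hp', q', ⟨n, hn⟩, h0, e⟩ := ore hw hinv hq hq0 hp
  induction n generalizing p' q' with
  | zero => exact absurd (Tn_zero.1 hn) h0
  | succ n ih =>
    obtain ⟨h, hh, t, ht, rfl⟩ := Tn_low.1 hn
    by_cases hh0 : h = 0
    · subst hh0
      rw [zero_add] at e h0
      obtain ⟨t', ht', e1⟩ := Tn_wl hw' ht
      have h1 : Tp hw (q * p') := e ▸ Tp.mul_left hp ⟨t, ⟨n, ht⟩, rfl⟩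
      obtain ⟨s, ⟨m, hs⟩, rfl⟩ := Tp.prime hind hq hq' hp' h1
      obtain ⟨s', hs', e2⟩ := Tn_wl hw' hs
      refine ih s' ⟨m, hs'⟩ t' ht' ?_ ?_
      · rintro rfl
        rw [e1, zero_mul] at h0
        exact h0 rfl
      · apply mul_right_cancel₀ hw0
        rw [mul_assoc, ← e1, e, e2, mul_assoc]
    · refine ⟨p', hp', _, ⟨_, hn⟩, fun h1 => hh0 (hind h hh ?_), e⟩
      simpa using h1.sub ⟨t, ⟨n, ht⟩, rfl⟩

end General

universe u

variable {D : Type u} [DivisionRing D]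

/-- torsion elements -/
def Tor (x : D) : Prop := ∃ s : ℕ, 1 ≤ s ∧ x ^ s = 1

lemma tor_of_finite {x : D} (hx : x ≠ 0) {S : Set D} (hS : S.Finite) (h : ∀ n : ℕ, x ^ n ∈ S) :
    Tor x := by
  obtain ⟨i, j, hij, e⟩ := hS.exists_lt_map_eq_of_forall_mem h
  obtain ⟨k, rfl⟩ := Nat.exists_eq_add_of_lt hij
  refine ⟨k + 1, by omega, ?_⟩
  apply mul_left_cancel₀ (pow_ne_zero i hx)
  rw [← pow_add, mul_one, ← add_assoc]
  exact e.symm

lemma Tor.of_inv {x : D} (h : Tor x⁻¹) : Tor x := by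
  obtain ⟨s, hs, e⟩ := h
  exact ⟨s, hs, by rw [inv_pow, inv_eq_one] at e; exact e⟩

lemma Tor.of_pow {x : D} {n : ℕ} (hn : 1 ≤ n) (h : Tor (x ^ n)) : Tor x := by
  obtain ⟨s, hs, e⟩ := h
  exact ⟨n * s, Nat.mul_pos hn hs, by rw [pow_mul, e]⟩

lemma Tor.ne_zero {x : D} (h : Tor x) : x ≠ 0 := by
  obtain ⟨s, hs, e⟩ := h
  rintro rfl
  rw [zero_pow (by omega)] at e
  exact zero_ne_one e

lemma tor_of_inv_mem {Z : Subring D} (hZ : (Z : Set D).Finite) {w t : D} {n : ℕ}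
    (ht : t ∈ Tn Z w n) (h : w * t = 1) : Tor w := by
  have hw : w ≠ 0 := by
    rintro rfl
    simp at h
  have e : w⁻¹ = t := by rw [← mul_one w⁻¹, ← h, ← mul_assoc, inv_mul_cancel₀ hw, one_mul]
  apply Tor.of_inv
  refine tor_of_finite (inv_ne_zero hw) (Tn_finite (w := w) hZ (n + 1)) fun j => ?_
  induction j with
  | zero => exact Tn_of_mem (by simp)
  | succ j ih =>
    obtain ⟨z, hz, s, hs, e'⟩ := Tn_low.1 ih
    have : w⁻¹ ^ (j + 1) = t * z + s := by
      rw [pow_succ', e', mul_add, ← mul_assoc, inv_mul_cancel₀ hw, one_mul, e]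
    rw [this]
    exact Tn_succ (add_mem (Tn_mul_H ht hz) hs)

lemma comm_of_finite {S : Subring D} (hS : (S : Set D).Finite) {x y : D} (hx : x ∈ S)
    (hy : y ∈ S) : x * y = y * x := by
  have : Finite S := hS
  have h := (Finite.isDomain_to_isField S).mul_comm ⟨x, hx⟩ ⟨y, hy⟩
  exact congrArg Subtype.val h

lemma bot_finite (p : ℕ) [Fact p.Prime] [CharP D p] : ((⊥ : Subring D) : Set D).Finite := by
  refine (Set.finite_range (ZMod.castHom (dvd_refl p) D)).subset fun x hx => ?_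
  obtain ⟨n, rfl⟩ := Subring.mem_bot.1 hx
  exact ⟨(n : ZMod p), map_intCast _ n⟩

lemma Nr_bot (w : D) : Nr (⊥ : Subring D) w := by
  intro h hh
  obtain ⟨n, rfl⟩ := Subring.mem_bot.1 hh
  exact ⟨n, hh, (Int.cast_commute n w).eq⟩

lemma Ts_le {H S : Subring D} {w : D} (hw : Nr H w) (h1 : H ≤ S) (h2 : w ∈ S) : Ts hw ≤ S := by
  rintro x ⟨n, h, hh, rfl⟩
  exact sum_mem fun i _ => mul_mem (pow_mem h2 i) (h1 (hh i))

/-- a map-style induction for `H[w]` -/
lemma Ts_map {H S : Subring D} {w : D} (hw : Nr H w) (f : D →+* D) (h1 : ∀ h ∈ H, f h ∈ S)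
    (h2 : f w ∈ S) {x : D} (hx : x ∈ Ts hw) : f x ∈ S :=
  Ts_le (S := S.comap f) hw h1 h2 hx

/-- conjugation as a ring map -/
def cjr {a : D} (ha : a ≠ 0) : D →+* D where
  toFun x := a * x * a⁻¹
  map_one' := by simp [ha]
  map_mul' x y := cj_mul ha x y
  map_zero' := by simp
  map_add' x y := by simp [mul_add, add_mul]

lemma cjr_apply {a : D} (ha : a ≠ 0) (x : D) : cjr ha x = a * x * a⁻¹ := rfl

/-- in characteristic `p`, a torsion element normalizing the ring generated by a torsion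
element lies with it in a finite subring -/
lemma finite_pair (p : ℕ) [Fact p.Prime] [CharP D p] {b y : D} (hb : Tor b) (hy : Tor y)
    (h : y⁻¹ * b * y ∈ Ts (Nr_bot b)) :
    ∃ S : Subring D, (S : Set D).Finite ∧ b ∈ S ∧ y ∈ S := by
  have hy0 := hy.ne_zero
  obtain ⟨s, hs, e⟩ := hb
  obtain ⟨s', hs', e'⟩ := hy
  have h1 := Ts_finite (Nr_bot b) (bot_finite p) hs e
  have hN : Nr (Ts (Nr_bot b)) y := by
    intro x hx
    refine ⟨cjr (inv_ne_zero hy0) x, Ts_map (Nr_bot b) _ ?_ ?_ hx, ?_⟩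
    · intro z hz
      obtain ⟨n, rfl⟩ := Subring.mem_bot.1 hz
      rw [map_intCast]
      exact intCast_mem _ n
    · rw [cjr_apply, inv_inv]
      exact h
    · rw [cjr_apply, inv_inv, ← mul_assoc, ← mul_assoc, mul_inv_cancel₀ hy0, one_mul]
  exact ⟨Ts hN, Ts_finite hN h1 hs' e', H_le_Ts hN (w_mem_Ts _), w_mem_Ts hN⟩

/-- independence of powers of a normalizing element -/
lemma indep {H : Subfield D} {w : D} (hw0 : w ≠ 0) (h1 : ∀ h ∈ H, w * h * w⁻¹ ∈ H)
    (h2 : ∀ h ∈ H, w⁻¹ * h * w ∈ H)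
    (hno : ∀ (i0 : ℕ) (s : Finset ℕ) (g : ℕ → D),
      (∀ i ∈ s, i0 < i ∧ (∃ h ∈ H, g i = w ^ (i - i0) * h) ∧ g i ∈ cent (H : Set D)) →
      1 + ∑ i ∈ s, g i ≠ 0)
    (s : Finset ℕ) (g : ℕ → D) (hg : ∀ i ∈ s, ∃ h ∈ H, g i = w ^ i * h)
    (h0 : ∑ i ∈ s, g i = 0) : ∀ i ∈ s, g i = 0 := by
  have hp1 : ∀ (j : ℕ), ∀ h ∈ H, w ^ j * h * (w ^ j)⁻¹ ∈ H := by
    intro j
    induction j with
    | zero => intro h hh; simpa using hh
    | succ j ih =>
      intro h hh
      have := h1 _ (ih h hh)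
      rw [pow_succ', mul_inv_rev]
      simpa only [mul_assoc] using this
  have hp2 : ∀ (j : ℕ), ∀ h ∈ H, (w ^ j)⁻¹ * h * w ^ j ∈ H := by
    intro j
    induction j with
    | zero => intro h hh; simpa using hh
    | succ j ih =>
      intro h hh
      have := h2 _ (ih h hh)
      rw [pow_succ, mul_inv_rev]
      simpa only [mul_assoc] using this
  induction s using Finset.induction_on_min generalizing g with
  | empty => simp
  | insert i0 s hs ih =>
    have hi0 : i0 ∉ s := fun h => lt_irrefl _ (hs i0 h)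
    rw [sum_insert hi0] at h0
    have hg0 : g i0 = 0 := by
      by_contra hne
      obtain ⟨h0', hh0, e0⟩ := hg i0 (mem_insert_self _ _)
      have hwi := pow_ne_zero i0 hw0
      have hh00 : h0' ≠ 0 := by
        rintro rfl
        exact hne (by rw [e0, mul_zero])
      apply hno i0 s (fun i => g i * (g i0)⁻¹)
      · intro i hi
        obtain ⟨h, hh, e⟩ := hg i (mem_insert_of_mem hi)
        refine ⟨hs i hi, ⟨w ^ i0 * (h * h0'⁻¹) * (w ^ i0)⁻¹,
          hp1 _ _ (H.mul_mem hh (H.inv_mem hh0)), ?_⟩, ?_⟩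
        · rw [e, e0, mul_inv_rev, ← mul_assoc, ← mul_assoc, ← mul_assoc, ← pow_add,
            Nat.sub_add_cancel (hs i hi).le]
          simp only [mul_assoc]
        · intro y hy
          have hy' : (g i0)⁻¹ * y * g i0 ∈ H := by
            have := H.mul_mem (H.mul_mem (H.inv_mem hh0) (hp2 i0 y hy)) hh0
            rw [e0, mul_inv_rev]
            simpa only [mul_assoc] using this
          have key := ih (fun i => y * g i - g i * ((g i0)⁻¹ * y * g i0)) (fun j hj => by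
            obtain ⟨h, hh, e⟩ := hg j (mem_insert_of_mem hj)
            refine ⟨(w ^ j)⁻¹ * y * w ^ j * h - h * ((g i0)⁻¹ * y * g i0),
              H.sub_mem (H.mul_mem (hp2 j y hy) hh) (H.mul_mem hh hy'), ?_⟩
            rw [e, mul_sub]
            simp [mul_assoc, pow_ne_zero j hw0]) (by
            rw [sum_sub_distrib, ← mul_sum, ← sum_mul, eq_neg_of_add_eq_zero_right h0]
            simp [mul_assoc, hne]) i hi
          have key' : y * g i = g i * ((g i0)⁻¹ * y * g i0) := sub_eq_zero.1 key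
          rw [← mul_assoc, key']
          simp [mul_assoc, hne]
      · rw [← sum_mul, eq_neg_of_add_eq_zero_right h0]
        simp [hne]
    rw [hg0, zero_add] at h0
    intro i hi
    rcases mem_insert.1 hi with rfl | hi
    · exact hg0
    · exact ih g (fun j hj => hg j (mem_insert_of_mem hj)) h0 i hi

lemma Nr_of_conj {H : Subfield D} {w : D} (hw0 : w ≠ 0) (h2 : ∀ h ∈ H, w⁻¹ * h * w ∈ H) :
    Nr H.toSubring w := fun h hh => ⟨_, h2 h hh, by simp [mul_assoc, hw0]⟩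

lemma Nl_of_conj {H : Subfield D} {w : D} (hw0 : w ≠ 0) (h1 : ∀ h ∈ H, w * h * w⁻¹ ∈ H) :
    Nl H.toSubring w := fun h hh => ⟨_, h1 h hh, by simp [mul_assoc, hw0]⟩

lemma hind_of_indep {H : Subfield D} {w : D} (hw : Nr H.toSubring w)
    (hI : ∀ (s : Finset ℕ) (g : ℕ → D), (∀ i ∈ s, ∃ h ∈ H, g i = w ^ i * h) →
      ∑ i ∈ s, g i = 0 → ∀ i ∈ s, g i = 0) :
    ∀ h ∈ H.toSubring, Tp hw h → h = 0 := by
  rintro h hh ⟨t, ⟨n, c, hc, rfl⟩, e⟩
  have := hI (range (n + 1)) (fun i => Nat.casesOn i (-h) (fun j => w ^ (j + 1) * c j))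
    (fun i _ => by
      cases i with
      | zero => exact ⟨-h, H.neg_mem hh, by simp⟩
      | succ j => exact ⟨c j, hc j, rfl⟩) (by
      rw [sum_range_succ']
      simp only [Nat.rec_zero]
      rw [e, mul_sum]
      simp [pow_succ', mul_assoc]) 0 (by simp)
  simpa using this

end Pool.Agent.Work.MP_b4cb8e_al
end

-- merged part: Pool.Agent.Work.MP_b4cb8e_al.Unip
section
set_option autoImplicit false

namespace Pool.Agent.Work.MP_b4cb8e_al

open Finset

universe u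

variable {D : Type u} [DivisionRing D]

lemma exists_val {k : Type u} [Field k] (t : k) (h : ∀ s ∈ Ts (Nr_bot t), t * s ≠ 1) :
    ∃ V : ValuationSubring k, V.valuation t < 1 := by
  let A : Subring k := Ts (Nr_bot t)
  let t' : A := ⟨t, w_mem_Ts _⟩
  have hI : Ideal.span {t'} ≠ ⊤ := by
    intro h1
    rw [Ideal.span_singleton_eq_top, isUnit_iff_exists_inv] at h1
    obtain ⟨s, hs⟩ := h1
    exact h s s.2 (congrArg Subtype.val hs)
  obtain ⟨V, -, hV⟩ := Ideal.image_subset_nonunits_valuationSubring _ hI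
  refine ⟨V, ?_⟩
  have : t ∈ V.nonunits := hV ⟨t', Ideal.mem_span_singleton_self _, rfl⟩
  exact (ValuationSubring.mem_nonunits_iff V).1 this

lemma exists_val_of_not_tor {k : Type u} [Field k] (p : ℕ) [Fact p.Prime] [CharP k p] (t : k)
    (h : ¬ Tor t) : ∃ V : ValuationSubring k, V.valuation t < 1 :=
  exists_val t fun _ ⟨_, hs⟩ e => h (tor_of_inv_mem (bot_finite p) hs e)

lemma val_tor {R Γ : Type*} [Ring R] [LinearOrderedCommGroupWithZero Γ] (v : Valuation R Γ)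
    {x : R} {s : ℕ} (hs : 1 ≤ s) (h : x ^ s = 1) : v x = 1 := by
  have : v x ^ s = 1 := by rw [← map_pow, h, map_one]
  exact (pow_eq_one_iff_left (by omega)).1 this

/-- iterated differences of the delta function on `ZMod p` -/
def ee (p : ℕ) : ℕ → ZMod p → ℤ
  | 0 => fun i => if i = 0 then 1 else 0
  | k + 1 => fun i => ee p k i - ee p k (i + 1)

lemma ee_ne_zero (p : ℕ) [Fact p.Prime] (k : ℕ) : ∃ i, ee p (k + 1) i ≠ 0 := by
  induction k with
  | zero => exact ⟨0, by simp [ee]⟩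
  | succ k ih =>
    by_contra h
    push Not at h
    have h1 : ∀ i, ee p (k + 1) (i + 1) = ee p (k + 1) i := fun i => (sub_eq_zero.1 (h i)).symm
    have h2 : ∀ n : ℕ, ee p (k + 1) (n : ZMod p) = ee p (k + 1) 0 := by
      intro n
      induction n with
      | zero => simp
      | succ n ih => rw [Nat.cast_succ, h1, ih]
    have h3 : ∀ i : ZMod p, ee p (k + 1) i = ee p (k + 1) 0 := by
      intro i
      rw [← ZMod.natCast_zmod_val i, h2]
    have h4 : ∑ i : ZMod p, ee p (k + 1) i = 0 := by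
      simp only [ee, sum_sub_distrib]
      rw [sub_eq_zero]
      exact (Equiv.sum_comp (Equiv.addRight (1 : ZMod p)) (ee p k)).symm
    rw [sum_congr rfl fun i _ => h3 i, sum_const, card_univ, ZMod.card, nsmul_eq_mul] at h4
    have hp : (p : ℤ) ≠ 0 := Nat.cast_ne_zero.2 (Fact.out : p.Prime).ne_zero
    obtain ⟨i, hi⟩ := ih
    exact hi ((h3 i).trans ((mul_eq_zero.1 h4).resolve_left hp))

/-- the sequence of commutators inside a field with an endomorphism -/
def dE {E : Type*} [Field E] (σ : E →+* E) (β : E) : ℕ → E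
  | 0 => β
  | k + 1 => dE σ β k * (σ (dE σ β k))⁻¹

lemma field_U {E : Type u} [Field E] (p : ℕ) [Fact p.Prime] [CharP E p] (σ : E →+* E) (β : E)
    (hβ0 : β ≠ 0) (hβ : ¬ Tor β) (hs : σ β = β + 1) (r n : ℕ) (hn : 1 ≤ n) :
    σ (dE σ β r ^ n) ≠ dE σ β r ^ n := by
  obtain ⟨V, hV⟩ := exists_val_of_not_tor p β hβ
  set v := V.valuation
  have hγ : 0 < v β := zero_lt_iff.2 ((Valuation.ne_zero_iff v).2 hβ0)
  have hit : ∀ i : ℕ, (σ ^ i) β = β + i := by
    intro i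
    induction i with
    | zero => simp
    | succ i ih =>
      rw [pow_succ', RingHom.coe_mul, Function.comp_apply, ih, map_add, hs, map_natCast,
        Nat.cast_succ]
      ring
  have key : ∀ k i : ℕ, v ((σ ^ i) (dE σ β k)) = v β ^ (ee p k (i : ZMod p)) := by
    intro k
    induction k with
    | zero =>
      intro i
      rw [dE, hit, ee]
      by_cases hi : (i : ZMod p) = 0
      · have : (i : E) = 0 := (CharP.cast_eq_zero_iff E p i).2 ((ZMod.natCast_eq_zero_iff i p).1 hi)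
        simp [hi, this]
      · have h1 : (i : E) ^ (p - 1) = 1 := by
          have := congrArg (ZMod.castHom (dvd_refl p) E) (ZMod.pow_card_sub_one_eq_one hi)
          simpa using this
        have h2 : v (i : E) = 1 := val_tor v (by have := (Fact.out : p.Prime).two_le; omega) h1
        simp only [hi, if_false, zpow_zero]
        rw [Valuation.map_add_eq_of_lt_right v (by rw [h2]; exact hV), h2]
    | succ k ih =>
      intro i
      have : (σ ^ i) (σ (dE σ β k)) = (σ ^ (i + 1)) (dE σ β k) := by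
        rw [pow_succ, RingHom.coe_mul, Function.comp_apply]
      rw [dE, map_mul, map_inv₀, this, map_mul, map_inv₀, ih, ih, ee, zpow_sub₀ hγ.ne',
        Nat.cast_succ, div_eq_mul_inv]
  intro h
  obtain ⟨i, hi⟩ := ee_ne_zero p r
  apply hi
  have h1 : (σ ^ (i.val + 1)) (dE σ β r ^ n) = (σ ^ i.val) (dE σ β r ^ n) := by
    rw [pow_succ, RingHom.coe_mul, Function.comp_apply, h]
  have h2 := congrArg v h1
  rw [map_pow, map_pow, map_pow, map_pow, key, key, Nat.cast_succ, ZMod.natCast_zmod_val] at h2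
  have h3 := (pow_left_inj₀ zero_le zero_le (by omega)).1 h2
  have h4 := (zpow_right_strictAnti₀ hγ hV).injective h3
  simp [ee, h4]

lemma shift_U (p : ℕ) [Fact p.Prime] [CharP D p] {a b : D} (ha : a ≠ 0) (hb : ¬ Tor b)
    (hs : a * b * a⁻¹ = b + 1) (r n : ℕ) (hn : 1 ≤ n) :
    a * ds a b r ^ n ≠ ds a b r ^ n * a := by
  have hb0 : b ≠ 0 := by
    rintro rfl
    simp at hs
  let E : Subfield D := cent (cent ({b} : Set D) : Set D)
  have hbE : b ∈ E := fun y hy => (hy b rfl).symm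
  have hcomm : ∀ x ∈ E, ∀ y ∈ E, x * y = y * x := by
    intro x hx y hy
    refine hy x ?_
    rintro z rfl
    exact hx z (by rintro w rfl; rfl)
  have hinv : a⁻¹ * b * a = b - 1 := by
    have : a⁻¹ * (a * b * a⁻¹) * a = a⁻¹ * (b + 1) * a := by rw [hs]
    rw [mul_add, add_mul, mul_one, inv_mul_cancel₀ ha] at this
    rw [eq_sub_iff_add_eq, ← this]
    simp [mul_assoc, ha]
  have hE : ∀ x ∈ E, cjr ha x ∈ E := by
    intro x hx y hy
    have hy' : a⁻¹ * y * a ∈ cent ({b} : Set D) := by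
      rintro z rfl
      have h1 : z * y = y * z := hy z rfl
      have h2 : (a * z * a⁻¹) * y = y * (a * z * a⁻¹) := by
        rw [hs, add_mul, mul_add, h1, one_mul, mul_one]
      calc z * (a⁻¹ * y * a) = a⁻¹ * ((a * z * a⁻¹) * y) * a := by simp [mul_assoc, ha]
        _ = _ := by rw [h2]; simp [mul_assoc, ha]
    have h3 := hx _ hy'
    rw [cjr_apply]
    calc y * (a * x * a⁻¹) = a * ((a⁻¹ * y * a) * x) * a⁻¹ := by simp [mul_assoc, ha]
      _ = _ := by rw [h3]; simp [mul_assoc, ha]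
  let : Field E := { (inferInstance : DivisionRing E) with
    mul_comm := fun x y => Subtype.ext (hcomm x x.2 y y.2) }
  have : CharP E p := (RingHom.charP_iff_charP E.subtype p).2 inferInstance
  let σ : E →+* E := (cjr ha).restrict E E hE
  have hd : ∀ k, ((dE σ ⟨b, hbE⟩ k : E) : D) = ds a b k := by
    intro k
    induction k with
    | zero => rfl
    | succ k ih =>
      have : ((dE σ ⟨b, hbE⟩ (k + 1) : E) : D) =
          (dE σ ⟨b, hbE⟩ k : E) * (a * (dE σ ⟨b, hbE⟩ k : E) * a⁻¹)⁻¹ := rfl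
      rw [this, ih, ds, mul_inv_rev, mul_inv_rev, inv_inv, mul_assoc a]
  intro h
  refine field_U p σ ⟨b, hbE⟩ (fun h0 => hb0 (congrArg Subtype.val h0)) ?_ (Subtype.ext hs) r n
    hn (Subtype.ext ?_)
  · rintro ⟨s, hs1, e⟩
    exact hb ⟨s, hs1, congrArg Subtype.val e⟩
  · have h1 : ((dE σ ⟨b, hbE⟩ r ^ n : E) : D) = ds a b r ^ n := by rw [← hd]; rfl
    have : ((σ (dE σ ⟨b, hbE⟩ r ^ n) : E) : D) =
        a * ((dE σ ⟨b, hbE⟩ r ^ n : E) : D) * a⁻¹ := rfl
    rw [this, h1, h]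
    simp [ha]

lemma exists_shift {a : D} (ha : a ≠ 0) {k : ℕ} {x : D} (hx : (dl a ^ k) x = 0)
    (hx' : a * x ≠ x * a) : ∃ b, a * b * a⁻¹ = b + 1 := by
  induction k generalizing x with
  | zero => exact absurd (by rw [show x = 0 from hx]; simp) hx'
  | succ k ih =>
    by_cases h : a * dl a x = dl a x * a
    · have hc : dl a x ≠ 0 := fun h0 => hx' ((dl_eq_zero_iff ha x).1 h0)
      set c := dl a x with hc'
      have h1 : a * c⁻¹ = c⁻¹ * a := (Commute.inv_right₀ (a := a) (b := c) h).eq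
      have h2 : a * x * a⁻¹ = x - c := by rw [hc', dl_apply]; abel
      refine ⟨-(c⁻¹ * x), ?_⟩
      rw [mul_neg, neg_mul, ← mul_assoc, h1, mul_assoc c⁻¹, mul_assoc c⁻¹, h2, mul_sub,
        inv_mul_cancel₀ hc]
      abel
    · exact ih (by rw [← dl_pow_succ', hx]) h

/-- falling factorials -/
def ff (b : D) : ℕ → D
  | 0 => 1
  | k + 1 => ff b k * (b - k)

lemma ff_comm (b : D) (k : ℕ) : Commute b (ff b k) := by
  induction k with
  | zero => exact Commute.one_right b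
  | succ k ih => exact ih.mul_right ((Commute.refl b).sub_right (Nat.commute_cast b k))

lemma ff_shift (b : D) (k : ℕ) : ff (b + 1) (k + 1) = (b + 1) * ff b k := by
  induction k with
  | zero => simp [ff]
  | succ k ih =>
    rw [ff, ih, ff, mul_assoc, Nat.cast_succ]
    congr 2
    abel

lemma ff_conj {a b : D} (ha : a ≠ 0) (k : ℕ) : cjr ha (ff b k) = ff (cjr ha b) k := by
  induction k with
  | zero => exact map_one _
  | succ k ih => rw [ff, map_mul, ih, map_sub, map_natCast, ff]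

lemma dl_ff {a b : D} (ha : a ≠ 0) (hs : a * b * a⁻¹ = b + 1) (k : ℕ) :
    dl a (ff b (k + 1)) = (-((k : ℤ) + 1)) • ff b k := by
  have h1 : a * ff b (k + 1) * a⁻¹ = (b + 1) * ff b k := by
    rw [← ff_shift, ← hs]
    exact ff_conj ha (k + 1)
  rw [dl_apply, h1, ff, add_mul, (ff_comm b k).eq, mul_sub, ← (Nat.cast_commute k (ff b k)).eq]
  simp [add_mul]
  abel

lemma dl_pow_ff {a b : D} (ha : a ≠ 0) (hs : a * b * a⁻¹ = b + 1) (k : ℕ) :
    ∃ c : ℤ, c ≠ 0 ∧ (dl a ^ k) (ff b k) = c := by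
  induction k with
  | zero => exact ⟨1, one_ne_zero, by simp [ff]⟩
  | succ k ih =>
    obtain ⟨c, hc, e⟩ := ih
    refine ⟨-((k : ℤ) + 1) * c, mul_ne_zero (by omega) hc, ?_⟩
    rw [dl_pow_succ', dl_ff ha hs, map_zsmul, e]
    simp

/-- a subnormal subgroup with a noncentral unipotent element has an element no power of which
commutes with it -/
lemma NU {N : Subgroup Dˣ} (hN : N.IsSubnormal) {a : D} (ha : a ∈ SN N)
    (ha' : a ∉ Subring.center D) {k : ℕ} (hk : ∀ x, (dl a ^ k) x = 0) :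
    ∃ p : ℕ, p.Prime ∧ CharP D p ∧ ∃ g ∈ SN N, ∀ n : ℕ, 1 ≤ n → a * g ^ n ≠ g ^ n * a := by
  have ha0 := SN.ne_zero ha
  obtain ⟨x, hx⟩ : ∃ x, a * x ≠ x * a := by
    by_contra h
    push Not at h
    exact ha' (mem_center.2 fun y => (h y).symm)
  obtain ⟨b, hb⟩ := exists_shift ha0 (hk x) hx
  obtain ⟨p, hp⟩ := CharP.exists D
  rcases CharP.char_is_prime_or_zero D p with hpr | rfl
  · have : Fact p.Prime := ⟨hpr⟩
    obtain ⟨r, hr⟩ := absorb hN
    have hne : a * b ≠ b * a := by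
      intro h
      rw [h, mul_assoc, mul_inv_cancel₀ ha0, mul_one] at hb
      simp at hb
    suffices h : ∃ b', a * b' * a⁻¹ = b' + 1 ∧ ¬ Tor b' by
      obtain ⟨b', hb', ht⟩ := h
      have hb0 : b' ≠ 0 := by
        rintro rfl
        simp at hb'
      exact ⟨p, hpr, hp, ds a b' r, hr a ha b' hb0, fun n hn => shift_U p ha0 ht hb' r n hn⟩
    by_cases htb : Tor b
    · have hinv : a⁻¹ * b * a = b - 1 := by
        have : a⁻¹ * (a * b * a⁻¹) * a = a⁻¹ * (b + 1) * a := by rw [hb]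
        rw [mul_add, add_mul, mul_one, inv_mul_cancel₀ ha0] at this
        rw [eq_sub_iff_add_eq, ← this]
        simp [mul_assoc, ha0]
      have hta : ¬ Tor a := by
        intro hta
        obtain ⟨S, hS, h1, h2⟩ := finite_pair p htb hta
          (hinv ▸ sub_mem (w_mem_Ts _) (one_mem _))
        exact hne (comm_of_finite hS h2 h1)
      have hit : ∀ i : ℕ, a ^ i * b = (b + i) * a ^ i := by
        intro i
        induction i with
        | zero => simp
        | succ i ih =>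
          have h1 : a * b = (b + 1) * a := by rw [← hb]; simp [ha0]
          rw [pow_succ', mul_assoc, ih, ← mul_assoc, mul_add, h1, ← (Nat.cast_commute i a).eq,
            ← add_mul, mul_assoc, Nat.cast_succ]
          congr 1
          abel
      have hpb : a ^ p * b = b * a ^ p := by rw [hit, CharP.cast_eq_zero, add_zero]
      refine ⟨b + a ^ p, ?_, fun ht => hta ?_⟩
      · rw [mul_add, add_mul, hb, ← pow_succ', pow_succ, mul_assoc, mul_inv_cancel₀ ha0, mul_one]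
        abel
      · have h0 := ht.ne_zero
        obtain ⟨S, hS, h1, h2⟩ := finite_pair p htb ht (by
          have : b * (b + a ^ p) = (b + a ^ p) * b := by rw [mul_add, add_mul, hpb]
          rw [mul_assoc, this, ← mul_assoc, inv_mul_cancel₀ h0, one_mul]
          exact w_mem_Ts _)
        have h3 : a ^ p ∈ S := by simpa using sub_mem h2 h1
        exact Tor.of_pow hpr.one_le
          (tor_of_finite (pow_ne_zero _ ha0) hS fun n => pow_mem h3 n)
    · exact ⟨b, hb, htb⟩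
  · have : CharZero D := CharP.charP_to_charZero D
    obtain ⟨c, hc, e⟩ := dl_pow_ff ha0 hb k
    rw [hk] at e
    exact absurd (Int.cast_eq_zero.1 e.symm) hc

lemma dl_mem {C : Subfield D} {a : D} (ha : a ∈ C) {x : D} (hx : x ∈ C) : dl a x ∈ C :=
  C.sub_mem hx (C.mul_mem (C.mul_mem ha hx) (C.inv_mem ha))

lemma dl_pow_mem {C : Subfield D} {a : D} (ha : a ∈ C) (k : ℕ) {x : D} (hx : x ∈ C) :
    (dl a ^ k) x ∈ C := by
  induction k with
  | zero => exact hx
  | succ k ih => rw [dl_pow_succ]; exact dl_mem ha ih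

/-- if a power of `dl a` maps `D` into a proper division subring containing `a`, then `dl a` is
nilpotent -/
lemma leibniz {C : Subfield D} {a : D} (ha0 : a ≠ 0) (ha : a ∈ C) {y0 : D} (hy0 : y0 ∉ C) {r : ℕ}
    (hr : ∀ x, (dl a ^ r) x ∈ C) : ∀ x, (dl a ^ (r + r)) x = 0 := by
  obtain ⟨y, hy, hy'⟩ : ∃ y, y ∉ C ∧ dl a y ∈ C := by
    have h := hr y0
    clear hr
    induction r generalizing y0 with
    | zero => exact absurd h hy0
    | succ r ih =>
      by_cases h1 : dl a y0 ∈ C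
      · exact ⟨y0, hy0, h1⟩
      · exact ih h1 (by rwa [← dl_pow_succ'])
  have key : ∀ k : ℕ, ∀ x ∈ C, (dl a ^ k) (x * y) - (dl a ^ k) x * y ∈ C := by
    intro k
    induction k with
    | zero => intro x _; simp
    | succ k ih =>
      intro x hx
      have e : dl a (x * y) = dl a x * y + (a * x * a⁻¹) * dl a y := by
        simp only [dl_apply, sub_mul, mul_sub]
        simp [mul_assoc, ha0]
      rw [dl_pow_succ', dl_pow_succ', e, map_add]
      have h1 := ih _ (dl_mem ha hx)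
      have h2 := dl_pow_mem ha k
        (C.mul_mem (C.mul_mem (C.mul_mem ha hx) (C.inv_mem ha)) hy')
      convert C.add_mem h1 h2 using 1
      abel
  intro x
  rw [pow_add, end_mul_apply]
  by_contra h0
  have h1 := C.sub_mem (hr ((dl a ^ r) x * y)) (key r _ (hr x))
  rw [sub_sub_cancel] at h1
  have h2 := C.mul_mem (C.inv_mem (hr ((dl a ^ r) x))) h1
  rw [← mul_assoc, inv_mul_cancel₀ h0, one_mul] at h2
  exact hy h2

/-- a subnormal subgroup of unipotent elements is central -/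
lemma central_of_unip {N : Subgroup Dˣ} (hN : N.IsSubnormal)
    (h : ∀ a ∈ SN N, ∃ k : ℕ, ∀ x, (dl a ^ k) x = 0) : ∀ a ∈ SN N, a ∈ Subring.center D := by
  intro a ha
  by_contra ha'
  obtain ⟨k, hk⟩ := h a ha
  obtain ⟨p, hp, hc, g, hg, hg'⟩ := NU hN ha ha' hk
  have : Fact p.Prime := ⟨hp⟩
  obtain ⟨j, hj⟩ := h g hg
  exact hg' (p ^ j) (Nat.one_le_pow _ _ hp.pos) (comm_of_dl_pow p (SN.ne_zero hg) (hj a)).symm

lemma CC_core {N : Subgroup Dˣ} (hN : N.IsSubnormal) {z : D} (hz : ∀ x ∈ SN N, x * z = z * x)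
    (hz' : z ∉ Subring.center D)
    (h : ∀ a ∈ SN N, ∃ r : ℕ, ∀ x, z * (dl a ^ r) x = (dl a ^ r) x * z) :
    ∀ a ∈ SN N, a ∈ Subring.center D := by
  obtain ⟨y, hy⟩ : ∃ y, y * z ≠ z * y := by
    by_contra h
    push Not at h
    exact hz' (mem_center.2 h)
  refine central_of_unip hN fun a ha => ?_
  obtain ⟨r, hr⟩ := h a ha
  refine ⟨r + r, leibniz (C := cent {z}) (SN.ne_zero ha) ?_ (y0 := y) ?_ ?_⟩
  · rintro w rfl
    exact (hz a ha).symm
  · intro h1
    exact hy (h1 z rfl).symm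
  · rintro x w rfl
    exact hr x

/-- in a subnormal subgroup radical over the centre, unipotent elements are central -/
lemma rad_unip {N : Subgroup Dˣ} (hN : N.IsSubnormal)
    (hrad : ∀ x ∈ SN N, ∃ m : ℕ, 1 ≤ m ∧ x ^ m ∈ Subring.center D) {a : D} (ha : a ∈ SN N)
    {k : ℕ} (hk : ∀ x, (dl a ^ k) x = 0) : a ∈ Subring.center D := by
  by_contra ha'
  obtain ⟨p, -, -, g, hg, hg'⟩ := NU hN ha ha' hk
  obtain ⟨m, hm, e⟩ := hrad g hg
  exact hg' m hm (mem_center.1 e a)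

lemma rad_char {N : Subgroup Dˣ} (hN : N.IsSubnormal)
    (hrad : ∀ x ∈ SN N, ∃ m : ℕ, 1 ≤ m ∧ x ^ m ∈ Subring.center D) {a : D} (ha : a ∈ SN N)
    {l : ℕ} (hl : l.Prime) (hl0 : (l : D) = 0) (h : a ^ l ∈ Subring.center D) :
    a ∈ Subring.center D := by
  have : Fact l.Prime := ⟨hl⟩
  have : CharP D l := (CharP.charP_iff_prime_eq_zero hl).2 hl0
  refine rad_unip hN hrad ha (k := l ^ 1) fun x => ?_
  rw [dl_pow_char]
  change x - (cj a ^ (l ^ 1)) x = 0
  rw [cj_pow_apply, pow_one, ← mem_center.1 h x, mul_assoc,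
    mul_inv_cancel₀ (pow_ne_zero _ (SN.ne_zero ha)), mul_one, sub_self]

lemma rad_dl {N : Subgroup Dˣ} (hN : N.IsSubnormal)
    (hrad : ∀ x ∈ SN N, ∃ m : ℕ, 1 ≤ m ∧ x ^ m ∈ Subring.center D) {a : D} (ha : a ∈ SN N)
    {r : ℕ} (h : ∀ x y, y * (dl a ^ r) x = (dl a ^ r) x * y) : a ∈ Subring.center D :=
  rad_unip hN hrad ha (k := r + 1) fun x => by
    rw [dl_pow_succ, dl_eq_zero_iff (SN.ne_zero ha)]
    exact h x a

/-- eigenvectors of a conjugation of finite order -/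
lemma eigen {a ζ : D} (ha0 : a ≠ 0) (hc : a * ζ = ζ * a) {s : ℕ} (hs : (s : D) ≠ 0)
    (h1 : ζ ^ s = 1) (h2 : ∀ j, 0 < j → j < s → ζ ^ j ≠ 1) (h3 : a ^ s ∈ Subring.center D)
    (ha : a ∉ Subring.center D) :
    ∃ y : D, y ≠ 0 ∧ ∃ i : ℕ, ζ ^ i ≠ 1 ∧ ζ ^ i * (a * y * a⁻¹) = y := by
  by_contra hcon
  push Not at hcon
  apply ha
  rw [mem_center]
  intro x
  have hs0 : s ≠ 0 := by
    rintro rfl
    simp at hs
  let P : ℕ → D := fun i => ∑ j ∈ range s, (ζ ^ i) ^ j * (a ^ j * x * (a ^ j)⁻¹)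
  have hP : ∀ i, ζ ^ i * (a * P i * a⁻¹) = P i := by
    intro i
    have hc' : ∀ j, a * (ζ ^ i) ^ j = (ζ ^ i) ^ j * a := fun j =>
      ((Commute.pow_right (a := a) (b := ζ) hc i).pow_right j).eq
    have e1 : ζ ^ i * (a * P i * a⁻¹) =
        ∑ j ∈ range s, (ζ ^ i) ^ (j + 1) * (a ^ (j + 1) * x * (a ^ (j + 1))⁻¹) := by
      simp only [P, mul_sum, sum_mul]
      refine sum_congr rfl fun j _ => ?_
      rw [pow_succ' (ζ ^ i), pow_succ' a, mul_inv_rev, ← mul_assoc a, hc']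
      simp only [mul_assoc]
    have e2 := sum_range_succ' (fun j => (ζ ^ i) ^ j * (a ^ j * x * (a ^ j)⁻¹)) s
    rw [sum_range_succ] at e2
    have e3 : (ζ ^ i) ^ s * (a ^ s * x * (a ^ s)⁻¹) = (ζ ^ i) ^ 0 * (a ^ 0 * x * (a ^ 0)⁻¹) := by
      rw [← pow_mul, mul_comm i s, pow_mul, h1, ← mem_center.1 h3 x]
      simp [pow_ne_zero s ha0]
    rw [e1]
    rw [e3] at e2
    exact (add_right_cancel e2).symm
  have hP0 : ∀ i, 0 < i → i < s → P i = 0 := by
    intro i hi hi'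
    by_contra h0
    exact hcon _ h0 i (h2 i hi hi') (hP i)
  have hsum : ∑ i ∈ range s, P i = s * x := by
    simp only [P]
    rw [sum_comm, sum_eq_single 0]
    · simp
    · intro j hj hj0
      rw [← sum_mul]
      have e : ∑ i ∈ range s, (ζ ^ i) ^ j = ∑ i ∈ range s, (ζ ^ j) ^ i :=
        sum_congr rfl fun i _ => by rw [← pow_mul, ← pow_mul, mul_comm]
      have e' := geom_sum_mul (ζ ^ j) s
      rw [← pow_mul, mul_comm j s, pow_mul, h1, one_pow, sub_self] at e'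
      have := (mul_eq_zero.1 e').resolve_right
        (sub_ne_zero.2 (h2 j (Nat.pos_of_ne_zero hj0) (mem_range.1 hj)))
      rw [e, this, zero_mul]
    · intro h
      exact absurd (mem_range.2 (Nat.pos_of_ne_zero hs0)) h
  rw [sum_eq_single 0 (fun i hi hi0 => hP0 i (Nat.pos_of_ne_zero hi0) (mem_range.1 hi))
    (fun h => absurd (mem_range.2 (Nat.pos_of_ne_zero hs0)) h)] at hsum
  have h4 := hP 0
  rw [hsum, pow_zero, one_mul, ← mul_assoc, ← (Nat.cast_commute s a).eq, mul_assoc, mul_assoc]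
    at h4
  have h5 := mul_left_cancel₀ hs h4
  calc x * a = a * (x * a⁻¹) * a := by rw [h5]
    _ = a * x := by simp [mul_assoc, ha0]

/-- Herstein's lemma: a noncentral torsion element in characteristic `p` -/
lemma herstein_lemma (p : ℕ) [Fact p.Prime] [CharP D p] {m : D} (hm : Tor m)
    (hm' : m ∉ Subring.center D) :
    ∃ y : D, y ≠ 0 ∧ ¬ Tor y ∧ y * m ≠ m * y ∧ (∃ i : ℕ, y * m * y⁻¹ = m ^ i) ∧
      ∃ j : ℕ, 1 ≤ j ∧ y ^ j * m = m * y ^ j := by
  have hm0 := hm.ne_zero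
  have hfin : IsOfFinOrder m := by
    obtain ⟨s, hs, e⟩ := hm
    exact isOfFinOrder_iff_pow_eq_one.2 ⟨s, hs, e⟩
  have hpos := hfin.orderOf_pos
  have hs : ((orderOf m : ℕ) : D) ≠ 0 := by
    intro h0
    obtain ⟨c, hc⟩ := (CharP.cast_eq_zero_iff D p _).1 h0
    have hc0 : 0 < c := by
      rcases Nat.eq_zero_or_pos c with rfl | h
      · omega
      · exact h
    have h1 : (m ^ c - 1) ^ p = 0 := by
      rw [sub_pow_char_of_commute p (Commute.one_right _), one_pow, ← pow_mul, mul_comm, ← hc,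
        pow_orderOf_eq_one, sub_self]
    have h2 : m ^ c = 1 := sub_eq_zero.1 (pow_eq_zero_iff (Fact.out : p.Prime).ne_zero |>.1 h1)
    refine pow_ne_one_of_lt_orderOf hc0.ne' ?_ h2
    rw [hc]
    have := (Fact.out : p.Prime).one_lt
    nlinarith
  obtain ⟨y, hy0, i, hi, e⟩ := eigen hm0 rfl hs (pow_orderOf_eq_one m)
    (fun j hj hj' => pow_ne_one_of_lt_orderOf hj.ne' hj')
    (by rw [pow_orderOf_eq_one]; exact one_mem _) hm'
  have e1 : y * m = m ^ (i + 1) * y := by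
    calc y * m = m ^ i * (m * y * m⁻¹) * m := by rw [e]
      _ = _ := by simp [mul_assoc, hm0, pow_succ]
  have hne : y * m ≠ m * y := by
    intro h
    rw [h, pow_succ] at e1
    have := mul_right_cancel₀ hy0 e1
    exact hi (mul_right_cancel₀ hm0 (by rw [one_mul]; exact this.symm))
  have e2 : ∀ j : ℕ, y ^ j * m * (y ^ j)⁻¹ = m ^ ((i + 1) ^ j) := by
    intro j
    induction j with
    | zero => simp
    | succ j ih =>
      have : y ^ (j + 1) * m * (y ^ (j + 1))⁻¹ = cjr (pow_ne_zero j hy0) (y * m * y⁻¹) := by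
        rw [cjr_apply, pow_succ, mul_inv_rev]
        simp only [mul_assoc]
      rw [this, e1, mul_assoc, mul_inv_cancel₀ hy0, mul_one, map_pow, cjr_apply, ih, ← pow_mul,
        ← pow_succ]
  refine ⟨y, hy0, fun ht => ?_, hne, ⟨_, by simpa using e2 1⟩, ?_⟩
  · have ht' : Tor y⁻¹ := by
      obtain ⟨s, hs, e⟩ := ht
      exact ⟨s, hs, by rw [inv_pow, e, inv_one]⟩
    obtain ⟨S, hS, h1, h2⟩ := finite_pair p hm ht' (by
      rw [inv_inv, e1, mul_assoc, mul_inv_cancel₀ hy0, mul_one]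
      exact pow_mem (w_mem_Ts _) _)
    have := comm_of_finite hS h1 h2
    exact hne (by simpa using (Commute.inv_right₀ (a := m) (b := y⁻¹) this).symm.eq)
  · obtain ⟨j, k, hjk, e3⟩ := Set.Finite.exists_lt_map_eq_of_forall_mem
      (f := fun j : ℕ => y ^ j * m * (y ^ j)⁻¹) (t := (Submonoid.powers m : Set D))
      (fun j => ⟨_, (e2 j).symm⟩) hfin.finite_powers
    obtain ⟨l, rfl⟩ := Nat.exists_eq_add_of_lt hjk
    refine ⟨l + 1, by omega, ?_⟩
    have hj := pow_ne_zero j hy0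
    have hl := pow_ne_zero (l + 1) hy0
    rw [add_assoc, pow_add, mul_inv_rev, ← mul_assoc, mul_assoc (y ^ j) (y ^ (l + 1)),
      mul_assoc (y ^ j) _ (y ^ (l + 1))⁻¹] at e3
    have e4 := mul_left_cancel₀ hj (mul_right_cancel₀ (inv_ne_zero hj) e3)
    calc y ^ (l + 1) * m = y ^ (l + 1) * m * (y ^ (l + 1))⁻¹ * y ^ (l + 1) := by simp [hl]
      _ = _ := by rw [← e4]

end Pool.Agent.Work.MP_b4cb8e_al
end

-- merged part: Pool.Agent.Work.MP_b4cb8e_al.Rat
section
set_option autoImplicit false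

namespace Pool.Agent.Work.MP_b4cb8e_al

open Polynomial Filter

universe u

variable {D : Type u} [DivisionRing D]

/-- evaluation at a central element -/
noncomputable def ev (t : Subring.center D) : D[X] →+* D :=
  eval₂RingHom' (RingHom.id D) (t : D) fun a => mem_center.1 t.2 a

lemma ev_C (t : Subring.center D) (c : D) : ev t (C c) = c := by
  simp [ev, eval₂RingHom']

lemma ev_X (t : Subring.center D) : ev t X = t := by
  simp [ev, eval₂RingHom']

lemma ev_eq (t : Subring.center D) (f : D[X]) :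
    ev t f = ∑ i ∈ Finset.range (f.natDegree + 1), t ^ i • f.coeff i := by
  have : ev t f = eval₂ (RingHom.id D) (t : D) f := rfl
  rw [this, eval₂_eq_sum_range]
  refine Finset.sum_congr rfl fun i _ => ?_
  have h := mem_center.1 (t ^ i).2 (f.coeff i)
  exact h

lemma eq_zero_of_freq {f : D[X]} (h : ∃ᶠ t in cofinite, ev (D := D) t f = 0) : f = 0 := by
  ext n
  rw [coeff_zero, ← Module.forall_dual_apply_eq_zero_iff (Subring.center D)]
  intro φ
  let q : (Subring.center D)[X] :=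
    ∑ i ∈ Finset.range (f.natDegree + 1), monomial i (φ (f.coeff i))
  have hq : q = 0 := by
    apply eq_zero_of_infinite_isRoot
    refine (frequently_cofinite_iff_infinite.1 h).mono fun t ht => ?_
    have h1 := congrArg φ (show ev t f = 0 from ht)
    rw [ev_eq, map_sum, map_zero] at h1
    simp only [Set.mem_ofPred_eq, IsRoot.def, q, eval_finsetSum, eval_monomial]
    rw [← h1]
    exact Finset.sum_congr rfl fun i _ => by rw [map_smul, smul_eq_mul, mul_comm]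
  by_cases hn : n ≤ f.natDegree
  · have := congrArg (fun p => coeff p n) hq
    simp only [q, finsetSum_coeff, coeff_monomial, coeff_zero] at this
    rw [Finset.sum_ite_eq' , if_pos (Finset.mem_range.2 (by omega))] at this
    exact this
  · rw [coeff_eq_zero_of_natDegree_lt (by omega), map_zero]

lemma ev_ne_zero {f : D[X]} (h : f ≠ 0) : ∀ᶠ t in cofinite, ev (D := D) t f ≠ 0 := by
  by_contra hc
  exact h (eq_zero_of_freq (by simpa [Filter.Frequently] using hc))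

lemma poly_ore (q : D[X]) (hq : q.coeff 0 ≠ 0) (p : D[X]) :
    ∃ p' q' : D[X], q'.coeff 0 ≠ 0 ∧ p * q' = q * p' := by
  let H : Subring D[X] := (C : D →+* D[X]).range
  have hw : Nr H X := by
    rintro _ ⟨c, rfl⟩
    exact ⟨C c, ⟨c, rfl⟩, (X_mul (p := C c)).symm⟩
  have hw' : Nl H X := by
    rintro _ ⟨c, rfl⟩
    exact ⟨C c, ⟨c, rfl⟩, X_mul (p := C c)⟩
  have hT : ∀ f : D[X], f ∈ Ts hw := by
    intro f
    induction f using Polynomial.induction_on' with
    | add p q hp hq => exact add_mem hp hq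
    | monomial n c =>
      rw [← C_mul_X_pow_eq_monomial]
      exact mul_mem (H_le_Ts hw ⟨c, rfl⟩) (pow_mem (w_mem_Ts hw) n)
  have hP : ∀ f : D[X], Tp hw f ↔ f.coeff 0 = 0 := by
    intro f
    rw [← X_dvd_iff]
    exact ⟨fun ⟨t, _, e⟩ => ⟨t, e⟩, fun ⟨t, e⟩ => ⟨t, hT t, e⟩⟩
  obtain ⟨p', -, q', -, h, e⟩ := ore' (hw := hw) hw' X_ne_zero (by
      rintro _ ⟨c, rfl⟩ hc
      have hc0 : c ≠ 0 := by
        rintro rfl
        exact hc (map_zero _)
      exact ⟨C c⁻¹, ⟨_, rfl⟩, by rw [← map_mul, mul_inv_cancel₀ hc0, map_one]⟩) (by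
      rintro _ ⟨c, rfl⟩ hc
      rw [hP, coeff_C_zero] at hc
      rw [hc, map_zero]) (hT q) (by rwa [hP]) (hT p)
  exact ⟨p', q', by rwa [hP] at h, e⟩

/-- `φ` is a rational function of a central variable with first order jet `(a, b)` at `0` -/
def Rt (φ : Subring.center D → D) (a b : D) : Prop :=
  ∃ f g : D[X], g.coeff 0 ≠ 0 ∧ (∀ᶠ t in cofinite, φ t * ev t g = ev t f) ∧
    a * g.coeff 0 = f.coeff 0 ∧ a * g.coeff 1 + b * g.coeff 0 = f.coeff 1

lemma Rt.const (c : D) : Rt (fun _ => c) c 0 :=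
  ⟨C c, 1, by simp, Eventually.of_forall fun t => by simp [ev_C], by simp, by
    simp [coeff_one]⟩

lemma Rt.lin (x : D) : Rt (fun t => 1 + (t : D) * x) 1 x :=
  ⟨1 + X * C x, 1, by simp, Eventually.of_forall fun t => by
    rw [map_one, mul_one, map_add, map_one, map_mul, ev_C, ev_X], by simp, by
    simp [coeff_one]⟩

lemma Rt.mul {φ ψ : Subring.center D → D} {a b c d : D} (h1 : Rt φ a b) (h2 : Rt ψ c d) :
    Rt (fun t => φ t * ψ t) (a * c) (a * d + b * c) := by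
  obtain ⟨f1, g1, hg1, e1, a1, b1⟩ := h1
  obtain ⟨f2, g2, hg2, e2, a2, b2⟩ := h2
  obtain ⟨h1, h2, hh, e⟩ := poly_ore g1 hg1 f2
  have c0 := congrArg (fun p => coeff p 0) e
  have c1 := congrArg (fun p => coeff p 1) e
  simp only [mul_coeff_zero, mul_coeff_one] at c0 c1
  refine ⟨f1 * h1, g2 * h2, by simp [hg2, hh], ?_, ?_, ?_⟩
  · filter_upwards [e1, e2] with t ht1 ht2
    rw [map_mul, map_mul, ← ht1, mul_assoc, ← mul_assoc (ψ t), ht2, ← map_mul, e, map_mul,
      mul_assoc]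
  · rw [mul_coeff_zero, mul_coeff_zero, ← a1, mul_assoc, ← mul_assoc c, a2, c0, mul_assoc]
  · rw [mul_coeff_zero, mul_coeff_one, mul_coeff_one, ← a1, ← b1]
    rw [← a2, ← b2] at c1
    rw [← a2] at c0
    calc _ = a * (c * g2.coeff 0 * h2.coeff 1 + (c * g2.coeff 1 + d * g2.coeff 0) * h2.coeff 0)
          + b * (c * g2.coeff 0 * h2.coeff 0) := by noncomm_ring
      _ = _ := by rw [c1, c0]; noncomm_ring

lemma Rt.sub {φ ψ : Subring.center D → D} {a b c d : D} (h1 : Rt φ a b) (h2 : Rt ψ c d) :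
    Rt (fun t => φ t - ψ t) (a - c) (b - d) := by
  obtain ⟨f1, g1, hg1, e1, a1, b1⟩ := h1
  obtain ⟨f2, g2, hg2, e2, a2, b2⟩ := h2
  obtain ⟨h1, h2, hh, e⟩ := poly_ore g1 hg1 g2
  have c0 := congrArg (fun p => coeff p 0) e
  have c1 := congrArg (fun p => coeff p 1) e
  simp only [mul_coeff_zero, mul_coeff_one] at c0 c1
  refine ⟨f1 * h1 - f2 * h2, g2 * h2, by simp [hg2, hh], ?_, ?_, ?_⟩
  · filter_upwards [e1, e2] with t ht1 ht2
    rw [map_sub, map_mul _ f1, map_mul _ f2, ← ht1, ← ht2, sub_mul, mul_assoc, mul_assoc,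
      ← map_mul, ← map_mul, e]
  · rw [coeff_sub, mul_coeff_zero, mul_coeff_zero, mul_coeff_zero, ← a1, ← a2, sub_mul, mul_assoc,
      mul_assoc, c0]
  · rw [coeff_sub, mul_coeff_zero, mul_coeff_one, mul_coeff_one, mul_coeff_one, ← a1, ← b1, ← a2,
      ← b2]
    calc _ = a * (g2.coeff 0 * h2.coeff 1 + g2.coeff 1 * h2.coeff 0)
          + b * (g2.coeff 0 * h2.coeff 0) - (c * g2.coeff 0 * h2.coeff 1 +
            (c * g2.coeff 1 + d * g2.coeff 0) * h2.coeff 0) := by noncomm_ring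
      _ = _ := by rw [c1, c0]; noncomm_ring

lemma Rt.inv {φ : Subring.center D → D} {b : D} (h : Rt φ 1 b) :
    Rt (fun t => (φ t)⁻¹) 1 (-b) := by
  obtain ⟨f, g, hg, e, a1, b1⟩ := h
  rw [one_mul] at a1 b1
  have hf : f.coeff 0 ≠ 0 := a1 ▸ hg
  refine ⟨g, f, hf, ?_, by rw [one_mul, a1], ?_⟩
  · have hf0 : f ≠ 0 := by
      rintro rfl
      simp at hf
    filter_upwards [e, ev_ne_zero hf0] with t ht ht'
    have : φ t ≠ 0 := by
      intro h0
      rw [h0, zero_mul] at ht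
      exact ht' ht.symm
    rw [← ht, ← mul_assoc, inv_mul_cancel₀ this, one_mul]
  · rw [← b1, ← a1]
    noncomm_ring

lemma Rt.congr {φ : Subring.center D → D} {a b a' b' : D} (h : Rt φ a b) (ha : a = a')
    (hb : b = b') : Rt φ a' b' := ha ▸ hb ▸ h

lemma Rt.eq_zero {φ : Subring.center D → D} {a b : D} (h : Rt φ a b)
    (h0 : ∃ᶠ t in cofinite, φ t = 0) : b = 0 := by
  obtain ⟨f, g, hg, e, a1, b1⟩ := h
  have hf : f = 0 := eq_zero_of_freq ((h0.and_eventually e).mono fun t ht => by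
    rw [← ht.2, ht.1, zero_mul])
  rw [hf, coeff_zero] at a1 b1
  rw [(mul_eq_zero.1 a1).resolve_right hg, zero_mul, zero_add] at b1
  exact (mul_eq_zero.1 b1).resolve_right hg

lemma Rt.ds {a : D} (ha : a ≠ 0) (x : D) (k : ℕ) :
    Rt (fun t => ds a (1 + (t : D) * x) k) 1 ((dl a ^ k) x) := by
  induction k with
  | zero => exact Rt.lin x
  | succ k ih =>
    refine (ih.mul (((Rt.const a).mul ih.inv).mul (Rt.const a⁻¹))).congr (by simp [ha]) ?_
    rw [dl_pow_succ, dl_apply]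
    simp [ha]
    abel

lemma Rt.pow {φ : Subring.center D → D} {b : D} (h : Rt φ 1 b) (n : ℕ) :
    Rt (fun t => φ t ^ n) 1 (n * b) := by
  induction n with
  | zero => simpa using Rt.const (1 : D)
  | succ n ih =>
    simp only [pow_succ]
    exact (ih.mul h).congr (by simp) (by simp [add_mul, add_comm])

lemma Rt.comm {φ : Subring.center D → D} {b : D} (h : Rt φ 1 b) {z : D}
    (h0 : ∃ᶠ t in cofinite, z * φ t = φ t * z) : z * b = b * z := by
  have := (((Rt.const z).mul h).sub (h.mul (Rt.const z))).eq_zero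
    (h0.mono fun t ht => sub_eq_zero.2 ht)
  rw [← sub_eq_zero, ← this]
  simp

lemma lin_ne_zero (x : D) : ∀ᶠ t : Subring.center D in cofinite, 1 + (t : D) * x ≠ 0 := by
  have h : (1 + X * C x : D[X]) ≠ 0 := by
    intro h
    simpa using congrArg (fun p => coeff p 0) h
  filter_upwards [ev_ne_zero h] with t ht
  rwa [map_add, map_one, map_mul, ev_C, ev_X] at ht

/-- centralizer theorem for infinite centre -/
theorem CC_of_infinite [Infinite (Subring.center D)] : CC D := by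
  intro N hN z hz hz'
  obtain ⟨r, hr⟩ := absorb hN
  refine CC_core hN hz hz' fun a ha => ⟨r, fun x => ?_⟩
  refine (Rt.ds (SN.ne_zero ha) x r).comm (Eventually.frequently ?_)
  filter_upwards [lin_ne_zero x] with t ht
  exact (hz _ (hr a ha _ ht)).symm

lemma rad_coprime {N : Subgroup Dˣ} (hN : N.IsSubnormal)
    (hrad : ∀ x ∈ SN N, ∃ m : ℕ, 1 ≤ m ∧ x ^ m ∈ Subring.center D) {a : D} (ha : a ∈ SN N) :
    ∃ m : ℕ, (m : D) ≠ 0 ∧ a ^ m ∈ Subring.center D := by
  obtain ⟨m, hm, h⟩ := hrad a ha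
  induction m using Nat.strong_induction_on with
  | _ m ih =>
    by_cases h0 : (m : D) = 0
    · obtain ⟨p, hp⟩ := CharP.exists D
      obtain ⟨c, rfl⟩ := (CharP.cast_eq_zero_iff D p m).1 h0
      have hc : 1 ≤ c := by
        rcases Nat.eq_zero_or_pos c with rfl | h
        · simp at hm
        · exact h
      have hpr : p.Prime := (CharP.char_is_prime_or_zero D p).resolve_right (by
        rintro rfl
        simp at hm)
      refine ih c (by have := hpr.one_lt; nlinarith) hc ?_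
      exact rad_char hN hrad (SN.pow ha c) hpr (CharP.cast_eq_zero D p)
        (by rwa [← pow_mul, mul_comm])
    · exact ⟨m, h0, h⟩

/-- Herstein's theorem for uncountable centre -/
theorem HC_of_uncountable [Uncountable (Subring.center D)] : HC D := by
  intro N hN hrad a ha
  obtain ⟨r, hr⟩ := absorb hN
  refine rad_dl hN hrad ha (r := r) fun x y => ?_
  obtain ⟨n, hn, hinf⟩ : ∃ n : ℕ, (n : D) ≠ 0 ∧ {t : Subring.center D |
      ds a (1 + (t : D) * x) r ^ n ∈ Subring.center D}.Infinite := by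
    by_contra hcon
    push Not at hcon
    have h1 : (⋃ n : {n : ℕ // (n : D) ≠ 0}, {t : Subring.center D |
        ds a (1 + (t : D) * x) r ^ (n : ℕ) ∈ Subring.center D}).Countable :=
      Set.countable_iUnion fun n => (hcon n n.2).countable
    have h2 : {t : Subring.center D | ¬ (1 + (t : D) * x ≠ 0)}.Finite := lin_ne_zero x
    refine Set.not_countable_univ ((h1.union h2.countable).mono fun t _ => ?_)
    by_cases ht : 1 + (t : D) * x ≠ 0
    · obtain ⟨m, hm, h⟩ := rad_coprime hN hrad (hr a ha _ ht)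
      exact Or.inl (Set.mem_iUnion.2 ⟨⟨m, hm⟩, h⟩)
    · exact Or.inr ht
  have := ((Rt.ds (SN.ne_zero ha) x r).pow n).comm (z := y)
    ((frequently_cofinite_iff_infinite.2 hinf).mono fun t ht => mem_center.1 ht y)
  apply mul_left_cancel₀ hn
  rw [← mul_assoc, (Nat.cast_commute n y).eq, mul_assoc, this, mul_assoc]

end Pool.Agent.Work.MP_b4cb8e_al
end
end

-- merged part: Pool.Agent.Work.MP_b4cb8e_al.Good
section
-- merged part: Pool.Agent.Work.MP_b4cb8e_al.Norm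
section
set_option autoImplicit false

namespace Pool.Agent.Work.MP_b4cb8e_al

universe u

variable {D : Type u} [DivisionRing D]

lemma jets {a : D} (ha : a ≠ 0) (O : Set D) (I J : ℕ → AddSubgroup D) (r : ℕ) (x : D)
    (hx : x ∈ I 0)
    (hI : ∀ k < r, ∀ e ∈ I k, e ∈ I (k + 1) ∧ a * e * a⁻¹ ∈ I (k + 1))
    (hJ : ∀ k < r, ∀ e ∈ J k, e ∈ J (k + 1) ∧ a * e * a⁻¹ ∈ J (k + 1))
    (hinv : ∀ k ≤ r, ∀ e ∈ I k, 1 + e ≠ 0 ∧ (1 + e)⁻¹ ∈ O)
    (hIO : ∀ k, ∀ e ∈ I k, ∀ o ∈ O, e * o ∈ I k)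
    (hII : ∀ k, ∀ e ∈ I k, ∀ e' ∈ I k, ∀ o ∈ O, e * e' * o ∈ J k) :
    ∀ k ≤ r, ds a (1 + x) k - 1 ∈ I k ∧ ds a (1 + x) k - 1 - (dl a ^ k) x ∈ J k := by
  intro k
  induction k with
  | zero =>
    intro _
    refine ⟨by simpa [ds] using hx, ?_⟩
    have : ds a (1 + x) 0 - 1 - (dl a ^ 0) x = 0 := by simp [ds]
    rw [this]
    exact zero_mem _
  | succ k ih =>
    intro hk
    obtain ⟨h1, h2⟩ := ih (by omega)
    obtain ⟨e, he⟩ : ∃ e, ds a (1 + x) k = 1 + e := ⟨ds a (1 + x) k - 1, by abel⟩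
    rw [he, add_sub_cancel_left] at h1 h2
    obtain ⟨h3, h4⟩ := hI k (by omega) e h1
    obtain ⟨h5, h6⟩ := hJ k (by omega) _ h2
    obtain ⟨h7, h8⟩ := hinv (k + 1) hk _ h4
    have e1 : a * (1 + e)⁻¹ * a⁻¹ = (1 + a * e * a⁻¹)⁻¹ := by
      have : 1 + a * e * a⁻¹ = a * (1 + e) * a⁻¹ := by simp [mul_add, add_mul, ha]
      rw [this, mul_inv_rev, mul_inv_rev, inv_inv, mul_assoc]
    rw [ds, he, e1, dl_pow_succ, dl_apply]
    set s := a * e * a⁻¹ with hs
    set v := (1 + s)⁻¹ with hv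
    have e2 : (1 + s) * v = 1 := mul_inv_cancel₀ h7
    have e3 : (1 + e) * v - 1 = (e - s) * v := by
      nth_rewrite 2 [← e2]
      noncomm_ring
    have e4 : v = 1 - s * v := by
      nth_rewrite 1 [← e2]
      noncomm_ring
    rw [e3]
    refine ⟨hIO _ _ (sub_mem h3 h4) _ h8, ?_⟩
    have h9 := sub_mem (sub_mem h5 h6) (hII _ _ (sub_mem h3 h4) _ h4 _ h8)
    convert h9 using 1
    nth_rewrite 1 [e4]
    rw [mul_sub a, sub_mul (a * e), ← hs]
    noncomm_ring

/-- generalized linear maps -/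
def LL (l : List (D × D)) (x : D) : D := (l.map fun p => p.1 * x * p.2).sum

/-- being a generalized linear map -/
def GL' (L : D → D) : Prop := ∃ l : List (D × D), ∀ x, L x = LL l x

lemma LL_nil (x : D) : LL [] x = 0 := rfl

lemma LL_cons (p : D × D) (l : List (D × D)) (x : D) :
    LL (p :: l) x = p.1 * x * p.2 + LL l x := by simp [LL]

lemma GL'.id : GL' (fun x : D => x) := ⟨[(1, 1)], fun x => by simp [LL]⟩

lemma GL'.mul {L : D → D} (h : GL' L) (a b : D) : GL' (fun x => a * L x * b) := by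
  obtain ⟨l, h⟩ := h
  refine ⟨l.map fun p => (a * p.1, p.2 * b), fun x => ?_⟩
  dsimp only
  rw [h]
  clear h
  induction l with
  | nil => simp [LL]
  | cons p l ih =>
    rw [LL_cons, List.map_cons, LL_cons, ← ih, mul_add, add_mul]
    simp only [mul_assoc]

lemma GL'.sub {L M : D → D} (h : GL' L) (h' : GL' M) : GL' (fun x => L x - M x) := by
  obtain ⟨l, h⟩ := h
  obtain ⟨m, h'⟩ := h'.mul (-1) 1
  refine ⟨l ++ m, fun x => ?_⟩
  have := h' x
  simp only [LL, List.map_append, List.sum_append] at h this ⊢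
  rw [← this, h]
  simp [sub_eq_add_neg]

lemma GL'.dl (a : D) (k : ℕ) : GL' (fun x => (dl a ^ k) x) := by
  induction k with
  | zero => exact GL'.id
  | succ k ih =>
    simp only [dl_pow_succ, dl_apply]
    exact ih.sub (ih.mul a a⁻¹)

lemma LL_step (l : List (D × D)) (d e x : D) :
    LL (l.map fun p => (p.1, d * p.2 - p.2 * e)) x = LL l (x * d) - LL l x * e := by
  induction l with
  | nil => simp [LL]
  | cons p l ih =>
    rw [List.map_cons, LL_cons, ih, LL_cons, LL_cons]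
    noncomm_ring

variable {Γ : Type*} [LinearOrderedCommGroupWithZero Γ]

/-- a nondiscrete ultrametric submultiplicative norm -/
structure IsNm (n : D → Γ) : Prop where
  eq_zero : ∀ x, n x = 0 → x = 0
  zero : n 0 = 0
  add_le : ∀ x y, n (x + y) ≤ max (n x) (n y)
  neg : ∀ x, n (-x) = n x
  mul_le : ∀ x y, n (x * y) ≤ n x * n y
  one_le : n 1 ≤ 1
  prod : ∀ x y, ∃ z, n x * n y ≤ n z
  small : ∀ c, ∃ x, x ≠ 0 ∧ n x * n c < 1
  primes : ∃ c, ∀ l : ℕ, l.Prime → (l : D) ≠ 0 → n (l : D)⁻¹ ≤ n c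

namespace IsNm

variable {n : D → Γ} (h : IsNm n)
include h

/-- closed balls -/
def ball (ε : Γ) : AddSubgroup D where
  carrier := {x | n x ≤ ε}
  zero_mem' := by simp [h.zero]
  add_mem' := fun {x y} hx hy => (h.add_le x y).trans (max_le hx hy)
  neg_mem' := fun {x} hx => (h.neg x).trans_le hx

lemma mem_ball {ε : Γ} {x : D} : x ∈ h.ball ε ↔ n x ≤ ε := Iff.rfl

lemma pos {x : D} (hx : x ≠ 0) : 0 < n x := zero_lt_iff.2 fun h0 => hx (h.eq_zero x h0)

lemma one : n 1 = 1 := by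
  refine le_antisymm h.one_le ?_
  have h1 := h.mul_le 1 1
  rw [mul_one] at h1
  exact (le_mul_iff_one_le_right (h.pos one_ne_zero)).1 h1

lemma sub_le {x y : D} {ε : Γ} (hx : n x ≤ ε) (hy : n y ≤ ε) : n (x - y) ≤ ε :=
  sub_mem (H := h.ball ε) hx hy

lemma mul_le' {x y : D} {α β : Γ} (hx : n x ≤ α) (hy : n y ≤ β) : n (x * y) ≤ α * β :=
  (h.mul_le x y).trans (mul_le_mul' hx hy)

lemma inv_le {e : D} (he : n e < 1) : 1 + e ≠ 0 ∧ n (1 + e)⁻¹ ≤ 1 := by
  have h0 : 1 + e ≠ 0 := by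
    intro h0
    have : e = -1 := eq_neg_of_add_eq_zero_right h0
    rw [this, h.neg, h.one] at he
    exact lt_irrefl _ he
  refine ⟨h0, ?_⟩
  by_contra hc
  push Not at hc
  have e1 : (1 + e)⁻¹ = 1 + -((1 + e)⁻¹ * e) := by
    nth_rewrite 2 [← inv_mul_cancel₀ h0]
    noncomm_ring
  have h1 := h.add_le 1 (-((1 + e)⁻¹ * e))
  rw [← e1, h.one, h.neg] at h1
  rcases le_max_iff.1 h1 with h2 | h2
  · exact absurd h2 (not_le.2 hc)
  · have h3 := h2.trans (h.mul_le _ _)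
    have h4 := (le_mul_iff_one_le_right (h.pos (inv_ne_zero h0))).1 h3
    exact absurd h4 (not_le.2 he)

omit h in
/-- bounded constants -/
def Bdd (n : D → Γ) (γ : Γ) : Prop := ∃ c, γ ≤ n c

omit h [DivisionRing D] in
lemma bdd (x : D) : Bdd n (n x) := ⟨x, le_rfl⟩

lemma bdd_mul {α β : Γ} (ha : Bdd n α) (hb : Bdd n β) : Bdd n (α * β) := by
  obtain ⟨a, ha⟩ := ha
  obtain ⟨b, hb⟩ := hb
  obtain ⟨z, hz⟩ := h.prod a b
  exact ⟨z, (mul_le_mul' ha hb).trans hz⟩

omit h [DivisionRing D] in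
lemma bdd_max {α β : Γ} (ha : Bdd n α) (hb : Bdd n β) : Bdd n (max α β) := by
  rcases le_total α β with h1 | h1
  · rwa [max_eq_right h1]
  · rwa [max_eq_left h1]

lemma bdd_pow {α : Γ} (ha : Bdd n α) (k : ℕ) : Bdd n (α ^ k) := by
  induction k with
  | zero => exact ⟨1, by rw [pow_zero, h.one]⟩
  | succ k ih => rw [pow_succ]; exact h.bdd_mul ih ha

lemma vanish (m : ℕ) : ∀ l : List (D × D), l.length ≤ m → ∀ γ C : Γ, Bdd n γ → Bdd n C →
    (∀ x, n x * γ < 1 → n (LL l x) ≤ C * n x ^ 2) → ∀ x, LL l x = 0 := by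
  induction m with
  | zero =>
    intro l hl _ _ _ _ _ x
    rw [List.length_eq_zero_iff.1 (Nat.le_zero.1 hl), LL_nil]
  | succ m ih =>
    intro l hl γ C hγ hC hb
    rcases l with _ | ⟨⟨α, β⟩, l⟩
    · intro x
      exact LL_nil x
    have hl' : l.length ≤ m := by simpa using hl
    by_cases hβ : β = 0
    · have e : ∀ x, LL ((α, β) :: l) x = LL l x := fun x => by simp [LL_cons, hβ]
      simp only [e] at hb ⊢
      exact ih l hl' γ C hγ hC hb
    have key : ∀ d x, LL ((α, β) :: l) (x * d) = LL ((α, β) :: l) x * (β⁻¹ * d * β) := by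
      intro d x
      have e : ∀ x, LL (l.map fun p => (p.1, d * p.2 - p.2 * (β⁻¹ * d * β))) x =
          LL ((α, β) :: l) (x * d) - LL ((α, β) :: l) x * (β⁻¹ * d * β) := by
        intro x
        rw [LL_step, LL_cons, LL_cons, add_mul]
        simp [mul_assoc, hβ]
      rw [← sub_eq_zero, ← e]
      refine ih _ (by simpa using hl') (max γ (n d * γ))
        (max (C * n d ^ 2) (C * n (β⁻¹ * d * β))) (bdd_max hγ (h.bdd_mul (bdd d) hγ))
        (bdd_max (h.bdd_mul hC (h.bdd_pow (bdd d) 2)) (h.bdd_mul hC (bdd _))) (fun y hy => ?_) x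
      rw [e]
      have hy1 : n y * γ < 1 := (mul_le_mul_right (le_max_left _ _) _).trans_lt hy
      have hy2 : n (y * d) * γ < 1 := by
        refine lt_of_le_of_lt ?_ ((mul_le_mul_right (le_max_right _ _) _).trans_lt hy)
        rw [← mul_assoc]
        exact mul_le_mul_left (h.mul_le y d) _
      refine h.sub_le ((hb _ hy2).trans ?_) ((h.mul_le' (hb _ hy1) le_rfl).trans ?_)
      · calc C * n (y * d) ^ 2 ≤ C * (n y * n d) ^ 2 :=
              mul_le_mul_right (pow_le_pow_left' (h.mul_le y d) 2) _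
          _ = C * n d ^ 2 * n y ^ 2 := by rw [mul_pow, mul_comm (n y ^ 2), mul_assoc]
          _ ≤ _ := mul_le_mul_left (le_max_left _ _) _
      · rw [mul_right_comm]
        exact mul_le_mul_left (le_max_right _ _) _
    have h1 : LL ((α, β) :: l) 1 = 0 := by
      by_contra h1
      set u := LL ((α, β) :: l) 1
      obtain ⟨c, hc⟩ := bdd_max hγ (h.bdd_mul (h.bdd_mul (h.bdd_mul (bdd β) (bdd u⁻¹)) hC)
        (bdd β⁻¹))
      obtain ⟨d, hd0, hd⟩ := h.small c
      have hd' := (mul_le_mul_right hc _).trans_lt hd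
      have h2 := hb d ((mul_le_mul_right (le_max_left _ _) _).trans_lt hd')
      have h3 := key d 1
      rw [one_mul] at h3
      have h4 : d = β * u⁻¹ * LL ((α, β) :: l) d * β⁻¹ := by
        rw [h3]
        simp [mul_assoc, hβ, h1, u]
      have h5 : n d ≤ n β * n u⁻¹ * (C * n d ^ 2) * n β⁻¹ := by
        nth_rewrite 1 [h4]
        exact h.mul_le' (h.mul_le' (h.mul_le _ _) h2) le_rfl
      have h6 : n β * n u⁻¹ * (C * n d ^ 2) * n β⁻¹ =
          n d * (n d * (n β * n u⁻¹ * C * n β⁻¹)) := by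
        rw [sq]
        ac_rfl
      rw [h6] at h5
      have h7 := (le_mul_iff_one_le_right (h.pos hd0)).1 h5
      exact absurd ((mul_le_mul_right (le_max_right _ _) _).trans_lt hd') (not_lt.2 h7)
    intro x
    have := key x 1
    rwa [one_mul, h1, zero_mul] at this

lemma jets_norm {a : D} (ha : a ≠ 0) (r : ℕ) {x : D} (hx : n x * (n a * n a⁻¹) ^ r < 1) :
    n (ds a (1 + x) r - 1) ≤ n x * (n a * n a⁻¹) ^ r ∧
      n (ds a (1 + x) r - 1 - (dl a ^ r) x) ≤ (n x * (n a * n a⁻¹) ^ r) ^ 2 := by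
  set A := n a * n a⁻¹ with hA
  have hA1 : 1 ≤ A := by
    have := h.mul_le a a⁻¹
    rwa [mul_inv_cancel₀ ha, h.one] at this
  have hc : ∀ (e : D) (ε : Γ), n e ≤ ε → n (a * e * a⁻¹) ≤ ε * A := by
    intro e ε he
    refine (h.mul_le' (h.mul_le' le_rfl he) le_rfl).trans_eq ?_
    rw [hA]
    ac_rfl
  refine jets ha {o | n o ≤ 1} (fun k => h.ball (n x * A ^ k)) (fun k => h.ball ((n x * A ^ k) ^ 2))
    r x (by simp [mem_ball]) ?_ ?_ ?_ ?_ ?_ r le_rfl
  · intro k _ e he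
    simp only [mem_ball] at he ⊢
    rw [pow_succ, ← mul_assoc]
    exact ⟨he.trans (le_mul_of_one_le_right' hA1), hc e _ he⟩
  · intro k _ e he
    simp only [mem_ball] at he ⊢
    rw [pow_succ A, ← mul_assoc, mul_pow _ A]
    have h2 : A ≤ A ^ 2 := by rw [sq]; exact le_mul_of_one_le_right' hA1
    exact ⟨he.trans (le_mul_of_one_le_right' (hA1.trans h2)),
      (hc e _ he).trans (mul_le_mul_right h2 _)⟩
  · intro k hk e he
    refine h.inv_le (lt_of_le_of_lt (he.trans ?_) hx)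
    exact mul_le_mul_right (pow_le_pow_right' hA1 hk) _
  · intro k e he o ho
    exact (h.mul_le' he ho).trans_eq (mul_one _)
  · intro k e he e' he' o ho
    exact (h.mul_le' (h.mul_le' he he') ho).trans_eq (by rw [mul_one, sq])

lemma pow_near {g : D} {ε : Γ} (hε : ε ≤ 1) (hg : n (g - 1) ≤ ε) (i : ℕ) :
    n (g ^ i - 1) ≤ ε := by
  induction i with
  | zero => simp [h.zero]
  | succ i ih =>
    have : g ^ (i + 1) - 1 = (g ^ i - 1) * (g - 1) + (g ^ i - 1) + (g - 1) := by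
      rw [pow_succ]
      noncomm_ring
    rw [this]
    exact (h.ball ε).add_mem ((h.ball ε).add_mem
      ((h.mul_le' ih hg).trans (mul_le_of_le_one_right' hε)) ih) hg

lemma no_small_torsion {g y : D} {ε : Γ} (hε : ε < 1) (hg : n (g - 1) ≤ ε) {l : ℕ}
    (hl : (l : D) ≠ 0) (hl' : n (l : D)⁻¹ * ε < 1) (hc : y * g ^ l = g ^ l * y) :
    y * g = g * y := by
  have hi : ∀ i : ℕ, g ^ i ≠ 0 ∧ n (g ^ i)⁻¹ ≤ 1 := fun i => by
    simpa using h.inv_le ((h.pow_near hε.le hg i).trans_lt hε)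
  have hg0 : g ≠ 0 := by simpa using (hi 1).1
  set w := g * y * g⁻¹ - y with hw
  have hsum : ∑ i ∈ Finset.range l, g ^ i * w * (g ^ i)⁻¹ = 0 := by
    have e := Finset.sum_range_sub (fun i => g ^ i * y * (g ^ i)⁻¹) l
    rw [← hc, mul_assoc, mul_inv_cancel₀ (hi l).1] at e
    simp only [pow_zero, mul_one, inv_one, one_mul, sub_self] at e
    rw [← e]
    refine Finset.sum_congr rfl fun i _ => ?_
    rw [hw, pow_succ, mul_inv_rev, mul_sub, sub_mul]
    simp only [mul_assoc]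
  have h1 : n ((l : D) * w) ≤ ε * n w := by
    have e : (l : D) * w = ∑ i ∈ Finset.range l, (w - g ^ i * w * (g ^ i)⁻¹) := by
      rw [Finset.sum_sub_distrib, hsum]
      simp
    rw [e]
    refine sum_mem (S := h.ball (ε * n w)) fun i _ => ?_
    have e' : w - g ^ i * w * (g ^ i)⁻¹ = (w * (g ^ i - 1) - (g ^ i - 1) * w) * (g ^ i)⁻¹ := by
      simp [mul_sub, sub_mul, (hi i).1]
    rw [mem_ball, e']
    have h2 := h.pow_near hε.le hg i
    exact (h.mul_le' (h.sub_le ((h.mul_le' le_rfl h2).trans_eq (mul_comm _ _))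
      (h.mul_le' h2 le_rfl)) (hi i).2).trans_eq (mul_one _)
  have hw0 : w = 0 := by
    by_contra h0
    have h2 : n w ≤ n (l : D)⁻¹ * (ε * n w) := by
      have := h.mul_le' (le_refl (n (l : D)⁻¹)) h1
      rwa [← mul_assoc, inv_mul_cancel₀ hl, one_mul] at this
    rw [← mul_assoc] at h2
    exact absurd ((le_mul_iff_one_le_left (h.pos h0)).1 h2) (not_le.2 hl')
  calc y * g = g * y * g⁻¹ * g := by rw [sub_eq_zero.1 hw0]
    _ = g * y := by simp [hg0]

lemma first_order {a z : D} (ha : a ≠ 0) (r : ℕ) {γ : Γ} (hγ : Bdd n γ)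
    (hz : ∀ x, n x * γ < 1 → n x * (n a * n a⁻¹) ^ r < 1 →
      z * ds a (1 + x) r = ds a (1 + x) r * z) (x : D) :
    z * (dl a ^ r) x = (dl a ^ r) x * z := by
  obtain ⟨l, hl⟩ := ((GL'.dl a r).mul z 1).sub ((GL'.dl a r).mul 1 z)
  simp only [mul_one, one_mul] at hl
  rw [← sub_eq_zero, hl]
  have hA := h.bdd_pow (h.bdd_mul (bdd a) (bdd a⁻¹)) r
  refine h.vanish _ l le_rfl (max γ ((n a * n a⁻¹) ^ r)) (n z * ((n a * n a⁻¹) ^ r) ^ 2)
    (bdd_max hγ hA) (h.bdd_mul (bdd z) (h.bdd_pow hA 2)) (fun y hy => ?_) x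
  have h1 := (mul_le_mul_right (le_max_left _ _) _).trans_lt hy
  have h2 := (mul_le_mul_right (le_max_right _ _) _).trans_lt hy
  have h3 := (h.jets_norm ha r h2).2
  have e : z * (dl a ^ r) y - (dl a ^ r) y * z =
      (ds a (1 + y) r - 1 - (dl a ^ r) y) * z - z * (ds a (1 + y) r - 1 - (dl a ^ r) y) := by
    rw [sub_mul, sub_mul, mul_sub, mul_sub, hz y h1 h2]
    noncomm_ring
  rw [← hl, e]
  refine h.sub_le ((h.mul_le' h3 le_rfl).trans_eq ?_) ((h.mul_le' le_rfl h3).trans_eq ?_)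
  · rw [mul_pow]; ac_rfl
  · rw [mul_pow]; ac_rfl

lemma one_le_A {a : D} (ha : a ≠ 0) (r : ℕ) : 1 ≤ (n a * n a⁻¹) ^ r := by
  have := h.mul_le a a⁻¹
  rw [mul_inv_cancel₀ ha, h.one] at this
  exact one_le_pow_of_one_le' this r

theorem cc : CC D := by
  intro N hN z hz hz'
  obtain ⟨r, hr⟩ := absorb hN
  refine CC_core hN hz hz' fun a ha => ⟨r, ?_⟩
  have ha0 := SN.ne_zero ha
  refine h.first_order ha0 r (bdd 0) fun x _ hx => (hz _ (hr a ha _ ?_)).symm
  exact (h.inv_le ((le_mul_of_one_le_right' (h.one_le_A ha0 r)).trans_lt hx)).1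

theorem hc : HC D := by
  intro N hN hrad a ha
  obtain ⟨r, hr⟩ := absorb hN
  obtain ⟨c, hc⟩ := h.primes
  have ha0 := SN.ne_zero ha
  refine rad_dl hN hrad ha (r := r) fun x y => ?_
  refine h.first_order ha0 r
    (h.bdd_mul (h.bdd_pow (h.bdd_mul (bdd a) (bdd a⁻¹)) r) (bdd c)) (fun x h1 h2 => ?_) x
  have hd := hr a ha _ (h.inv_le ((le_mul_of_one_le_right' (h.one_le_A ha0 r)).trans_lt h2)).1
  suffices hcen : ds a (1 + x) r ∈ Subring.center D from mem_center.1 hcen y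
  by_contra hcen
  obtain ⟨m, hm, e⟩ := hrad _ hd
  obtain ⟨j, l, -, hl, h3, h4⟩ := prime_red (· ∈ Subring.center D) _ m hm e hcen
  apply h3
  by_cases hl0 : (l : D) = 0
  · exact rad_char hN hrad (SN.pow hd j) hl hl0 h4
  · rw [mem_center]
    intro w
    refine h.no_small_torsion h2 (h.pow_near h2.le (h.jets_norm ha0 r h2).1 j) hl0 ?_
      (mem_center.1 h4 w)
    refine (mul_le_mul_left (hc l hl hl0) _).trans_lt (lt_of_eq_of_lt ?_ h1)
    ac_rfl

end IsNm

end Pool.Agent.Work.MP_b4cb8e_al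
end

-- merged part: Pool.Agent.Work.MP_b4cb8e_al.FD
section
set_option autoImplicit false

namespace Pool.Agent.Work.MP_b4cb8e_al

universe u

variable {D : Type u} [DivisionRing D] {Γ : Type*} [LinearOrderedCommGroupWithZero Γ]

lemma val_nat (v : Valuation D Γ) (m : ℕ) : v (m : D) ≤ 1 := by
  induction m with
  | zero => simp
  | succ m ih => rw [Nat.cast_succ]; exact v.map_add_le ih (by simp)

lemma val_int (v : Valuation D Γ) (m : ℤ) : v (m : D) ≤ 1 := by
  obtain ⟨k, rfl | rfl⟩ := m.eq_nat_or_neg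
  · simpa using val_nat v k
  · simpa using val_nat v k

lemma val_primes (v : Valuation D Γ) :
    ∃ c, ∀ l : ℕ, l.Prime → (l : D) ≠ 0 → v (l : D)⁻¹ ≤ v c := by
  by_cases h : ∃ l : ℕ, l.Prime ∧ (l : D) ≠ 0 ∧ v (l : D) < 1
  · obtain ⟨l0, hl0, h0, h1⟩ := h
    refine ⟨(l0 : D)⁻¹, fun l hl hl' => ?_⟩
    by_cases e : l = l0
    · rw [e]
    · have hv : v (l : D) = 1 := by
        by_contra hne
        have hlt := lt_of_le_of_ne (val_nat v l) hne
        obtain ⟨a, b, hab⟩ := Nat.isCoprime_iff_coprime.2 ((Nat.coprime_primes hl hl0).2 e)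
        have e1 : (a : D) * l + b * l0 = 1 := by exact_mod_cast congrArg (Int.cast : ℤ → D) hab
        have : v ((a : D) * l + b * l0) < 1 := by
          refine v.map_add_lt ?_ ?_
          · rw [map_mul]
            exact (mul_le_of_le_one_left' (val_int v a)).trans_lt hlt
          · rw [map_mul]
            exact (mul_le_of_le_one_left' (val_int v b)).trans_lt h1
        rw [e1, map_one] at this
        exact lt_irrefl _ this
      rw [map_inv₀, map_inv₀, hv, inv_one]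
      exact (one_le_inv₀ (zero_lt_iff.2 ((Valuation.ne_zero_iff v).2 h0))).2 h1.le
  · push Not at h
    refine ⟨1, fun l hl hl' => ?_⟩
    rw [map_inv₀, le_antisymm (val_nat v l) (h l hl hl'), inv_one, map_one]

lemma val_small (v : Valuation D Γ) {t : D} (ht : t ≠ 0) (ht' : v t < 1) (c : D) :
    ∃ x, x ≠ 0 ∧ v x * v c < 1 := by
  by_cases hc : c = 0
  · exact ⟨1, one_ne_zero, by simp [hc]⟩
  · refine ⟨t * c⁻¹, mul_ne_zero ht (inv_ne_zero hc), ?_⟩
    rwa [← map_mul, mul_assoc, inv_mul_cancel₀ hc, mul_one]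

lemma isNm_val (v : Valuation D Γ) {t : D} (ht : t ≠ 0) (ht' : v t < 1) : IsNm v where
  eq_zero _ hx := (Valuation.zero_iff v).1 hx
  zero := map_zero v
  add_le := v.map_add
  neg := v.map_neg
  mul_le x y := (map_mul v x y).le
  one_le := (map_one v).le
  prod x y := ⟨x * y, (map_mul v x y).ge⟩
  small := val_small v ht ht'
  primes := val_primes v

lemma exists_lt_one (v : Valuation D Γ) {t : D} (ht : t ≠ 0) (ht' : v t ≠ 1) :
    ∃ s, s ≠ 0 ∧ v s < 1 ∧ (s = t ∨ s = t⁻¹) := by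
  rcases lt_or_gt_of_ne ht' with h | h
  · exact ⟨t, ht, h, Or.inl rfl⟩
  · refine ⟨t⁻¹, inv_ne_zero ht, ?_, Or.inr rfl⟩
    rw [map_inv₀]
    exact inv_lt_one_of_one_lt₀ h

lemma exists_mx (ι : Type*) [Fintype ι] [Nonempty ι] : ∃ mx : (ι → Γ) → Γ,
    (∀ f i, f i ≤ mx f) ∧ ∀ f, ∃ i, mx f = f i := by
  have h : ∀ f : ι → Γ, ∃ i, ∀ j, f j ≤ f i := fun f => Finite.exists_max f
  choose g hg using h
  exact ⟨fun f => f (g f), fun f i => hg f i, fun f => ⟨g f, rfl⟩⟩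

lemma exists_isNm_fd {k : Type*} [Field k] [Algebra k D] [FiniteDimensional k D]
    (v : Valuation k Γ) {t : k} (ht : t ≠ 0) (ht' : v t < 1) : ∃ n : D → Γ, IsNm n := by
  classical
  let b := Module.finBasis k D
  have hne : Nonempty (Fin (Module.finrank k D)) := ⟨⟨0, Module.finrank_pos⟩⟩
  have hinj := Algebra.leftMulMatrix_injective b
  generalize Algebra.leftMulMatrix b = M at hinj
  obtain ⟨mx, hmx, hmx'⟩ := exists_mx (Γ := Γ)
    (Fin (Module.finrank k D) × Fin (Module.finrank k D))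
  obtain ⟨n, le_n, n_eq'⟩ : ∃ n : D → Γ, (∀ x i j, v (M x i j) ≤ n x) ∧
      ∀ x, ∃ i j, n x = v (M x i j) :=
    ⟨fun x => mx fun ij => v (M x ij.1 ij.2),
      fun x i j => hmx (fun ij => v (M x ij.1 ij.2)) (i, j), fun x => by
        obtain ⟨ij, h⟩ := hmx' fun ij => v (M x ij.1 ij.2)
        exact ⟨ij.1, ij.2, h⟩⟩
  have n_le : ∀ x ε, (∀ i j, v (M x i j) ≤ ε) → n x ≤ ε := fun x ε h => by
    obtain ⟨i, j, e⟩ := n_eq' x
    rw [e]
    exact h i j
  have n_eq : ∀ x, ∃ c, n x = v c := fun x => by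
    obtain ⟨i, j, e⟩ := n_eq' x
    exact ⟨_, e⟩
  have n_alg : ∀ c, n (algebraMap k D c) = v c := fun c => by
    have e : ∀ i j, M (algebraMap k D c) i j = if i = j then c else 0 := fun i j => by
      rw [AlgHom.commutes, Matrix.algebraMap_matrix_apply]
      simp
    refine le_antisymm (n_le _ _ fun i j => ?_) ?_
    · rw [e]
      split_ifs
      · exact le_rfl
      · simp
    · obtain ⟨i⟩ := hne
      simpa [e] using le_n (algebraMap k D c) i i
  refine ⟨n, fun x hx => ?_, ?_, fun x y => ?_, fun x => ?_, fun x y => ?_, ?_, fun x y => ?_,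
    fun c => ?_, ?_⟩
  · apply hinj
    ext i j
    have := le_n x i j
    rw [hx, le_zero_iff, Valuation.zero_iff] at this
    simpa using this
  · simpa using n_alg 0
  · refine n_le _ _ fun i j => ?_
    rw [map_add, Matrix.add_apply]
    exact (v.map_add _ _).trans (max_le_max (le_n x i j) (le_n y i j))
  · refine le_antisymm (n_le _ _ fun i j => ?_) (n_le _ _ fun i j => ?_)
    · simpa using le_n x i j
    · simpa using le_n (-x) i j
  · refine n_le _ _ fun i j => ?_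
    rw [map_mul, Matrix.mul_apply]
    refine v.map_sum_le fun l _ => ?_
    rw [map_mul]
    exact mul_le_mul' (le_n x i l) (le_n y l j)
  · simpa using (n_alg 1).le
  · obtain ⟨c, hc⟩ := n_eq x
    obtain ⟨d, hd⟩ := n_eq y
    exact ⟨algebraMap k D (c * d), by rw [n_alg, hc, hd, map_mul]⟩
  · obtain ⟨d, hd⟩ := n_eq c
    obtain ⟨x, hx, h⟩ := val_small v ht ht' d
    exact ⟨algebraMap k D x, by simpa using hx, by rwa [n_alg, hd]⟩
  · obtain ⟨c, hc⟩ := val_primes v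
    refine ⟨algebraMap k D c, fun l hl hl' => ?_⟩
    have e : (l : D)⁻¹ = algebraMap k D (l : k)⁻¹ := by simp
    rw [e, n_alg, n_alg]
    refine hc l hl fun h0 => hl' ?_
    rw [← map_natCast (algebraMap k D), h0, map_zero]

/-- a field has a nontrivial valuation or is a union of finite fields -/
lemma val_or_tor (k : Type u) [Field k] :
    (∃ t : k, t ≠ 0 ∧ ∃ V : ValuationSubring k, V.valuation t < 1) ∨
      ∃ p : ℕ, p.Prime ∧ CharP k p ∧ ∀ t : k, t ≠ 0 → Tor t := by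
  obtain ⟨p, hp⟩ := CharP.exists k
  rcases CharP.char_is_prime_or_zero k p with hpr | rfl
  · have : Fact p.Prime := ⟨hpr⟩
    by_cases h : ∀ t : k, t ≠ 0 → Tor t
    · exact Or.inr ⟨p, hpr, hp, h⟩
    · push Not at h
      obtain ⟨t, ht, h⟩ := h
      exact Or.inl ⟨t, ht, exists_val_of_not_tor p t h⟩
  · have : CharZero k := CharP.charP_to_charZero k
    refine Or.inl ⟨2, two_ne_zero, exists_val 2 fun s hs e => ?_⟩
    have : s ∈ (⊥ : Subring k) := Ts_le (Nr_bot 2) le_rfl (ofNat_mem _ 2) hs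
    obtain ⟨m, rfl⟩ := Subring.mem_bot.1 this
    have : (2 * m : ℤ) = 1 := by exact_mod_cast e
    omega

/-- Herstein's conjecture for finite-dimensional division algebras -/
theorem HC_of_fd (k : Type u) [Field k] [Algebra k D] [FiniteDimensional k D] : HC D := by
  rcases val_or_tor k with ⟨t, ht, V, hV⟩ | ⟨p, hp, hc, htor⟩
  · obtain ⟨n, hn⟩ := exists_isNm_fd (D := D) V.valuation ht hV
    exact hn.hc
  · have : Fact p.Prime := ⟨hp⟩
    have hD : CharP D p := charP_of_injective_algebraMap (algebraMap k D).injective p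
    have hall : ∀ y : D, y ≠ 0 → Tor y := by
      intro y hy
      let : Algebra (ZMod p) k := ZMod.algebra k p
      let : Algebra (ZMod p) D := ZMod.algebra D p
      have : IsScalarTower (ZMod p) k D := IsScalarTower.of_algebraMap_eq' (Subsingleton.elim _ _)
      have : Algebra.IsIntegral (ZMod p) k := ⟨fun t => by
        by_cases ht : t = 0
        · rw [ht]; exact isIntegral_zero
        · obtain ⟨s, hs, e⟩ := htor t ht
          exact IsIntegral.of_pow hs (e ▸ isIntegral_one)⟩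
      have hy' : IsIntegral (ZMod p) y := isIntegral_trans y (IsIntegral.of_finite k y)
      have hf : Module.Finite (ZMod p) (Algebra.adjoin (ZMod p) {y}) :=
        Module.Finite.iff_fg.2 hy'.fg_adjoin_singleton
      have : Finite (Algebra.adjoin (ZMod p) {y}) := Module.finite_of_finite (ZMod p)
      exact tor_of_finite hy (S := (Algebra.adjoin (ZMod p) {y} : Set D)) (Set.toFinite _)
        fun n => pow_mem (Algebra.self_mem_adjoin_singleton _ y) n
    intro N _ _ a ha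
    by_contra ha'
    obtain ⟨y, hy, hy', -⟩ := herstein_lemma p (hall a (SN.ne_zero ha)) ha'
    exact hy' (hall y hy)

/-- Herstein's conjecture inside a finite-dimensional subalgebra -/
lemma comm_of_fd_subalgebra {k : Type u} [Field k] [Algebra k D] (A : Subalgebra k D)
    [FiniteDimensional k A] {N : Subgroup Dˣ} (hN : N.IsSubnormal)
    (hrad : ∀ x ∈ SN N, ∃ m : ℕ, 1 ≤ m ∧ x ^ m ∈ Subring.center D) {x y : D} (hx : x ∈ A)
    (hy : y ∈ A) (hxN : x ∈ SN N) : y * x = x * y := by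
  let : DivisionRing A := divisionRingOfFiniteDimensional k A
  exact (HC_of_fd (D := A) k).pull A.val.toRingHom hN (fun z hz => by
    obtain ⟨m, hm, e⟩ := hrad _ hz
    exact ⟨m, hm, fun w => mem_center.1 e _⟩) ⟨x, hx⟩ ⟨y, hy⟩ hxN

lemma fd_adjoin {k : Type*} [Field k] [Algebra k D] {a y : D} {l : ℕ} (hl : 1 ≤ l) {α β η : k}
    (ha : a ^ l = algebraMap k D α) (hy : y ^ l = algebraMap k D β)
    (h : y * a = η • (a * y)) : FiniteDimensional k (Algebra.adjoin k {a, y}) := by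
  let V : Submodule k D :=
    Submodule.span k (Set.range fun ij : Fin l × Fin l => a ^ (ij.1 : ℕ) * y ^ (ij.2 : ℕ))
  have hV : V.FG := Submodule.fg_span (Set.finite_range _)
  have hm : ∀ i j : ℕ, a ^ i * y ^ j ∈ V := by
    intro i j
    have e : a ^ i * y ^ j = (α ^ (i / l) * β ^ (j / l)) • (a ^ (i % l) * y ^ (j % l)) := by
      conv_lhs => rw [← Nat.div_add_mod i l, ← Nat.div_add_mod j l, pow_add, pow_add, pow_mul,
        pow_mul, ha, hy, ← map_pow, ← map_pow]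
      simp [Algebra.algebraMap_eq_smul_one, smul_smul, mul_comm]
    rw [e]
    exact V.smul_mem _ (Submodule.subset_span ⟨(⟨_, Nat.mod_lt i hl⟩, ⟨_, Nat.mod_lt j hl⟩), rfl⟩)
  have hc : ∀ i : ℕ, y * a ^ i = η ^ i • (a ^ i * y) := by
    intro i
    induction i with
    | zero => simp
    | succ i ih =>
      rw [pow_succ a, ← mul_assoc, ih, smul_mul_assoc, mul_assoc, h, mul_smul_comm, smul_smul,
        pow_succ η, mul_assoc]
  have key : ∀ z ∈ Algebra.adjoin k {a, y}, ∀ w ∈ V, z * w ∈ V := by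
    intro z hz
    induction hz using Algebra.adjoin_induction with
    | mem z hz =>
      intro w hw
      induction hw using Submodule.span_induction with
      | mem w hw =>
        obtain ⟨⟨i, j⟩, rfl⟩ := hw
        rcases hz with rfl | rfl
        · rw [← mul_assoc, ← pow_succ']
          exact hm _ _
        · rw [← mul_assoc, hc, smul_mul_assoc, mul_assoc, ← pow_succ']
          exact V.smul_mem _ (hm _ _)
      | zero => simp
      | add u w _ _ hu hw => rw [mul_add]; exact V.add_mem hu hw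
      | smul c w _ hw => rw [mul_smul_comm]; exact V.smul_mem _ hw
    | algebraMap c =>
      intro w hw
      rw [← Algebra.smul_def]
      exact V.smul_mem _ hw
    | add u z _ _ hu hz => intro w hw; rw [add_mul]; exact V.add_mem (hu w hw) (hz w hw)
    | mul u z _ _ hu hz => intro w hw; rw [mul_assoc]; exact hu _ (hz w hw)
  have hle : Subalgebra.toSubmodule (Algebra.adjoin k {a, y}) ≤ V := fun z hz => by
    simpa using key z hz 1 (by simpa using hm 0 0)
  have : FiniteDimensional k V := Module.Finite.iff_fg.2 hV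
  exact Submodule.finiteDimensional_of_le hle

/-- the centre contains the roots of unity of prime order -/
def Roots (D : Type u) [DivisionRing D] : Prop :=
  ∀ l : ℕ, l.Prime → (l : D) ≠ 0 → ∃ ζ ∈ Subring.center D, ζ ≠ 1 ∧ ζ ^ l = 1

theorem HC_of_roots (hR : Roots D) : HC D := by
  intro N hN hrad a0 ha0
  by_contra hcen
  obtain ⟨m, hm, e⟩ := hrad _ ha0
  obtain ⟨j, l, -, hl, h3, h4⟩ := prime_red (· ∈ Subring.center D) _ m hm e hcen
  have ha := SN.pow ha0 j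
  generalize a0 ^ j = a at ha h3 h4
  apply h3
  by_cases hl0 : (l : D) = 0
  · exact rad_char hN hrad ha hl hl0 h4
  obtain ⟨ζ, hζ, hζ1, hζl⟩ := hR l hl hl0
  have : Fact l.Prime := ⟨hl⟩
  have ho : orderOf ζ = l := orderOf_eq_prime hζl hζ1
  obtain ⟨y, hy0, i, hi, hy⟩ := eigen (SN.ne_zero ha) (mem_center.1 hζ a) hl0 hζl
    (fun j hj hj' => pow_ne_one_of_lt_orderOf hj.ne' (ho ▸ hj')) h4 h3
  have ha1 := SN.ne_zero ha
  have hη := mem_center.1 (pow_mem hζ i)
  have e1 : y * a = ζ ^ i * (a * y) := by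
    calc y * a = ζ ^ i * (a * y * a⁻¹) * a := by rw [hy]
      _ = _ := by simp [mul_assoc, ha1]
  have e2 : ∀ n : ℕ, y ^ n * a = (ζ ^ i) ^ n * (a * y ^ n) := by
    intro n
    induction n with
    | zero => simp
    | succ n ih =>
      rw [pow_succ' y, mul_assoc, ih, ← mul_assoc, mem_center.1 (pow_mem (pow_mem hζ i) n) y,
        mul_assoc, ← mul_assoc y, e1, pow_succ (ζ ^ i)]
      simp only [mul_assoc]
  have e3 : y ^ l * a = a * y ^ l := by
    rw [e2, ← pow_mul, mul_comm i l, pow_mul, hζl, one_pow, one_mul]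
  exfalso
  let E : Subfield D := cent {y ^ l}
  have haE : a ∈ E := by rintro _ rfl; exact e3
  have hyE : y ∈ E := by rintro _ rfl; rw [← pow_succ, ← pow_succ']
  have hcE : ∀ z ∈ Subring.center D, z ∈ E := by
    rintro z hz _ rfl
    exact mem_center.1 hz _
  let a' : E := ⟨a, haE⟩
  let y' : E := ⟨y, hyE⟩
  have hfd : FiniteDimensional (Subring.center E) (Algebra.adjoin (Subring.center E) {a', y'}) :=
    fd_adjoin hl.one_le
      (α := ⟨a' ^ l, mem_center.2 fun w => Subtype.ext (mem_center.1 h4 w)⟩)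
      (β := ⟨y' ^ l, mem_center.2 fun w => Subtype.ext (w.2 _ rfl).symm⟩)
      (η := ⟨⟨ζ ^ i, hcE _ (pow_mem hζ i)⟩, mem_center.2 fun w => Subtype.ext (hη w)⟩) rfl rfl
      (Subtype.ext e1)
  have := comm_of_fd_subalgebra (Algebra.adjoin (Subring.center E) {a', y'})
    (pull_subnormal E.subtype hN) (fun x hx => by
      obtain ⟨m, hm, e⟩ := hrad _ ((mem_pull _ _).1 hx)
      exact ⟨m, hm, mem_center.2 fun w => Subtype.ext (mem_center.1 e w)⟩)
    (x := a') (y := y') (Algebra.subset_adjoin (by simp)) (Algebra.subset_adjoin (by simp))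
    ((mem_pull _ _).2 ha)
  have h5 : y * a = a * y := congrArg Subtype.val this
  rw [h5] at e1
  exact hi (mul_right_cancel₀ (mul_ne_zero ha1 hy0) (by rw [one_mul]; exact e1.symm))

end Pool.Agent.Work.MP_b4cb8e_al
end

-- merged part: Pool.Agent.Work.MP_b4cb8e_al.Red
section
set_option autoImplicit false

namespace Pool.Agent.Work.MP_b4cb8e_al

universe u

variable {D : Type u} [DivisionRing D]

lemma faith {K : Subfield D} {a y : D} (ha : a ∉ K) (hy : y ∈ K) (h1 : a * y * a⁻¹ ∈ K)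
    (h2 : (a + 1) * y * (a + 1)⁻¹ ∈ K) : a * y = y * a := by
  have ha0 : a ≠ 0 := by
    rintro rfl
    exact ha K.zero_mem
  have ha1 : a + 1 ≠ 0 := by
    intro h
    rw [eq_neg_of_add_eq_zero_left h] at ha
    exact ha (K.neg_mem K.one_mem)
  have e1 : a * y = a * y * a⁻¹ * a := by simp [ha0]
  have e2 : (a + 1) * y = (a + 1) * y * (a + 1)⁻¹ * (a + 1) := by simp [ha1]
  generalize a * y * a⁻¹ = k2 at h1 e1
  generalize (a + 1) * y * (a + 1)⁻¹ = k1 at h2 e2
  have e3 : (k1 - k2) * a = y - k1 := by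
    rw [add_mul, e1, mul_add, one_mul, mul_one] at e2
    rw [sub_mul, eq_sub_iff_add_eq, ← add_left_cancel_iff (a := k2 * a), e2]
    abel
  have e4 : k1 = k2 := by
    by_contra hne
    have := K.mul_mem (K.inv_mem (K.sub_mem h2 h1)) (K.sub_mem hy h2)
    rw [← e3, ← mul_assoc, inv_mul_cancel₀ (sub_ne_zero.2 hne), one_mul] at this
    exact ha this
  rw [e4, sub_self, zero_mul] at e3
  rw [e1, ← sub_eq_zero.1 e3.symm]

lemma NC.conj {N : Subgroup Dˣ} (h : NC N) {g : D} (hg : g ≠ 0) : NC (pull (cjr hg) N) := by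
  obtain ⟨x, hx, hx'⟩ := h
  refine ⟨g⁻¹ * x * g, (mem_pull _ _).2 (by simpa [cjr_apply, mul_assoc, hg] using hx), ?_⟩
  intro hc
  apply hx'
  have e : x = g⁻¹ * x * g := by
    calc x = g * (g⁻¹ * x * g) * g⁻¹ := by simp [mul_assoc, hg]
      _ = g⁻¹ * x * g := by rw [mem_center.1 hc g]; simp [hg]
  rwa [e]

lemma faith_sub (hC : CC D) {K : Subfield D} {N : Subgroup Dˣ} (hN : N.IsSubnormal) (hnc : NC N)
    (hrad : ∀ x ∈ SN N, ∃ m : ℕ, 1 ≤ m ∧ x ^ m ∈ K) {a : D} (ha : a ∉ K) :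
    ∃ N' : Subgroup Dˣ, N'.IsSubnormal ∧ NC N' ∧
      ∀ x ∈ SN N', ∃ m : ℕ, 1 ≤ m ∧ a * x ^ m = x ^ m * a := by
  have ha0 : a ≠ 0 := by
    rintro rfl
    exact ha K.zero_mem
  have ha1 : a + 1 ≠ 0 := by
    intro h
    rw [eq_neg_of_add_eq_zero_left h] at ha
    exact ha (K.neg_mem K.one_mem)
  have h1 := pull_subnormal (cjr ha0) hN
  have h2 := pull_subnormal (cjr ha1) hN
  refine ⟨N ⊓ pull (cjr ha0) N ⊓ pull (cjr ha1) N, (hN.inf h1).inf h2,
    hC.inf (hN.inf h1) h2 (hC.inf hN h1 hnc (hnc.conj ha0)) (hnc.conj ha1), fun x hx => ?_⟩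
  rw [SN.inf, SN.inf, mem_pull, mem_pull] at hx
  obtain ⟨m1, hm1, e1⟩ := hrad _ hx.1.1
  obtain ⟨m2, hm2, e2⟩ := hrad _ hx.1.2
  obtain ⟨m3, hm3, e3⟩ := hrad _ hx.2
  refine ⟨m1 * m2 * m3, Nat.mul_pos (Nat.mul_pos hm1 hm2) hm3, faith ha ?_ ?_ ?_⟩
  · rw [mul_assoc, pow_mul]
    exact pow_mem e1 _
  · rw [← cjr_apply ha0, map_pow, mul_comm m1, mul_assoc, pow_mul]
    exact pow_mem e2 _
  · rw [← cjr_apply ha1, map_pow, mul_comm, pow_mul]
    exact pow_mem e3 _

lemma core (hC : CC D) (hH : HC D) {K : Subfield D} {N : Subgroup Dˣ} (hN : N.IsSubnormal)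
    (hrad : ∀ x ∈ SN N, ∃ m : ℕ, 1 ≤ m ∧ x ^ m ∈ K) {a b c : D} (ha : a ∉ K) (hb : b ∉ K)
    (hc : c ∉ K)
    (hgen : ∀ z, a * z = z * a → b * z = z * b → c * z = z * c → z ∈ Subring.center D) :
    ∀ x ∈ SN N, x ∈ Subring.center D := by
  by_contra hcon
  push Not at hcon
  obtain ⟨A, hA, hA1, hA2⟩ := faith_sub hC hN hcon hrad ha
  obtain ⟨B, hB, hB1, hB2⟩ := faith_sub hC hN hcon hrad hb
  obtain ⟨C, hC0, hC1, hC2⟩ := faith_sub hC hN hcon hrad hc
  obtain ⟨x, hx, hx'⟩ := hC.inf (hA.inf hB) hC0 (hC.inf hA hB hA1 hB1) hC1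
  refine hx' (hH _ ((hA.inf hB).inf hC0) (fun y hy => ?_) x hx)
  rw [SN.inf, SN.inf] at hy
  obtain ⟨m1, hm1, e1⟩ := hA2 _ hy.1.1
  obtain ⟨m2, hm2, e2⟩ := hB2 _ hy.1.2
  obtain ⟨m3, hm3, e3⟩ := hC2 _ hy.2
  refine ⟨m1 * m2 * m3, Nat.mul_pos (Nat.mul_pos hm1 hm2) hm3, hgen _ ?_ ?_ ?_⟩
  · rw [mul_assoc, pow_mul]
    exact (Commute.pow_right (a := a) e1 _).eq
  · rw [mul_comm m1, mul_assoc, pow_mul]
    exact (Commute.pow_right (a := b) e2 _).eq
  · rw [mul_comm, pow_mul]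
    exact (Commute.pow_right (a := c) e3 _).eq

lemma exists_not_mem {K : Subfield D} (hK : K ≠ ⊤) : ∃ a, a ∉ K := by
  by_contra h
  push Not at h
  exact hK (eq_top_iff.2 fun z _ => h z)

/-- reduction to division subrings generated by a central set `S` and three elements -/
theorem reduction' (P : D → Prop) (hP : ∀ K : Subfield D, K ≠ ⊤ → ∃ a, a ∉ K ∧ P a)
    (S : Set D) (hS : ∀ s ∈ S, s ∈ Subring.center D)
    (h : ∀ a b c : D, P a → CC (Subfield.closure (S ∪ {a, b, c})) ∧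
      HC (Subfield.closure (S ∪ {a, b, c}))) : QQ D := by
  intro K hK N hN hrad x hx
  rw [mem_center]
  intro y
  obtain ⟨a, ha, hPa⟩ := hP K hK
  have aux : ∀ z : D, ∃ z', z' ∉ K ∧ (z' = z ∨ z' = a + z) := by
    intro z
    by_cases hz : z ∈ K
    · exact ⟨a + z, fun h => ha (by simpa using K.sub_mem h hz), Or.inr rfl⟩
    · exact ⟨z, hz, Or.inl rfl⟩
  obtain ⟨b, hb, hb'⟩ := aux x
  obtain ⟨c, hc, hc'⟩ := aux y
  set E := Subfield.closure (S ∪ {a, b, c}) with hE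
  have haE : a ∈ E := Subfield.subset_closure (by simp)
  have hbE : b ∈ E := Subfield.subset_closure (by simp)
  have hcE : c ∈ E := Subfield.subset_closure (by simp)
  have hxE : x ∈ E := by
    rcases hb' with rfl | rfl
    · exact hbE
    · simpa using E.sub_mem hbE haE
  have hyE : y ∈ E := by
    rcases hc' with rfl | rfl
    · exact hcE
    · simpa using E.sub_mem hcE haE
  have := core (h a b c hPa).1 (h a b c hPa).2 (K := K.comap E.subtype) (pull_subnormal E.subtype hN)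
    (fun z hz => by
      obtain ⟨m, hm, e⟩ := hrad _ ((mem_pull _ _).1 hz)
      exact ⟨m, hm, by simpa using e⟩) (a := ⟨a, haE⟩) (b := ⟨b, hbE⟩) (c := ⟨c, hcE⟩) ha hb hc
    (fun z h1 h2 h3 => by
      have hle : E ≤ cent {(z : D)} := by
        rw [hE, Subfield.closure_le]
        rintro w (hw | rfl | rfl | rfl) _ rfl
        · exact mem_center.1 (hS w hw) _
        · exact (congrArg Subtype.val h1).symm
        · exact (congrArg Subtype.val h2).symm
        · exact (congrArg Subtype.val h3).symm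
      exact mem_center.2 fun w => Subtype.ext (hle w.2 _ rfl).symm)
    ⟨x, hxE⟩ ((mem_pull _ _).2 hx)
  exact congrArg Subtype.val (mem_center.1 this ⟨y, hyE⟩)

theorem reduction (S : Set D) (hS : ∀ s ∈ S, s ∈ Subring.center D)
    (h : ∀ a b c : D, CC (Subfield.closure (S ∪ {a, b, c})) ∧
      HC (Subfield.closure (S ∪ {a, b, c}))) : QQ D :=
  reduction' (fun _ => True) (fun _ hK => (exists_not_mem hK).imp fun _ h => ⟨h, trivial⟩) S hS
    fun a b c _ => h a b c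

theorem QQ_of_val {Γ : Type*} [LinearOrderedCommGroupWithZero Γ] (v : Valuation D Γ) {t : D}
    (ht : t ≠ 0) (ht' : v t ≠ 1) : QQ D := by
  refine reduction' (fun a => a ≠ 0 ∧ v a ≠ 1) (fun K hK => ?_) ∅ (by simp) fun a b c ha => ?_
  · obtain ⟨a, ha⟩ := exists_not_mem hK
    have ha0 : a ≠ 0 := by
      rintro rfl
      exact ha K.zero_mem
    by_cases h1 : v a = 1
    · by_cases h2 : t ∈ K
      · refine ⟨a * t, fun h => ha ?_, mul_ne_zero ha0 ht, by rwa [map_mul, h1, one_mul]⟩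
        simpa [ht] using K.mul_mem h (K.inv_mem h2)
      · exact ⟨t, h2, ht, ht'⟩
    · exact ⟨a, ha, ha0, h1⟩
  · set E := Subfield.closure ((∅ : Set D) ∪ {a, b, c})
    have haE : a ∈ E := Subfield.subset_closure (by simp)
    obtain ⟨s, hs, hs', -⟩ := exists_lt_one (v.comap E.subtype) (t := ⟨a, haE⟩)
      (fun h => ha.1 (congrArg Subtype.val h)) ha.2
    have := isNm_val _ hs hs'
    exact ⟨this.cc, this.hc⟩

/-- the inclusion of a central set into the centre of a division subring -/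
lemma center_embed (E : Subfield D) (S : Set D) (hS : ∀ s ∈ S, s ∈ E ∧ ∀ e ∈ E, e * s = s * e) :
    ∃ f : S → Subring.center E, Function.Injective f :=
  ⟨fun s => ⟨⟨s, (hS s s.2).1⟩, mem_center.2 fun e => Subtype.ext ((hS s s.2).2 e e.2)⟩,
    fun _ _ h => Subtype.ext (congrArg (fun z : Subring.center E => ((z : E) : D)) h)⟩

lemma center_embed' (T : Set D) : ∃ f : Subring.center D →
    Subring.center (Subfield.closure ((Subring.center D : Set D) ∪ T)), Function.Injective f :=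
  center_embed _ (Subring.center D : Set D) fun _ hs =>
    ⟨Subfield.subset_closure (Or.inl hs), fun e _ => mem_center.1 hs e⟩

theorem QQ_of_infinite [Infinite (Subring.center D)]
    (h : ∀ a b c : D, HC (Subfield.closure ((Subring.center D : Set D) ∪ {a, b, c}))) : QQ D :=
  reduction _ (fun _ hs => hs) fun a b c => by
    obtain ⟨f, hf⟩ := center_embed' (D := D) {a, b, c}
    have := Infinite.of_injective f hf
    exact ⟨CC_of_infinite, h a b c⟩

theorem QQ_of_uncountable [Uncountable (Subring.center D)] : QQ D :=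
  QQ_of_infinite fun a b c => by
    obtain ⟨f, hf⟩ := center_embed' (D := D) {a, b, c}
    have := hf.uncountable
    exact HC_of_uncountable

lemma Roots.infinite (h : Roots D) : Infinite (Subring.center D) := by
  by_contra hfin
  rw [not_infinite_iff_finite] at hfin
  obtain ⟨p, hp⟩ := CharP.exists D
  obtain ⟨l, hl, hlp⟩ := Nat.exists_infinite_primes (Nat.card (Subring.center D) + p + 1)
  have hl0 : (l : D) ≠ 0 := by
    intro h0
    have h1 := (CharP.cast_eq_zero_iff D p l).1 h0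
    rcases (Nat.dvd_prime hlp).1 h1 with rfl | rfl
    · exact CharP.char_ne_one D 1 rfl
    · omega
  obtain ⟨ζ, hζ, h1, h2⟩ := h l hlp hl0
  have : Fact l.Prime := ⟨hlp⟩
  have ho : orderOf (⟨ζ, hζ⟩ : Subring.center D) = l :=
    orderOf_eq_prime (Subtype.ext h2) fun h => h1 (congrArg Subtype.val h)
  have := orderOf_le_card (x := (⟨ζ, hζ⟩ : Subring.center D))
  omega

theorem QQ_of_roots (h : Roots D) : QQ D := by
  have := h.infinite
  refine QQ_of_infinite fun a b c => HC_of_roots fun l hl hl0 => ?_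
  obtain ⟨ζ, hζ, h1, h2⟩ := h l hl fun h0 => hl0 (Subtype.ext (by simpa using h0))
  exact ⟨⟨ζ, Subfield.subset_closure (Or.inl hζ)⟩,
    mem_center.2 fun e => Subtype.ext (mem_center.1 hζ e),
    fun h => h1 (congrArg Subtype.val h), Subtype.ext h2⟩

end Pool.Agent.Work.MP_b4cb8e_al
end

-- merged part: Pool.Agent.Work.MP_b4cb8e_al.Gen
section
set_option autoImplicit false

namespace Pool.Agent.Work.MP_b4cb8e_al

universe u

variable {D : Type u} [DivisionRing D]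

/-- a family of exponents directed under divisibility -/
def Dir (P : ℕ → Prop) : Prop := ∀ m1 m2, P m1 → P m2 → ∃ m, P m ∧ m1 ∣ m ∧ m2 ∣ m

lemma dir_pos : Dir (1 ≤ ·) := fun m1 m2 h1 h2 =>
  ⟨m1 * m2, Nat.mul_pos h1 h2, dvd_mul_right _ _, dvd_mul_left _ _⟩

/-- Herstein's conjecture with exponents in `P` -/
def HCP (P : ℕ → Prop) (D : Type u) [DivisionRing D] : Prop :=
  ∀ N : Subgroup Dˣ, N.IsSubnormal → (∀ x ∈ SN N, ∃ m : ℕ, P m ∧ x ^ m ∈ Subring.center D) →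
    ∀ x ∈ SN N, x ∈ Subring.center D

/-- the problem with exponents in `P` -/
def QQP (P : ℕ → Prop) (D : Type u) [DivisionRing D] : Prop :=
  ∀ K : Subfield D, K ≠ ⊤ → ∀ N : Subgroup Dˣ, N.IsSubnormal →
    (∀ x ∈ SN N, ∃ m : ℕ, P m ∧ x ^ m ∈ K) → ∀ x ∈ SN N, x ∈ Subring.center D

/-- the centre is the centralizer of a finite set -/
def FC (D : Type u) [DivisionRing D] : Prop :=
  ∃ T : Finset D, ∀ z : D, (∀ t ∈ T, t * z = z * t) → z ∈ Subring.center D

lemma pow_mem_of_dvd {K : Subfield D} {x : D} {m n : ℕ} (h : x ^ m ∈ K) (hd : m ∣ n) :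
    x ^ n ∈ K := by
  obtain ⟨c, rfl⟩ := hd
  rw [pow_mul]
  exact pow_mem h c

lemma faith_subP {P : ℕ → Prop} (hP : Dir P) (hC : CC D) {K : Subfield D} {N : Subgroup Dˣ}
    (hN : N.IsSubnormal) (hnc : NC N) (hrad : ∀ x ∈ SN N, ∃ m : ℕ, P m ∧ x ^ m ∈ K) {a : D}
    (ha : a ∉ K) : ∃ N' : Subgroup Dˣ, N'.IsSubnormal ∧ NC N' ∧
      ∀ x ∈ SN N', ∃ m : ℕ, P m ∧ x ^ m ∈ cent {a} := by
  have ha0 : a ≠ 0 := by
    rintro rfl
    exact ha K.zero_mem
  have ha1 : a + 1 ≠ 0 := by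
    intro h
    rw [eq_neg_of_add_eq_zero_left h] at ha
    exact ha (K.neg_mem K.one_mem)
  have h1 := pull_subnormal (cjr ha0) hN
  have h2 := pull_subnormal (cjr ha1) hN
  refine ⟨N ⊓ pull (cjr ha0) N ⊓ pull (cjr ha1) N, (hN.inf h1).inf h2,
    hC.inf (hN.inf h1) h2 (hC.inf hN h1 hnc (hnc.conj ha0)) (hnc.conj ha1), fun x hx => ?_⟩
  rw [SN.inf, SN.inf, mem_pull, mem_pull] at hx
  obtain ⟨m1, hm1, e1⟩ := hrad _ hx.1.1
  obtain ⟨m2, hm2, e2⟩ := hrad _ hx.1.2
  obtain ⟨m3, hm3, e3⟩ := hrad _ hx.2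
  obtain ⟨m4, hm4, d1, d2⟩ := hP _ _ hm1 hm2
  obtain ⟨m, hm, d4, d3⟩ := hP _ _ hm4 hm3
  refine ⟨m, hm, ?_⟩
  rintro _ rfl
  refine faith ha (pow_mem_of_dvd e1 (d1.trans d4)) ?_ ?_
  · rw [← cjr_apply ha0, map_pow]
    exact pow_mem_of_dvd e2 (d2.trans d4)
  · rw [← cjr_apply ha1, map_pow]
    exact pow_mem_of_dvd e3 d3

lemma core_fin {P : ℕ → Prop} (hP : Dir P) (hC : CC D) {K : Subfield D} {N : Subgroup Dˣ}
    (hN : N.IsSubnormal) (hnc : NC N) (hrad : ∀ x ∈ SN N, ∃ m : ℕ, P m ∧ x ^ m ∈ K)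
    (T : Finset D) (hT : ∀ t ∈ T, t ∉ K) : ∃ N' : Subgroup Dˣ, N'.IsSubnormal ∧ NC N' ∧
      ∀ x ∈ SN N', ∃ m : ℕ, P m ∧ x ^ m ∈ cent (T : Set D) := by
  classical
  induction T using Finset.induction_on with
  | empty =>
    refine ⟨N, hN, hnc, fun x hx => ?_⟩
    obtain ⟨m, hm, -⟩ := hrad x hx
    exact ⟨m, hm, by simp [mem_cent]⟩
  | insert a T _ ih =>
    obtain ⟨A, hA, hA1, hA2⟩ := faith_subP hP hC hN hnc hrad (hT a (Finset.mem_insert_self _ _))
    obtain ⟨B, hB, hB1, hB2⟩ := ih fun t ht => hT t (Finset.mem_insert_of_mem ht)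
    refine ⟨A ⊓ B, hA.inf hB, hC.inf hA hB hA1 hB1, fun x hx => ?_⟩
    rw [SN.inf] at hx
    obtain ⟨m1, hm1, e1⟩ := hA2 x hx.1
    obtain ⟨m2, hm2, e2⟩ := hB2 x hx.2
    obtain ⟨m, hm, d1, d2⟩ := hP _ _ hm1 hm2
    refine ⟨m, hm, fun t ht => ?_⟩
    rcases Finset.mem_insert.1 ht with rfl | ht
    · exact pow_mem_of_dvd e1 d1 t rfl
    · exact pow_mem_of_dvd e2 d2 t ht

theorem QQP_of_FC {P : ℕ → Prop} (hP : Dir P) (hC : CC D) (hF : FC D) (hH : HCP P D) :
    QQP P D := by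
  classical
  intro K hK N hN hrad
  by_contra hcon
  push Not at hcon
  obtain ⟨a, ha⟩ := exists_not_mem hK
  obtain ⟨T, hT⟩ := hF
  obtain ⟨A, hA, ⟨x, hx, hx'⟩, hA2⟩ := core_fin hP hC hN hcon hrad
    (insert a (T.image fun t => if t ∈ K then a + t else t)) (by
      intro t ht
      rcases Finset.mem_insert.1 ht with rfl | ht
      · exact ha
      · obtain ⟨s, -, rfl⟩ := Finset.mem_image.1 ht
        split_ifs with h
        · exact fun h' => ha (by simpa using K.sub_mem h' h)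
        · exact h)
  refine hx' (hH A hA (fun y hy => ?_) x hx)
  obtain ⟨m, hm, e⟩ := hA2 y hy
  refine ⟨m, hm, hT _ fun t ht => ?_⟩
  have h1 := e a (by simp)
  have h2 := e (if t ∈ K then a + t else t)
    (Finset.mem_insert_of_mem (Finset.mem_image_of_mem _ ht))
  split_ifs at h2 with h
  · rwa [add_mul, mul_add, h1, add_right_inj] at h2
  · exact h2

lemma QQP.pull {P : ℕ → Prop} {E : Type*} [DivisionRing E] (hE : QQP P E) (f : E →+* D)
    (K : Subfield D) {N : Subgroup Dˣ} (hN : N.IsSubnormal) (e : E) (he : f e ∉ K)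
    (hrad : ∀ x ∈ SN N, ∃ m : ℕ, P m ∧ x ^ m ∈ K)
    (x y : E) (hx : f x ∈ SN N) : f y * f x = f x * f y := by
  have := hE (K.comap f) (fun h => he (by
      have : e ∈ K.comap f := h ▸ Subfield.mem_top e
      exact this)) (Work.MP_b4cb8e_al.pull f N) (pull_subnormal f hN) (fun z hz => by
    obtain ⟨m, hm, h⟩ := hrad _ ((mem_pull f N).1 hz)
    exact ⟨m, hm, by simpa using h⟩) x ((mem_pull f N).2 hx)
  rw [← map_mul, ← map_mul, mem_center.1 this y]

theorem QQP_of_pairs {P : ℕ → Prop}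
    (h : ∀ x y : D, ∃ E : Subfield D, x ∈ E ∧ y ∈ E ∧ QQP P E) : QQP P D := by
  intro K hK N hN hrad x hx
  have key : ∀ a, a ∉ K → a * x = x * a := fun a ha => by
    obtain ⟨E, h1, h2, h3⟩ := h x a
    exact h3.pull E.subtype K hN ⟨a, h2⟩ ha hrad ⟨x, h1⟩ ⟨a, h2⟩ hx
  obtain ⟨a, ha⟩ := exists_not_mem hK
  rw [mem_center]
  intro y
  by_cases hy : y ∈ K
  · have := key (a + y) fun h' => ha (by simpa using K.sub_mem h' hy)
    rwa [add_mul, mul_add, key a ha, add_right_inj] at this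
  · exact key y hy

lemma FC_of_fd (k : Type*) [Field k] [Algebra k D] [FiniteDimensional k D] : FC D := by
  obtain ⟨T, hT⟩ := Module.Finite.fg_top (R := k) (M := D)
  refine ⟨T, fun z hz => mem_center.2 fun y => ?_⟩
  have hy : y ∈ Submodule.span k (T : Set D) := hT ▸ Submodule.mem_top
  induction hy using Submodule.span_induction with
  | mem t ht => exact hz t ht
  | zero => simp
  | add u w _ _ hu hw => rw [add_mul, mul_add, hu, hw]
  | smul c w _ hw => rw [smul_mul_assoc, mul_smul_comm, hw]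

lemma FC_closure (S : Set D) (T : Finset D)
    (hS : ∀ s ∈ S, ∀ e ∈ Subfield.closure (S ∪ T), e * s = s * e) :
    FC (Subfield.closure (S ∪ T)) := by
  classical
  refine ⟨T.attach.image fun t => ⟨t.1, Subfield.subset_closure (Or.inr t.2)⟩, fun z hz => ?_⟩
  have hle : Subfield.closure (S ∪ T) ≤ cent {(z : D)} := by
    rw [Subfield.closure_le]
    rintro w (hw | hw) _ rfl
    · exact hS w hw _ z.2
    · exact (congrArg Subtype.val (hz ⟨w, Subfield.subset_closure (Or.inr hw)⟩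
        (Finset.mem_image.2 ⟨⟨w, hw⟩, Finset.mem_attach _ _, rfl⟩))).symm
  exact mem_center.2 fun w => Subtype.ext (hle w.2 _ rfl).symm

theorem QQ_of_fd (k : Type u) [Field k] [Algebra k D] [FiniteDimensional k D] : QQ D := by
  rcases finite_or_infinite k with hk | hk
  · have : Finite D := Module.finite_of_finite k
    intro _ _ _ _ _ x _
    exact mem_center.2 fun y => comm_of_finite (S := ⊤) (Set.toFinite _) trivial trivial
  · have : Infinite (Subring.center D) := Infinite.of_injective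
      (fun c : k => (⟨algebraMap k D c, mem_center.2 fun y => (Algebra.commutes c y).symm⟩ :
        Subring.center D)) fun a b h => (algebraMap k D).injective (congrArg Subtype.val h)
    exact QQP_of_FC dir_pos CC_of_infinite (FC_of_fd k) (HC_of_fd k)

lemma fd_adjoin' {k : Type*} [Field k] [Algebra k D] (T : Set D) (V : Submodule k D) (hV : V.FG)
    (h1 : (1 : D) ∈ V) (hT : ∀ t ∈ T, ∀ v ∈ V, t * v ∈ V) :
    FiniteDimensional k (Algebra.adjoin k T) := by
  have key : ∀ z ∈ Algebra.adjoin k T, ∀ w ∈ V, z * w ∈ V := by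
    intro z hz
    induction hz using Algebra.adjoin_induction with
    | mem z hz => exact hT z hz
    | algebraMap c =>
      intro w hw
      rw [← Algebra.smul_def]
      exact V.smul_mem _ hw
    | add u z _ _ hu hz => intro w hw; rw [add_mul]; exact V.add_mem (hu w hw) (hz w hw)
    | mul u z _ _ hu hz => intro w hw; rw [mul_assoc]; exact hu _ (hz w hw)
  have hle : Subalgebra.toSubmodule (Algebra.adjoin k T) ≤ V := fun z hz => by
    simpa using key z hz 1 h1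
  have : FiniteDimensional k V := Module.Finite.iff_fg.2 hV
  exact Submodule.finiteDimensional_of_le hle

lemma conj_pow_mem {L : Subfield D} {y : D} (h1 : ∀ l ∈ L, y * l * y⁻¹ ∈ L) (j : ℕ) :
    ∀ l ∈ L, y ^ j * l * (y ^ j)⁻¹ ∈ L := by
  induction j with
  | zero => intro h hh; simpa using hh
  | succ j ih =>
    intro h hh
    have := h1 _ (ih h hh)
    rw [pow_succ', mul_inv_rev]
    simpa only [mul_assoc] using this

lemma fixed_span {L : Subfield D} (hL : ∀ a ∈ L, ∀ b ∈ L, a * b = b * a) {y : D} (hy0 : y ≠ 0)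
    (h1 : ∀ l ∈ L, y * l * y⁻¹ ∈ L) {n : ℕ} (hn : 1 ≤ n) (hyn : y ^ n ∈ cent (L : Set D)) :
    ∃ s : Finset L, ∀ l ∈ L, ∃ c : L → D, (∀ x, c x ∈ L ∧ y * c x = c x * y) ∧
      l = ∑ x ∈ s, c x * x := by
  let : Field L := { (inferInstance : DivisionRing L) with
    mul_comm := fun x y => Subtype.ext (hL x x.2 y y.2) }
  let σ0 : L →+* L := (cjr hy0).restrict L L h1
  have hb : Function.Bijective σ0 := by
    refine ⟨σ0.injective, fun l => ⟨⟨_, conj_pow_mem h1 (n - 1) l l.2⟩, Subtype.ext ?_⟩⟩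
    obtain ⟨m, rfl⟩ : ∃ m, n = m + 1 := ⟨n - 1, by omega⟩
    change y * (y ^ (m + 1 - 1) * l * (y ^ (m + 1 - 1))⁻¹) * y⁻¹ = l
    have e := hyn l l.2
    rw [Nat.add_sub_cancel]
    calc y * (y ^ m * l * (y ^ m)⁻¹) * y⁻¹ = y ^ (m + 1) * l * (y ^ (m + 1))⁻¹ := by
          rw [pow_succ', mul_inv_rev]; simp only [mul_assoc]
      _ = l := by rw [← e, mul_assoc, mul_inv_cancel₀ (pow_ne_zero _ hy0), mul_one]
  let σ : RingAut L := RingEquiv.ofBijective σ0 hb
  have hσ : ∀ (j : ℕ) (l : L), (((σ ^ j) l : L) : D) = y ^ j * l * (y ^ j)⁻¹ := by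
    intro j
    induction j with
    | zero => intro l; simp
    | succ j ih =>
      intro l
      have : (σ ^ (j + 1)) l = (σ ^ j) (σ l) := by rw [pow_succ]; rfl
      rw [this, ih]
      change y ^ j * (y * l * y⁻¹) * (y ^ j)⁻¹ = _
      rw [pow_succ, mul_inv_rev]
      simp only [mul_assoc]
  have hfin : IsOfFinOrder σ := by
    refine isOfFinOrder_iff_pow_eq_one.2 ⟨n, hn, RingEquiv.ext fun l => Subtype.ext ?_⟩
    rw [hσ, ← hyn l l.2, mul_assoc, mul_inv_cancel₀ (pow_ne_zero _ hy0), mul_one]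
    rfl
  have : Finite (Subgroup.zpowers σ) := finite_zpowers.2 hfin
  obtain ⟨s, hs⟩ := Module.Finite.fg_top
    (R := FixedPoints.subfield (Subgroup.zpowers σ) L) (M := L)
  refine ⟨s, fun l hl => ?_⟩
  have hm : (⟨l, hl⟩ : L) ∈ Submodule.span (FixedPoints.subfield (Subgroup.zpowers σ) L)
    (s : Set L) := hs ▸ Submodule.mem_top
  obtain ⟨c, -, hc⟩ := Submodule.mem_span_finset.1 hm
  refine ⟨fun x => ((c x : L) : D), fun x => ⟨(c x : L).2, ?_⟩, ?_⟩
  · have h2 : σ (c x : L) = c x := (c x).2 ⟨σ, Subgroup.mem_zpowers σ⟩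
    have h3 : y * ((c x : L) : D) * y⁻¹ = (c x : L) := congrArg Subtype.val h2
    rw [← dl_eq_zero_iff hy0, dl_apply, h3, sub_self]
  · have := congrArg Subtype.val hc
    rw [AddSubmonoidClass.coe_finsetSum] at this
    exact this.symm

lemma fd_normal {L : Subfield D} (hL : ∀ a ∈ L, ∀ b ∈ L, a * b = b * a) {y : D} (hy0 : y ≠ 0)
    (h1 : ∀ l ∈ L, y * l * y⁻¹ ∈ L) {n : ℕ} (hn : 1 ≤ n) (hyn : y ^ n ∈ Subring.center D)
    (hc : ∀ c ∈ L, y * c = c * y → c ∈ Subring.center D) :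
    FiniteDimensional (Subring.center D)
      (Algebra.adjoin (Subring.center D) (insert y (L : Set D))) := by
  obtain ⟨s, hs⟩ := fixed_span hL hy0 h1 hn fun l _ => mem_center.1 hyn l
  let V : Submodule (Subring.center D) D := Submodule.span (Subring.center D)
    (Set.range fun ij : s × Fin n => ((ij.1 : L) : D) * y ^ (ij.2 : ℕ))
  have hm : ∀ l ∈ L, ∀ j : ℕ, l * y ^ j ∈ V := by
    intro l hl j
    obtain ⟨c, h2, rfl⟩ := hs l hl
    rw [Finset.sum_mul]
    refine sum_mem fun x hx => ?_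
    have e : c x * x * y ^ j = ((⟨c x, hc _ (h2 x).1 (h2 x).2⟩ * ⟨_, hyn⟩ ^ (j / n) :
        Subring.center D)) • ((x : D) * y ^ (j % n)) := by
      change _ = c x * (y ^ n) ^ (j / n) * ((x : D) * y ^ (j % n))
      conv_lhs => rw [← Nat.div_add_mod j n, pow_add, pow_mul]
      rw [mul_assoc, mul_assoc, ← mul_assoc (x : D), mem_center.1 (pow_mem hyn _) x, mul_assoc]
    rw [e]
    exact V.smul_mem _ (Submodule.subset_span ⟨(⟨x, hx⟩, ⟨_, Nat.mod_lt j hn⟩), rfl⟩)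
  refine fd_adjoin' _ V (Submodule.fg_span (Set.finite_range _)) (by simpa using hm 1 L.one_mem 0)
    fun t ht v hv => ?_
  induction hv using Submodule.span_induction with
  | mem w hw =>
    obtain ⟨⟨x, j⟩, rfl⟩ := hw
    rcases ht with rfl | ht
    · have := hm _ (h1 _ (x : L).2) (j + 1)
      rwa [pow_succ', mul_assoc, ← mul_assoc t⁻¹, inv_mul_cancel₀ hy0, one_mul, mul_assoc] at this
    · rw [← mul_assoc]
      exact hm _ (L.mul_mem ht (x : L).2) _
  | zero => simp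
  | add u w _ _ hu hw => rw [mul_add]; exact V.add_mem hu hw
  | smul c w _ hw => rw [mul_smul_comm]; exact V.smul_mem _ hw

/-- an element normalizing a commutative division subring with a power centralizing it -/
theorem fd_comm {L : Subfield D} (hL : ∀ a ∈ L, ∀ b ∈ L, a * b = b * a) {y : D} (hy0 : y ≠ 0)
    (h1 : ∀ l ∈ L, y * l * y⁻¹ ∈ L) {n : ℕ} (hn : 1 ≤ n) (hyn : y ^ n ∈ cent (L : Set D))
    {K : Subfield D} {M : Subgroup Dˣ} (hM : M.IsSubnormal)
    (hrad : ∀ x ∈ SN M, ∃ m : ℕ, 1 ≤ m ∧ x ^ m ∈ K) {x z : D} (hx : x ∈ insert y (L : Set D))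
    (hz : z ∈ insert y (L : Set D)) (hxM : x ∈ SN M) (hxK : x ∉ K) : z * x = x * z := by
  let G : Subfield D := cent (insert (y ^ n) {c | c ∈ L ∧ y * c = c * y})
  have hyG : y ∈ G := by
    rintro _ (rfl | h)
    · exact (Commute.pow_self y n).eq
    · exact h.2.symm
  have hLG : ∀ l ∈ L, l ∈ G := by
    rintro l hl _ (rfl | h)
    · exact (hyn l hl).symm
    · exact hL _ h.1 _ hl
  let y' : G := ⟨y, hyG⟩
  let L' : Subfield G := L.comap G.subtype
  have hfd := fd_normal (L := L') (fun a ha b hb => Subtype.ext (hL _ ha _ hb)) (y := y')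
    (fun h => hy0 (congrArg Subtype.val h)) (fun l hl => h1 _ hl) hn
    (mem_center.2 fun w => Subtype.ext (w.2 _ (Or.inl rfl)).symm)
    fun c hc h => mem_center.2 fun w =>
      Subtype.ext (w.2 _ (Or.inr ⟨hc, congrArg Subtype.val h⟩)).symm
  set A := Algebra.adjoin (Subring.center G) (insert y' (L' : Set G))
  let : DivisionRing A := divisionRingOfFiniteDimensional (Subring.center G) A
  have hA : ∀ w ∈ insert y (L : Set D), ∃ a : A, G.subtype.comp A.val.toRingHom a = w := by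
    rintro w (rfl | hw)
    · exact ⟨⟨y', Algebra.subset_adjoin (Or.inl rfl)⟩, rfl⟩
    · exact ⟨⟨⟨w, hLG w hw⟩, Algebra.subset_adjoin (Or.inr hw)⟩, rfl⟩
  obtain ⟨a, rfl⟩ := hA x hx
  obtain ⟨b, rfl⟩ := hA z hz
  exact (QQ_of_fd (D := A) (Subring.center G)).pull _ K hM a hxK hrad a b hxM

lemma cent_conj {S : Set D} {g : D} (hg : g ≠ 0) (h : ∀ s ∈ S, g⁻¹ * s * g ∈ S) {x : D}
    (hx : x ∈ cent S) : g * x * g⁻¹ ∈ cent S := by
  intro s hs
  have h3 := hx _ (h s hs)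
  calc s * (g * x * g⁻¹) = g * ((g⁻¹ * s * g) * x) * g⁻¹ := by simp [mul_assoc, hg]
    _ = _ := by rw [h3]; simp [mul_assoc, hg]

/-- the bicommutant of an element -/
def bic (u : D) : Subfield D := cent (cent ({u} : Set D) : Set D)

lemma self_mem_bic (u : D) : u ∈ bic u := fun y hy => (hy u rfl).symm

lemma center_mem_bic (u : D) {c : D} (hc : c ∈ Subring.center D) : c ∈ bic u :=
  fun y _ => mem_center.1 hc y

lemma bic_comm (u : D) : ∀ a ∈ bic u, ∀ b ∈ bic u, a * b = b * a := by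
  intro x hx y hy
  refine hy x ?_
  rintro z rfl
  exact hx z (by rintro w rfl; rfl)

lemma bic_conj {u y : D} (hy0 : y ≠ 0) (h : y * u * y⁻¹ ∈ bic u) :
    ∀ l ∈ bic u, y * l * y⁻¹ ∈ bic u := fun l hl => cent_conj hy0 (fun s hs => by
  rintro z rfl
  have h3 := h s hs
  calc z * (y⁻¹ * s * y) = y⁻¹ * ((y * z * y⁻¹) * s) * y := by simp [mul_assoc, hy0]
    _ = _ := by rw [← h3]; simp [mul_assoc, hy0]) hl

theorem fd_comm1 {u y : D} (hy0 : y ≠ 0) (h1 : y * u * y⁻¹ ∈ bic u) {n : ℕ} (hn : 1 ≤ n)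
    (hyn : u * y ^ n = y ^ n * u) {K : Subfield D} {M : Subgroup Dˣ} (hM : M.IsSubnormal)
    (hrad : ∀ x ∈ SN M, ∃ m : ℕ, 1 ≤ m ∧ x ^ m ∈ K) {x z : D} (hx : x ∈ insert y (bic u : Set D))
    (hz : z ∈ insert y (bic u : Set D)) (hxM : x ∈ SN M) (hxK : x ∉ K) : z * x = x * z :=
  fd_comm (bic_comm u) hy0 (bic_conj hy0 h1) hn
    (fun l hl => (hl _ (by rintro _ rfl; exact hyn)).symm) hM hrad hx hz hxM hxK

/-- torsion elements in characteristic `p` -/
theorem TL (p : ℕ) [Fact p.Prime] [CharP D p] {K : Subfield D} {M : Subgroup Dˣ}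
    (hM : M.IsSubnormal) (hrad : ∀ x ∈ SN M, ∃ m : ℕ, 1 ≤ m ∧ x ^ m ∈ K) {m : D} (hm : m ∈ SN M)
    (hmK : m ∉ K) (ht : Tor m) : m ∈ Subring.center D := by
  by_contra hc
  obtain ⟨y, hy0, -, hne, ⟨i, hi⟩, j, hj, e⟩ := herstein_lemma p ht hc
  exact hne (fd_comm1 hy0 (hi ▸ pow_mem (self_mem_bic m) i) hj e.symm hM hrad
    (Or.inr (self_mem_bic m)) (Or.inl rfl) hm hmK)

lemma mem_cent_univ {x : D} : x ∈ cent (Set.univ : Set D) ↔ x ∈ Subring.center D := by
  simp [mem_cent, mem_center]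

lemma char_of_finite [Finite (Subring.center D)] : ∃ p : ℕ, p.Prime ∧ CharP D p := by
  obtain ⟨p, hp⟩ := CharP.exists D
  exact ⟨p, (CharP.char_is_prime_or_zero D p).resolve_right (by
    rintro rfl
    have : CharZero D := CharP.charP_to_charZero D
    exact not_injective_infinite_finite
      (fun n : ℕ => (⟨n, natCast_mem _ n⟩ : Subring.center D))
      fun a b h => Nat.cast_injective (R := D) (congrArg Subtype.val h)), hp⟩

theorem central_of_tor (p : ℕ) [Fact p.Prime] [CharP D p] {M : Subgroup Dˣ} (hM : M.IsSubnormal)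
    (h : ∀ x ∈ SN M, Tor x) : ∀ x ∈ SN M, x ∈ Subring.center D := by
  intro x hx
  by_contra hc
  refine hc (TL p (K := cent Set.univ) hM (fun y hy => ?_) hx (by rwa [mem_cent_univ]) (h x hx))
  obtain ⟨s, hs, e⟩ := h y hy
  exact ⟨s, hs, e ▸ one_mem _⟩

theorem HC_of_finite [Finite (Subring.center D)] : HC D := by
  obtain ⟨p, hpr, hp⟩ := char_of_finite (D := D)
  have : Fact p.Prime := ⟨hpr⟩
  intro N hN hrad
  refine central_of_tor p hN fun x hx => ?_
  obtain ⟨m, hm, e⟩ := hrad x hx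
  exact Tor.of_pow hm (tor_of_finite (pow_ne_zero _ (SN.ne_zero hx))
    (Set.toFinite (Subring.center D : Set D)) fun n => pow_mem e n)

end Pool.Agent.Work.MP_b4cb8e_al
end

-- merged part: Pool.Agent.Work.MP_b4cb8e_al.Stuth
section
set_option autoImplicit false

namespace Pool.Agent.Work.MP_b4cb8e_al

universe u

variable {D : Type u} [DivisionRing D]

section SkewJet

variable {H : Subfield D} {w : D} {hw : Nr H.toSubring w}

/-- the localization of `H[w]` at `w` -/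
def Ol (hw' : Nl H.toSubring w) (hw0 : w ≠ 0) (hind : ∀ h ∈ H.toSubring, Tp hw h → h = 0) :
    Subring D where
  carrier := {x | ∃ q ∈ Ts hw, ¬ Tp hw q ∧ x * q ∈ Ts hw}
  mul_mem' := by
    rintro x y ⟨q1, hq1, hq1', h1⟩ ⟨q2, hq2, hq2', h2⟩
    obtain ⟨p', hp', q', hq', hq'', e⟩ := ore' hw' hw0
      (fun h hh h0 => ⟨h⁻¹, H.inv_mem hh, mul_inv_cancel₀ h0⟩) hind hq1 hq1' h2
    refine ⟨q2 * q', mul_mem hq2 hq', fun h => hq'' (Tp.prime hind hq2 hq2' hq' h), ?_⟩
    rw [mul_assoc, ← mul_assoc y, e, ← mul_assoc]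
    exact mul_mem h1 hp'
  one_mem' := ⟨1, one_mem _, fun h => one_ne_zero (hind 1 (one_mem _) h), by simp⟩
  add_mem' := by
    rintro x y ⟨q1, hq1, hq1', h1⟩ ⟨q2, hq2, hq2', h2⟩
    obtain ⟨p', hp', q', hq', hq'', e⟩ := ore' hw' hw0
      (fun h hh h0 => ⟨h⁻¹, H.inv_mem hh, mul_inv_cancel₀ h0⟩) hind hq1 hq1' hq2
    refine ⟨q2 * q', mul_mem hq2 hq', fun h => hq'' (Tp.prime hind hq2 hq2' hq' h), ?_⟩
    rw [add_mul, ← mul_assoc y, e, ← mul_assoc]
    exact add_mem (mul_mem h1 hp') (mul_mem h2 hq')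
  zero_mem' := ⟨1, one_mem _, fun h => one_ne_zero (hind 1 (one_mem _) h), by simp⟩
  neg_mem' := by
    rintro x ⟨q, hq, hq', h⟩
    exact ⟨q, hq, hq', by rw [neg_mul]; exact neg_mem h⟩

variable {hw' : Nl H.toSubring w} {hw0 : w ≠ 0} {hind : ∀ h ∈ H.toSubring, Tp hw h → h = 0}

lemma H_le_Ol {h : D} (hh : h ∈ H) : h ∈ Ol hw' hw0 hind :=
  ⟨1, one_mem _, fun h => one_ne_zero (hind 1 (one_mem _) h), by
    rw [mul_one]; exact H_le_Ts hw hh⟩

lemma Ol_map (f : D →+* D) (h1 : ∀ h ∈ H, f h ∈ H) {c : D} (hc : c ∈ H) (h2 : f w = w * c)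
    {x : D} (hx : x ∈ Ol hw' hw0 hind) : f x ∈ Ol hw' hw0 hind := by
  have hT : ∀ t ∈ Ts hw, f t ∈ Ts hw := fun t ht =>
    Ts_map hw f (fun h hh => H_le_Ts hw (h1 h hh))
      (h2 ▸ mul_mem (w_mem_Ts hw) (H_le_Ts hw hc)) ht
  obtain ⟨q, hq, hq', h⟩ := hx
  refine ⟨f q, hT q hq, fun h3 => hq' ?_, by rw [← map_mul]; exact hT _ h⟩
  obtain ⟨a, ha, t, ht, rfl⟩ := Ts_low hq
  have h4 : Tp hw (f a) := by
    have := h3.sub ⟨c * f t, mul_mem (H_le_Ts hw hc) (hT t ht), rfl⟩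
    rwa [map_add, map_mul, h2, mul_assoc, add_sub_cancel_right] at this
  have h5 : a = 0 := f.injective (by rw [map_zero]; exact hind _ (h1 a ha) h4)
  exact ⟨t, ht, by rw [h5, zero_add]⟩

lemma Ol_inv {o : D} (ho : o ∈ Ol hw' hw0 hind) :
    1 + w * o ≠ 0 ∧ (1 + w * o)⁻¹ ∈ Ol hw' hw0 hind := by
  obtain ⟨q, hq, hq', h⟩ := ho
  have e : (1 + w * o) * q = q + w * (o * q) := by rw [add_mul, one_mul, mul_assoc]
  have h1 : ¬ Tp hw (q + w * (o * q)) := fun h1 => hq' (by simpa using h1.sub ⟨_, h, rfl⟩)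
  have h0 : 1 + w * o ≠ 0 := by
    intro h0
    rw [h0, zero_mul] at e
    exact h1 ⟨0, zero_mem _, by rw [← e, mul_zero]⟩
  refine ⟨h0, _, add_mem hq (mul_mem (w_mem_Ts hw) h), h1, ?_⟩
  rwa [← e, ← mul_assoc, inv_mul_cancel₀ h0, one_mul]

lemma Ol_zero {h o : D} (hh : h ∈ H) (ho : o ∈ Ol hw' hw0 hind) (e : h = w * o) : h = 0 := by
  obtain ⟨q, hq, hq', h1⟩ := ho
  by_contra h0
  exact hq' (Tp.prime hind (H_le_Ts hw hh) (fun h2 => h0 (hind h hh h2)) hq
    ⟨_, h1, by rw [e, mul_assoc]⟩)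

end SkewJet

lemma skew_jet {H : Subfield D} {w m : D} (hw0 : w ≠ 0) (h1 : ∀ h ∈ H, w * h * w⁻¹ ∈ H)
    (h2 : ∀ h ∈ H, w⁻¹ * h * w ∈ H)
    (hind : ∀ h ∈ H.toSubring, Tp (Nr_of_conj hw0 h2) h → h = 0) {M : Subgroup Dˣ}
    (hM : M.IsSubnormal) (hnorm : ∀ g ∈ SN M, ∀ h ∈ H, g * h * g⁻¹ ∈ H) (hm : m ∈ SN M)
    (hmw : m * w = w * m) : ∃ k : ℕ, ∀ h ∈ H, w * (dl m ^ k) h ∈ cent (H : Set D) := by
  have hm0 := SN.ne_zero hm
  obtain ⟨r, hr⟩ := absorb hM
  let O := Ol (Nl_of_conj hw0 h1) hw0 hind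
  have hOw : ∀ o ∈ O, w⁻¹ * o * w ∈ O := fun o ho => by
    have := Ol_map (cjr (inv_ne_zero hw0)) (fun h hh => by
      rw [cjr_apply, inv_inv]; exact h2 h hh) H.one_mem (by simp [cjr_apply, hw0]) ho
    rwa [cjr_apply, inv_inv] at this
  have hOm : ∀ o ∈ O, m * o * m⁻¹ ∈ O := fun o ho =>
    Ol_map (cjr hm0) (hnorm m hm) H.one_mem (by simp [cjr_apply, hmw, hm0]) ho
  let I : AddSubgroup D := O.toAddSubgroup.map (AddMonoidHom.mulLeft w)
  let J : AddSubgroup D := I.map (AddMonoidHom.mulLeft w)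
  have mI : ∀ o ∈ O, w * o ∈ I := fun o ho => ⟨o, ho, rfl⟩
  have mJ : ∀ o ∈ I, w * o ∈ J := fun o ho => ⟨o, ho, rfl⟩
  have hIO : ∀ e ∈ I, ∀ o ∈ O, e * o ∈ I := by
    rintro _ ⟨e, he, rfl⟩ o ho
    have := mI _ (mul_mem he ho)
    rwa [← mul_assoc] at this
  have hOI : ∀ o ∈ O, ∀ e ∈ I, o * e ∈ I := by
    rintro o ho _ ⟨e, he, rfl⟩
    have := mI _ (mul_mem (hOw o ho) he)
    simpa [mul_assoc, hw0] using this
  have hJO : ∀ e ∈ J, ∀ o ∈ O, e * o ∈ J := by
    rintro _ ⟨e, he, rfl⟩ o ho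
    have := mJ _ (hIO e he o ho)
    rwa [← mul_assoc] at this
  have hOJ : ∀ o ∈ O, ∀ e ∈ J, o * e ∈ J := by
    rintro o ho _ ⟨e, he, rfl⟩
    have := mJ _ (hOI _ (hOw o ho) e he)
    simpa [mul_assoc, hw0] using this
  have hmw' : ∀ x, m * (w * x) * m⁻¹ = w * (m * x * m⁻¹) := fun x => by
    rw [← mul_assoc, hmw]; simp only [mul_assoc]
  have hIm : ∀ e ∈ I, m * e * m⁻¹ ∈ I := by
    rintro _ ⟨e, he, rfl⟩
    exact (hmw' e).symm ▸ mI _ (hOm e he)
  have hJm : ∀ e ∈ J, m * e * m⁻¹ ∈ J := by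
    rintro _ ⟨e, he, rfl⟩
    exact (hmw' e).symm ▸ mJ _ (hIm e he)
  have hinv : ∀ e ∈ I, 1 + e ≠ 0 ∧ (1 + e)⁻¹ ∈ O := by
    rintro _ ⟨e, he, rfl⟩
    exact Ol_inv he
  have hHI : ∀ h ∈ H, h ∈ I → h = 0 := by
    rintro h hh ⟨o, ho, e⟩
    exact Ol_zero hh (show o ∈ O from ho) e.symm
  have hdl : ∀ (k : ℕ) (x : D), (dl m ^ k) (w * x) = w * (dl m ^ k) x := by
    intro k x
    induction k with
    | zero => rfl
    | succ k ih => rw [dl_pow_succ, dl_pow_succ, ih, dl_apply, dl_apply, hmw', mul_sub]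
  have hdlH : ∀ (k : ℕ), ∀ x ∈ H, (dl m ^ k) x ∈ H := by
    intro k x hx
    induction k with
    | zero => exact hx
    | succ k ih => rw [dl_pow_succ, dl_apply]; exact H.sub_mem ih (hnorm m hm _ ih)
  refine ⟨r, fun h hh y hy => ?_⟩
  have hx : w * h ∈ I := mI h (H_le_Ol hh)
  obtain ⟨h3, h4⟩ := jets hm0 (O : Set D) (fun _ => I) (fun _ => J) r (w * h) hx
    (fun _ _ e he => ⟨he, hIm e he⟩) (fun _ _ e he => ⟨he, hJm e he⟩)
    (fun _ _ e he => hinv e he) (fun _ => hIO) (by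
      rintro _ _ ⟨e, he, rfl⟩ e' he' o ho
      have := mJ _ (hIO _ (hOI e he e' he') o ho)
      simpa only [mul_assoc, AddMonoidHom.coe_mulLeft] using this) r le_rfl
  have hf := hr m hm _ (hinv _ hx).1
  rw [hdl] at h4
  have hh' := hdlH r h hh
  generalize (dl m ^ r) h = h' at h4 hh'
  obtain ⟨e, he⟩ : ∃ e, ds m (1 + w * h) r = 1 + e := ⟨ds m (1 + w * h) r - 1, by abel⟩
  rw [he] at hf
  rw [he, add_sub_cancel_left] at h3 h4
  have hyO : y ∈ O := H_le_Ol hy
  have h5 : (1 + e) * y * (1 + e)⁻¹ - y = (e * y - y * e) * (1 + e)⁻¹ := by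
    have := mul_inv_cancel₀ (hinv e h3).1
    calc (1 + e) * y * (1 + e)⁻¹ - y = (1 + e) * y * (1 + e)⁻¹ - y * ((1 + e) * (1 + e)⁻¹) := by
          rw [this, mul_one]
      _ = _ := by noncomm_ring
  have h6 := hHI _ (H.sub_mem (hnorm _ hf y hy) hy)
    (h5 ▸ hIO _ (sub_mem (hIO e h3 y hyO) (hOI y hyO e h3)) _ (hinv e h3).2)
  rw [h5] at h6
  have h7 : e * y - y * e = 0 :=
    (mul_eq_zero.1 h6).resolve_right (inv_ne_zero (hinv e h3).1)
  have h8 : w * (w⁻¹ * y * w * h' - h' * y) = (e - w * h') * y - y * (e - w * h') := by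
    rw [sub_mul, mul_sub y, sub_eq_zero.1 h7, mul_sub]
    simp [mul_assoc, hw0]
  obtain ⟨i, hi, e1⟩ := (h8 ▸ sub_mem (hJO _ h4 y hyO) (hOJ y hyO _ h4) :
    w * (w⁻¹ * y * w * h' - h' * y) ∈ J)
  have e2 : i = w⁻¹ * y * w * h' - h' * y := mul_left_cancel₀ hw0 e1
  have h9 := hHI _ (H.sub_mem (H.mul_mem (h2 y hy) hh') (H.mul_mem hh' hy)) (e2 ▸ hi)
  rw [mul_assoc w, ← sub_eq_zero.1 h9]
  simp [mul_assoc, hw0]

lemma lemma_II (p : ℕ) [Fact p.Prime] [CharP D p] {H : Subfield D} {M : Subgroup Dˣ}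
    (hM : M.IsSubnormal) (hnorm : ∀ g ∈ SN M, ∀ h ∈ H, g * h * g⁻¹ ∈ H) {m : D} (hm : m ∈ SN M)
    (hno : ∀ j : ℕ, 1 ≤ j → m ^ j ∉ cent (H : Set D)) :
    ∃ k : ℕ, 1 ≤ k ∧ ∃ c ∈ H, c ≠ 0 ∧ m ^ k * c ∈ cent (H : Set D) := by
  by_contra hcon
  push Not at hcon
  have hm0 := SN.ne_zero hm
  have h2 : ∀ h ∈ H, m⁻¹ * h * m ∈ H := fun h hh => by
    simpa using hnorm _ (SN.inv hm) h hh
  have hI := indep hm0 (hnorm m hm) h2 (fun i0 s g hg => by
    rw [Finset.sum_eq_zero, add_zero]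
    · exact one_ne_zero
    · intro i hi
      obtain ⟨h3, ⟨h, hh, e⟩, h4⟩ := hg i hi
      by_contra h0
      refine hcon (i - i0) (by omega) h hh ?_ (e ▸ h4)
      rintro rfl
      exact h0 (by rw [e, mul_zero]))
  obtain ⟨k, hk⟩ := skew_jet hm0 (hnorm m hm) h2 (hind_of_indep _ hI) hM hnorm hm rfl
  have hdlH : ∀ (k : ℕ), ∀ x ∈ H, (dl m ^ k) x ∈ H := by
    intro k x hx
    induction k with
    | zero => exact hx
    | succ k ih => rw [dl_pow_succ, dl_apply]; exact H.sub_mem ih (hnorm m hm _ ih)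
  refine hno (p ^ k) (Nat.one_le_pow _ _ (Fact.out : p.Prime).pos) fun h hh => ?_
  refine (comm_of_dl_pow p hm0 ?_).symm
  by_contra h0
  exact hcon 1 le_rfl _ (hdlH k h hh) h0 (by rw [pow_one]; exact hk h hh)

/-- centralizer theorem for finite centre -/
theorem CC_of_finite [Finite (Subring.center D)] : CC D := by
  obtain ⟨p, hpr, hp⟩ := char_of_finite (D := D)
  have : Fact p.Prime := ⟨hpr⟩
  intro X hX
  induction hX with
  | top =>
    intro z hz hz'
    refine absurd (mem_center.2 fun y => ?_) hz'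
    by_cases hy : y = 0
    · simp [hy]
    · exact hz y (SN.top hy)
  | step X M hle hM hn ih =>
    intro z hz hz'
    have hX : X.IsSubnormal := Subgroup.IsSubnormal.step _ _ hle hM hn
    by_contra hnc
    have hCM : ∀ u, (∀ m ∈ SN M, m * u = u * m) → u ∈ Subring.center D := by
      intro u hu
      by_contra hu'
      exact hnc fun x hx => ih u hu hu' x (SN.mono hle hx)
    let C : Subfield D := cent (SN X)
    let B : Subfield D := cent (C : Set D)
    have hCn : ∀ g ∈ SN M, ∀ h ∈ C, g * h * g⁻¹ ∈ C := fun g hg h hh =>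
      cent_conj (SN.ne_zero hg) (fun s hs => by simpa using SN.conj hle hn hs (SN.inv hg)) hh
    have hBn : ∀ g ∈ SN M, ∀ h ∈ B, g * h * g⁻¹ ∈ B := fun g hg h hh =>
      cent_conj (SN.ne_zero hg) (fun s hs => by simpa using hCn _ (SN.inv hg) s hs) hh
    have hZ : ∀ u ∈ C ⊓ B, u ∈ Subring.center D := by
      have hrad : ∀ m ∈ SN M, ∃ j : ℕ, 1 ≤ j ∧ m ^ j ∈ cent ((C ⊓ B : Subfield D) : Set D) := by
        intro m hm
        by_contra h
        push Not at h
        obtain ⟨k, hk, c, hc, hc0, h1⟩ := lemma_II p (H := C ⊓ B) hM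
          (fun g hg x hx => ⟨hCn g hg x hx.1, hBn g hg x hx.2⟩) hm h
        have h2 : c ∈ cent ((C ⊓ B : Subfield D) : Set D) := fun s hs => hc.2 s hs.1
        have h3 := Subfield.mul_mem _ h1 (Subfield.inv_mem _ h2)
        rw [mul_assoc, mul_inv_cancel₀ hc0, mul_one] at h3
        exact h k hk h3
      intro u hu
      refine hCM u fun m hm => ?_
      by_cases hmK : m ∈ cent ((C ⊓ B : Subfield D) : Set D)
      · exact (hmK u hu).symm
      · obtain ⟨j, hj, e⟩ := hrad m hm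
        exact (fd_comm (L := C ⊓ B) (fun a ha b hb => hb.2 a ha.1) (SN.ne_zero hm)
          (fun x hx => ⟨hCn m hm x hx.1, hBn m hm x hx.2⟩) hj e hM hrad (Or.inl rfl) (Or.inr hu)
          hm hmK).symm
    have hZf : ((C ⊓ B : Subfield D).toSubring : Set D).Finite :=
      (Set.toFinite (Subring.center D : Set D)).subset hZ
    have final : ∀ m ∈ SN M, ∀ w : D, w ≠ 0 → w ∈ B → ¬ Tor w → m * w = w * m →
        ∃ r : ℕ, m ^ p ^ r ∈ B := by
      intro m hm w hw0 hwB hwt hmw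
      have hw1 : ∀ h ∈ C, w * h * w⁻¹ ∈ C := fun h hh => by
        rwa [← hwB h hh, mul_assoc, mul_inv_cancel₀ hw0, mul_one]
      have hw2 : ∀ h ∈ C, w⁻¹ * h * w ∈ C := fun h hh => by
        rwa [mul_assoc, hwB h hh, ← mul_assoc, inv_mul_cancel₀ hw0, one_mul]
      have hNr : Nr (C ⊓ B : Subfield D).toSubring w := fun h hh => ⟨h, hh, hwB h hh.1⟩
      have hI := indep hw0 hw1 hw2 (fun i0 s g hg h0 => by
        have h1 : ∀ i ∈ s, w⁻¹ * g i ∈ Ts hNr := by
          intro i hi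
          obtain ⟨h3, ⟨h, hh, e⟩, h4⟩ := hg i hi
          obtain ⟨l, hl⟩ : ∃ l, i - i0 = l + 1 := ⟨i - i0 - 1, by omega⟩
          have hB : h ∈ B := by
            have := B.mul_mem (B.inv_mem (pow_mem hwB (i - i0))) h4
            rwa [e, ← mul_assoc, inv_mul_cancel₀ (pow_ne_zero _ hw0), one_mul] at this
          rw [e, hl, pow_succ', mul_assoc, ← mul_assoc, inv_mul_cancel₀ hw0, one_mul]
          exact mul_mem (pow_mem (w_mem_Ts hNr) l) (H_le_Ts hNr ⟨hh, hB⟩)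
        obtain ⟨n, hn'⟩ := neg_mem (sum_mem h1)
        refine hwt (tor_of_inv_mem hZf hn' ?_)
        rw [← Finset.mul_sum, mul_neg, ← mul_assoc, mul_inv_cancel₀ hw0, one_mul]
        exact (eq_neg_of_add_eq_zero_left h0).symm)
      obtain ⟨r, hr⟩ := skew_jet hw0 hw1 hw2 (hind_of_indep _ hI) hM hCn hm hmw
      have hdlH : ∀ (k : ℕ), ∀ x ∈ C, (dl m ^ k) x ∈ C := by
        intro k x hx
        induction k with
        | zero => exact hx
        | succ k ih => rw [dl_pow_succ, dl_apply]; exact C.sub_mem ih (hCn _ hm _ ih)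
      refine ⟨r + 1, fun h hh => ?_⟩
      refine (comm_of_dl_pow p (SN.ne_zero hm) ?_).symm
      rw [dl_pow_succ, dl_eq_zero_iff (SN.ne_zero hm)]
      refine mem_center.1 (hZ _ ⟨hdlH r h hh, ?_⟩) _
      have := B.mul_mem (B.inv_mem hwB) (hr h hh)
      rwa [← mul_assoc, inv_mul_cancel₀ hw0, one_mul] at this
    obtain ⟨m, hm, hno⟩ : ∃ m ∈ SN M, ∀ j : ℕ, 1 ≤ j → m ^ j ∉ B := by
      by_contra h
      push Not at h
      refine hz' (hCM z fun m0 hm0 => ?_)
      suffices h0 : m0 ∈ B from (h0 z hz).symm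
      by_contra h0
      obtain ⟨j0, hj0, e0⟩ := h m0 hm0
      obtain ⟨j, l, -, hl, h1, h2⟩ := prime_red (· ∈ B) m0 j0 hj0 e0 h0
      have hm := SN.pow hm0 j
      generalize m0 ^ j = m at hm h1 h2
      have hm1 := SN.ne_zero hm
      by_cases hlp : l = p
      · subst hlp
        obtain ⟨c, hc, hc'⟩ : ∃ c ∈ C, c * m ≠ m * c := by
          by_contra h3
          push Not at h3
          exact h1 h3
        obtain ⟨b, hb⟩ := exists_shift hm1 (k := l ^ 1) (x := c) (by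
          rw [dl_pow_char]
          change c - (cj m ^ (l ^ 1)) c = 0
          rw [cj_pow_apply, pow_one, ← h2 c hc, mul_assoc, mul_inv_cancel₀ (pow_ne_zero _ hm1),
            mul_one, sub_self]) hc'.symm
        have hit : ∀ i : ℕ, m ^ i * b = (b + i) * m ^ i := by
          intro i
          induction i with
          | zero => simp
          | succ i ih =>
            have h1 : m * b = (b + 1) * m := by rw [← hb]; simp [hm1]
            rw [pow_succ', mul_assoc, ih, ← mul_assoc, mul_add, h1, ← (Nat.cast_commute i m).eq,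
              ← add_mul, mul_assoc, Nat.cast_succ]
            congr 1
            abel
        have := fd_comm1 hm1 (hb ▸ add_mem (self_mem_bic b) (one_mem _)) hl.one_le
          (by rw [hit, CharP.cast_eq_zero, add_zero]) hM h (Or.inl rfl) (Or.inr (self_mem_bic b))
          hm h1
        rw [← this, mul_assoc, mul_inv_cancel₀ hm1, mul_one] at hb
        simp at hb
      · have ht : ¬ Tor m := fun ht => h1 fun y _ => mem_center.1 (TL p hM h hm h1 ht) y
        obtain ⟨r, hr⟩ := final m hm _ (pow_ne_zero l hm1) h2 (fun h3 => ht (h3.of_pow hl.one_le))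
          (Commute.self_pow m l).eq
        obtain ⟨a, b, hab⟩ := Nat.isCoprime_iff_coprime.2
          (((Nat.coprime_primes hl hpr).2 hlp).pow_right r)
        apply h1
        have : m = (m ^ l) ^ a * (m ^ p ^ r) ^ b := by
          rw [← zpow_natCast, ← zpow_natCast, ← zpow_mul, ← zpow_mul, ← zpow_add₀ hm1,
            mul_comm _ a, mul_comm _ b, hab, zpow_one]
        rw [this]
        exact mul_mem (zpow_mem h2 a) (zpow_mem hr b)
    obtain ⟨x, hx, hxt⟩ : ∃ x ∈ SN X, ¬ Tor x := by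
      by_contra h
      push Not at h
      exact hnc (central_of_tor p hX h)
    obtain ⟨k, hk, c, hc, hc0, hb⟩ := lemma_II p hM hCn hm hno
    have hm0 := SN.ne_zero hm
    obtain ⟨j, hj, w, hw0, hwB, hwt, hmw⟩ : ∃ j : ℕ, 1 ≤ j ∧ ∃ w : D, w ≠ 0 ∧ w ∈ B ∧ ¬ Tor w ∧
        m ^ j * w = w * m ^ j := by
      have hcb : c * (m ^ k * c) = m ^ k * c * c := hb c hc
      have hcm : Commute (m ^ k) c := by
        apply mul_right_cancel₀ hc0
        rw [← hcb, mul_assoc]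
      by_cases ht : Tor (m ^ k * c)
      · obtain ⟨s, hs, e⟩ := ht
        refine ⟨k * s, Nat.mul_pos hk hs, x, SN.ne_zero hx, fun u hu => (hu x hx).symm, hxt, ?_⟩
        rw [hcm.mul_pow, ← pow_mul] at e
        have : m ^ (k * s) ∈ C := by
          rw [eq_inv_of_mul_eq_one_left e]
          exact C.inv_mem (pow_mem hc s)
        exact (this x hx).symm
      · refine ⟨k, hk, _, mul_ne_zero (pow_ne_zero _ hm0) hc0, hb, ht, ?_⟩
        rw [mul_assoc, ← hcm.eq]
    obtain ⟨r, hr⟩ := final _ (SN.pow hm j) w hw0 hwB hwt hmw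
    exact hno (j * p ^ r) (Nat.mul_pos hj (Nat.one_le_pow _ _ hpr.pos)) (by rwa [pow_mul])

/-- the centralizer theorem -/
theorem CC_all : CC D := by
  rcases finite_or_infinite (Subring.center D) with h1 | h1
  · exact CC_of_finite
  · exact CC_of_infinite

/-- the main reduction -/
theorem QQP_of_local {P : ℕ → Prop} (hP : Dir P)
    (h : ∀ x y : D, ∃ E : Subfield D, x ∈ E ∧ y ∈ E ∧ FC E ∧ HCP P E) : QQP P D :=
  QQP_of_pairs fun x y => by
    obtain ⟨E, h1, h2, h3, h4⟩ := h x y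
    exact ⟨E, h1, h2, QQP_of_FC hP CC_all h3 h4⟩

end Pool.Agent.Work.MP_b4cb8e_al
end

-- merged part: Pool.Agent.Work.MP_b4cb8e_al.Good
section
set_option autoImplicit false

namespace Pool.Agent.Work.MP_b4cb8e_al

open Polynomial Filter

universe u

lemma factor_quad {F : Type u} [Field F] {l : ℕ} (hl : l.Prime) (hl0 : (l : F) ≠ 0) {q : F[X]}
    (h1 : 0 < q.natDegree) (h2 : q.natDegree ≤ 2) (hq : q ∣ cyclotomic l F) :
    (∃ η : F, η ≠ 1 ∧ η ^ l = 1) ∨ ∃ s : List F[X], (∀ m ∈ s, ∃ β γ : F, γ ≠ 0 ∧ 1 + β + γ ≠ 0 ∧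
      m = X ^ 2 + C β * X + C γ) ∧ cyclotomic l F ∣ s.prod := by
  classical
  by_cases hη : ∃ η : F, η ≠ 1 ∧ η ^ l = 1
  · exact Or.inl hη
  right
  obtain ⟨g, hg, hgq⟩ := exists_irreducible_of_natDegree_pos h1
  have hq0 : q ≠ 0 := by
    rintro rfl
    simp at h1
  have : Fact (Irreducible g) := ⟨hg⟩
  have hfr : Module.finrank F (AdjoinRoot g) ≤ 2 := by
    rw [(AdjoinRoot.powerBasis hg.ne_zero).finrank, AdjoinRoot.powerBasis_dim]
    exact (natDegree_le_of_dvd hgq hq0).trans h2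
  have : Module.Finite F (AdjoinRoot g) := (AdjoinRoot.powerBasis hg.ne_zero).finite
  have : NeZero (l : AdjoinRoot g) := ⟨by
    rw [← map_natCast (algebraMap F (AdjoinRoot g))]
    exact (_root_.map_ne_zero _).2 hl0⟩
  have hζ : IsPrimitiveRoot (AdjoinRoot.root g) l := by
    rw [← isRoot_cyclotomic_iff, ← map_cyclotomic l (algebraMap F (AdjoinRoot g))]
    exact (AdjoinRoot.isRoot_root g).dvd (Polynomial.map_dvd _ (hgq.trans hq))
  refine ⟨(primitiveRoots l (AdjoinRoot g)).toList.map (minpoly F), fun m hm => ?_, ?_⟩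
  · obtain ⟨μ, hμ, rfl⟩ := List.mem_map.1 hm
    rw [Finset.mem_toList, mem_primitiveRoots hl.pos] at hμ
    have hint : IsIntegral F μ := IsIntegral.of_finite F μ
    have hne : (minpoly F μ).natDegree ≠ 1 := by
      intro h
      obtain ⟨η, rfl⟩ := minpoly.natDegree_eq_one_iff.1 h
      refine hη ⟨η, ?_, (algebraMap F (AdjoinRoot g)).injective (by simpa using hμ.pow_eq_one)⟩
      rintro rfl
      exact hμ.ne_one hl.one_lt (map_one _)
    have hd : (minpoly F μ).natDegree = 2 := by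
      have := minpoly.natDegree_pos hint
      have := minpoly.natDegree_le (A := F) μ
      omega
    have hroot : ∀ c : F, (minpoly F μ).eval c ≠ 0 := fun c hc =>
      hne (natDegree_eq_of_degree_eq_some
        (degree_eq_one_of_irreducible_of_root (minpoly.irreducible hint) hc))
    have e : minpoly F μ = X ^ 2 + C ((minpoly F μ).coeff 1) * X + C ((minpoly F μ).coeff 0) := by
      have h3 := (minpoly.monic hint).as_sum
      rw [hd] at h3
      rw [h3]
      simp [Finset.sum_range_succ, coeff_X, coeff_C]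
      ring
    refine ⟨_, _, ?_, ?_, e⟩
    · have := hroot 0
      rwa [← coeff_zero_eq_eval_zero] at this
    · have := hroot 1
      rw [e] at this
      simpa using this
  · rw [← map_dvd_map' (algebraMap F (AdjoinRoot g)), map_cyclotomic,
      cyclotomic_eq_prod_X_sub_primitiveRoots hζ, Finset.prod_map_toList, Polynomial.map_prod]
    refine Finset.prod_dvd_prod_of_dvd _ _ fun μ _ => dvd_iff_isRoot.2 ?_
    rw [IsRoot.def, eval_map_algebraMap, minpoly.aeval]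

variable {D : Type u} [DivisionRing D]

lemma rad_K {N : Subgroup Dˣ}
    (hrad : ∀ x ∈ SN N, ∃ m : ℕ, 1 ≤ m ∧ x ^ m ∈ Subring.center D) :
    ∀ x ∈ SN N, ∃ m : ℕ, 1 ≤ m ∧ x ^ m ∈ cent (Set.univ : Set D) := by
  simpa only [mem_cent_univ] using hrad

/-- prime order modulo the centre, with a root of unity in the centre -/
lemma root_central {N : Subgroup Dˣ} (hN : N.IsSubnormal)
    (hrad : ∀ x ∈ SN N, ∃ m : ℕ, 1 ≤ m ∧ x ^ m ∈ Subring.center D) {a : D} (ha : a ∈ SN N)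
    {l : ℕ} (hl : l.Prime) (hl0 : (l : D) ≠ 0) (h4 : a ^ l ∈ Subring.center D) {ζ : D}
    (hζ : ζ ∈ Subring.center D) (hζ1 : ζ ≠ 1) (hζl : ζ ^ l = 1) : a ∈ Subring.center D := by
  by_contra h3
  have : Fact l.Prime := ⟨hl⟩
  have ho : orderOf ζ = l := orderOf_eq_prime hζl hζ1
  obtain ⟨y, hy0, i, hi, hy⟩ := eigen (SN.ne_zero ha) (mem_center.1 hζ a) hl0 hζl
    (fun j hj hj' => pow_ne_one_of_lt_orderOf hj.ne' (ho ▸ hj')) h4 h3
  have ha1 := SN.ne_zero ha
  have e1 : y * a = ζ ^ i * (a * y) := by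
    calc y * a = ζ ^ i * (a * y * a⁻¹) * a := by rw [hy]
      _ = _ := by simp [mul_assoc, ha1]
  have e2 : ∀ n : ℕ, y ^ n * a = (ζ ^ i) ^ n * (a * y ^ n) := by
    intro n
    induction n with
    | zero => simp
    | succ n ih =>
      rw [pow_succ' y, mul_assoc, ih, ← mul_assoc, mem_center.1 (pow_mem (pow_mem hζ i) n) y,
        mul_assoc, ← mul_assoc y, e1, pow_succ (ζ ^ i)]
      simp only [mul_assoc]
  have e3 : y ^ l * a = a * y ^ l := by
    rw [e2, ← pow_mul, mul_comm i l, pow_mul, hζl, one_pow, one_mul]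
  have e4 : y * a * y⁻¹ = ζ ^ i * a := by rw [e1]; simp [mul_assoc, hy0]
  have h5 := fd_comm1 hy0 (e4 ▸ mul_mem (center_mem_bic a (pow_mem hζ i)) (self_mem_bic a))
    hl.one_le e3.symm hN (rad_K hrad) (Or.inr (self_mem_bic a)) (Or.inl rfl) ha
    (by rwa [mem_cent_univ])
  rw [h5] at e1
  exact hi (mul_right_cancel₀ (mul_ne_zero ha1 hy0) (by rw [one_mul]; exact e1.symm))

/-- the quadratic case -/
lemma quad_central {N : Subgroup Dˣ} (hN : N.IsSubnormal)
    (hrad : ∀ x ∈ SN N, ∃ m : ℕ, 1 ≤ m ∧ x ^ m ∈ Subring.center D) {a : D} (ha : a ∈ SN N)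
    {l : ℕ} (hl : l.Prime) (hl0 : (l : D) ≠ 0) (h4 : a ^ l ∈ Subring.center D) {β γ y : D}
    (hβ : β ∈ Subring.center D) (hγ : γ ∈ Subring.center D) (hγ0 : γ ≠ 0) (h1 : 1 + β + γ ≠ 0)
    (hy0 : y ≠ 0) (e : a * (a * y * a⁻¹) * a⁻¹ + β * (a * y * a⁻¹) + γ * y = 0) :
    a ∈ Subring.center D := by
  by_contra h3
  have ha0 := SN.ne_zero ha
  have hβ' := mem_center.1 hβ
  have hγ' := mem_center.1 hγ
  obtain ⟨u, hu⟩ : ∃ u, y * a = a * u * y := ⟨a⁻¹ * (y * a * y⁻¹), by simp [mul_assoc, ha0, hy0]⟩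
  have hu0 : u ≠ 0 := by
    rintro rfl
    simp [ha0, hy0] at hu
  have e1 : a + β * (a * u) + γ * (u * a * u) = 0 := by
    have h5 : (a * (a * y * a⁻¹) * a⁻¹ + β * (a * y * a⁻¹) + γ * y) * (a * a) = 0 := by
      rw [e, zero_mul]
    have h6 : (a * (a * y * a⁻¹) * a⁻¹ + β * (a * y * a⁻¹) + γ * y) * (a * a) =
        a * (a + β * (a * u) + γ * (u * a * u)) * y := by
      have t1 : a * (a * y * a⁻¹) * a⁻¹ * (a * a) = a * a * y := by simp [mul_assoc, ha0]
      have t2 : β * (a * y * a⁻¹) * (a * a) = a * (β * (a * u)) * y := by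
        rw [← mul_assoc a β, hβ' a]
        simp only [mul_assoc, ha0, inv_mul_cancel_left₀, ne_eq, not_false_eq_true]
        rw [hu]
        simp only [mul_assoc]
      have t3 : γ * y * (a * a) = a * (γ * (u * a * u)) * y := by
        rw [← mul_assoc a γ, hγ' a, mul_assoc γ, ← mul_assoc y, hu, mul_assoc (a * u), hu]
        simp only [mul_assoc]
      rw [add_mul, add_mul, t1, t2, t3]
      noncomm_ring
    rw [h6] at h5
    exact (mul_eq_zero.1 ((mul_eq_zero.1 h5).resolve_right hy0)).resolve_left ha0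
  have e2 : a⁻¹ * u * a⁻¹⁻¹ = -(γ⁻¹ * (1 + β * u) * u⁻¹) := by
    rw [inv_inv]
    apply mul_left_cancel₀ (mul_ne_zero ha0 hγ0)
    apply mul_right_cancel₀ hu0
    have t1 : a * γ * (a⁻¹ * u * a) * u = γ * (u * a * u) := by
      rw [hγ' a]
      simp [mul_assoc, ha0]
    have t2 : a * γ * -(γ⁻¹ * (1 + β * u) * u⁻¹) * u = -(a + β * (a * u)) := by
      rw [← mul_assoc β, ← hβ' a]
      simp [mul_assoc, hγ0, hu0, mul_add]
    rw [t1, t2]
    exact eq_neg_of_add_eq_zero_right e1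
  have hK : a⁻¹ ∉ cent (Set.univ : Set D) := fun h =>
    h3 (mem_cent_univ.1 (by simpa using Subfield.inv_mem _ h))
  have h5 : u * a⁻¹ = a⁻¹ * u := fd_comm1 (u := u) (inv_ne_zero ha0)
    (e2 ▸ neg_mem (mul_mem (mul_mem (inv_mem (center_mem_bic u hγ)) (add_mem (one_mem _)
      (mul_mem (center_mem_bic u hβ) (self_mem_bic u)))) (inv_mem (self_mem_bic u)))) hl.one_le
    (by rw [inv_pow]; exact (Commute.inv_right₀ (a := u) (mem_center.1 h4 u)).eq) hN (rad_K hrad)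
    (Or.inl rfl) (Or.inr (self_mem_bic u)) (SN.inv ha) hK
  have hua : Commute u a := by simpa using Commute.inv_right₀ (a := u) (b := a⁻¹) h5
  have e3 : 1 + β * u + γ * (u * u) = 0 := by
    apply mul_left_cancel₀ ha0
    rw [mul_zero, ← e1, hua.eq, mul_add, mul_add, mul_one, ← mul_assoc a β, ← mul_assoc a γ, hβ' a,
      hγ' a]
    simp only [mul_assoc]
  have hu1 : u ≠ 1 := by
    rintro rfl
    exact h1 (by simpa using e3)
  have hul : u ^ l = 1 := by
    have h6 : cjr hy0 a = a * u := by rw [cjr_apply, hu]; simp [hy0]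
    have h7 := congrArg (· ^ l) h6
    rw [← map_pow, cjr_apply, mem_center.1 h4 y, mul_assoc, mul_inv_cancel₀ hy0, mul_one,
      hua.symm.mul_pow] at h7
    exact (mul_left_cancel₀ (pow_ne_zero l ha0) (by rw [mul_one]; exact h7)).symm
  let E : Subfield D := cent {u}
  have haE : a ∈ E := by rintro _ rfl; exact hua.eq
  have huE : u ∈ E := by rintro _ rfl; rfl
  have h8 := root_central (D := E) (pull_subnormal E.subtype hN) (fun x hx => by
      obtain ⟨m, hm, e⟩ := hrad _ ((mem_pull _ _).1 hx)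
      exact ⟨m, hm, mem_center.2 fun w => Subtype.ext (mem_center.1 e w)⟩)
    (a := ⟨a, haE⟩) ((mem_pull _ _).2 ha) hl
    (fun h => hl0 (by simpa using congrArg Subtype.val h))
    (mem_center.2 fun w => Subtype.ext (mem_center.1 h4 w)) (ζ := ⟨u, huE⟩)
    (mem_center.2 fun w => Subtype.ext (w.2 _ rfl).symm) (fun h => hu1 (congrArg Subtype.val h))
    (Subtype.ext hul)
  have hab : a ∈ bic u := fun w hw => congrArg Subtype.val (mem_center.1 h8 ⟨w, hw⟩)
  have hj0 : u * y - y * u ≠ 0 := by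
    intro h
    have h9 := hab y (by rintro _ rfl; exact sub_eq_zero.1 h)
    rw [h9, mul_assoc] at hu
    exact hu1 (mul_right_cancel₀ hy0 (by rw [one_mul]; exact (mul_left_cancel₀ ha0 hu).symm))
  obtain ⟨s, hs, r, hr, e4⟩ : ∃ s ∈ Subring.center D, ∃ r ∈ Subring.center D, u * u = s * u + r := by
    have hγi : γ⁻¹ ∈ Subring.center D := mem_cent_univ.1 (inv_mem (mem_cent_univ.2 hγ))
    refine ⟨-(γ⁻¹ * β), neg_mem (mul_mem hγi hβ), -γ⁻¹, neg_mem hγi, ?_⟩
    apply mul_left_cancel₀ hγ0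
    rw [eq_neg_of_add_eq_zero_right e3]
    simp [mul_add, ← mul_assoc, hγ0]
  have hs' := mem_center.1 hs
  have e5 : (u * y - y * u) * u = (s - u) * (u * y - y * u) := by
    have : (u * y - y * u) * u - (s - u) * (u * y - y * u) =
        (u * u) * y - y * (u * u) - s * (u * y - y * u) := by noncomm_ring
    rw [← sub_eq_zero, this, e4, add_mul, mul_add, mem_center.1 hr y, ← mul_assoc y, hs' y]
    noncomm_ring
  generalize hj : u * y - y * u = j at hj0 e5
  have h9 : j * a = a * j := fd_comm1 (u := u) hj0 (by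
      rw [e5, mul_assoc, mul_inv_cancel₀ hj0, mul_one]
      exact sub_mem (center_mem_bic u hs) (self_mem_bic u)) (n := 2) (by norm_num) (by
      rw [sq, mul_assoc, e5, ← mul_assoc j, mul_sub, hs' j, e5]
      noncomm_ring) hN (rad_K hrad) (Or.inr hab) (Or.inl rfl) ha (by rwa [mem_cent_univ])
  have h10 : j * a = a * (u * j) := by
    rw [← hj, sub_mul, mul_assoc u, hu, mul_assoc y, hua.eq, ← mul_assoc y, hu, ← mul_assoc,
      ← mul_assoc, hua.eq]
    noncomm_ring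
  rw [h10] at h9
  exact hu1 (mul_right_cancel₀ hj0 (by rw [one_mul]; exact mul_left_cancel₀ ha0 h9))

/-- conjugation as a linear map over the centre -/
def adl (a : D) : Module.End (Subring.center D) D where
  toFun x := a * x * a⁻¹
  map_add' x y := by simp [mul_add, add_mul]
  map_smul' c x := by simp

lemma adl_apply (a x : D) : adl a x = a * x * a⁻¹ := rfl

lemma adl_pow (a : D) (n : ℕ) (x : D) : (adl a ^ n) x = a ^ n * x * (a ^ n)⁻¹ := by
  induction n with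
  | zero => simp
  | succ n ih =>
    rw [pow_succ', Module.End.mul_apply, ih, adl_apply, pow_succ' a n, mul_inv_rev]
    simp [mul_assoc]

/-- primes whose cyclotomic polynomial has a factor of degree one or two over the centre -/
def Gd (D : Type u) [DivisionRing D] (l : ℕ) : Prop :=
  ∃ q : (Subring.center D)[X], 0 < q.natDegree ∧ q.natDegree ≤ 2 ∧
    q ∣ cyclotomic l (Subring.center D)

lemma good_central {N : Subgroup Dˣ} (hN : N.IsSubnormal)
    (hrad : ∀ x ∈ SN N, ∃ m : ℕ, 1 ≤ m ∧ x ^ m ∈ Subring.center D) {a : D} (ha : a ∈ SN N)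
    {l : ℕ} (hl : l.Prime) (hg : Gd D l) (h4 : a ^ l ∈ Subring.center D) :
    a ∈ Subring.center D := by
  by_cases hl0 : (l : D) = 0
  · exact rad_char hN hrad ha hl hl0 h4
  obtain ⟨q, h1, h2, hq⟩ := hg
  have ha0 := SN.ne_zero ha
  rcases factor_quad hl (fun h => hl0 (by simpa using congrArg Subtype.val h)) h1 h2 hq with
    ⟨η, h5, h6⟩ | ⟨s, hs, hd⟩
  · exact root_central hN hrad ha hl hl0 h4 η.2 (fun h => h5 (Subtype.ext h))
      (congrArg Subtype.val h6)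
  by_contra h3
  have hinj : ∀ m ∈ s, ∀ y, aeval (adl a) m y = 0 → y = 0 := by
    intro m hm y hy
    obtain ⟨β, γ, h5, h6, rfl⟩ := hs m hm
    by_contra hy0
    refine h3 (quad_central hN hrad ha hl hl0 h4 β.2 γ.2 (fun h => h5 (Subtype.ext h))
      (fun h => h6 (Subtype.ext h)) hy0 ?_)
    simpa [sq, adl_apply, Algebra.algebraMap_eq_smul_one, Subring.smul_def] using hy
  have hinj' : ∀ y, aeval (adl a) s.prod y = 0 → y = 0 := by
    clear hs hd
    induction s with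
    | nil => intro y hy; simpa using hy
    | cons m s ih =>
      intro y hy
      rw [List.prod_cons, map_mul, Module.End.mul_apply] at hy
      exact ih (fun m hm => hinj m (List.mem_cons_of_mem _ hm)) y
        (hinj m List.mem_cons_self _ hy)
  apply h3
  rw [mem_center]
  intro x
  have : Fact l.Prime := ⟨hl⟩
  obtain ⟨c, hc⟩ := hd
  have h7 : aeval (adl a) (s.prod * (X - 1)) x = 0 := by
    rw [hc, mul_comm _ c, mul_assoc, cyclotomic_prime_mul_X_sub_one, map_mul, Module.End.mul_apply]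
    have : aeval (adl a) (X ^ l - 1 : (Subring.center D)[X]) x = 0 := by
      simp only [map_sub, map_pow, aeval_X, map_one, LinearMap.sub_apply, adl_pow]
      rw [← mem_center.1 h4 x]
      simp [pow_ne_zero l ha0]
    rw [this, map_zero]
  rw [map_mul, Module.End.mul_apply] at h7
  have h8 := hinj' _ h7
  simp only [map_sub, aeval_X, map_one, LinearMap.sub_apply, adl_apply, Module.End.one_apply]
    at h8
  calc x * a = a * x * a⁻¹ * a := by rw [sub_eq_zero.1 h8]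
    _ = a * x := by simp [ha0]

lemma good_pow {N : Subgroup Dˣ} (hN : N.IsSubnormal)
    (hrad : ∀ x ∈ SN N, ∃ m : ℕ, 1 ≤ m ∧ x ^ m ∈ Subring.center D) {a : D} (ha : a ∈ SN N)
    {g : ℕ} (hg0 : 1 ≤ g) (hg : ∀ l : ℕ, l.Prime → l ∣ g → Gd D l)
    (h : a ^ g ∈ Subring.center D) : a ∈ Subring.center D := by
  induction g using Nat.strong_induction_on with
  | _ g ih =>
    by_cases h1 : g = 1
    · simpa [h1] using h
    obtain ⟨l, hl, m, rfl⟩ := Nat.exists_prime_and_dvd h1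
    have hm : 1 ≤ m := Nat.pos_of_mul_pos_left hg0
    refine ih m (by have := hl.one_lt; nlinarith) hm (fun l' h1 h2 => hg l' h1 (h2.mul_left l)) ?_
    exact good_central hN hrad (SN.pow ha m) hl (hg l hl (dvd_mul_right l m))
      (by rwa [← pow_mul, mul_comm])

/-- bounded exponent modulo the centre -/
theorem HC_bounded {N : Subgroup Dˣ} (hN : N.IsSubnormal) {n : ℕ} (hn : 1 ≤ n)
    (h : ∀ x ∈ SN N, x ^ n ∈ Subring.center D) : ∀ x ∈ SN N, x ∈ Subring.center D := by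
  have hrad : ∀ x ∈ SN N, ∃ m : ℕ, 1 ≤ m ∧ x ^ m ∈ Subring.center D := fun x hx => ⟨n, hn, h x hx⟩
  rcases finite_or_infinite (Subring.center D) with h1 | h1
  · exact HC_of_finite N hN hrad
  induction n using Nat.strong_induction_on with
  | _ n ih =>
    by_cases h0 : (n : D) = 0
    · obtain ⟨p, hp⟩ := CharP.exists D
      obtain ⟨c, rfl⟩ := (CharP.cast_eq_zero_iff D p n).1 h0
      have hc : 1 ≤ c := Nat.pos_of_mul_pos_left hn
      have hpr : p.Prime := (CharP.char_is_prime_or_zero D p).resolve_right (by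
        rintro rfl
        simp at hn)
      exact ih c (by have := hpr.one_lt; nlinarith) hc fun x hx =>
        rad_char hN hrad (SN.pow hx c) hpr (CharP.cast_eq_zero D p)
          (by rw [← pow_mul, mul_comm]; exact h x hx)
    · intro a ha
      obtain ⟨r, hr⟩ := absorb hN
      refine rad_dl hN hrad ha (r := r) fun x y => ?_
      have := ((Rt.ds (SN.ne_zero ha) x r).pow n).comm (z := y) (Eventually.frequently (by
        filter_upwards [lin_ne_zero x] with t ht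
        exact mem_center.1 (h _ (hr a ha _ ht)) y))
      apply mul_left_cancel₀ h0
      rw [← mul_assoc, (Nat.cast_commute n y).eq, mul_assoc, this, mul_assoc]

/-- the inclusion of the centre of `D` in the centre of a division subring containing it -/
def cincl (E : Subfield D) (h : ∀ c ∈ Subring.center D, c ∈ E) :
    Subring.center D →+* Subring.center E where
  toFun c := ⟨⟨c, h c c.2⟩, mem_center.2 fun e => Subtype.ext (mem_center.1 c.2 e)⟩
  map_one' := rfl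
  map_mul' _ _ := rfl
  map_zero' := rfl
  map_add' _ _ := rfl

lemma Gd.sub {l : ℕ} (hg : Gd D l) (E : Subfield D) (h : ∀ c ∈ Subring.center D, c ∈ E) :
    Gd E l := by
  obtain ⟨q, h1, h2, hq⟩ := hg
  refine ⟨q.map (cincl E h), by rwa [natDegree_map], by rwa [natDegree_map], ?_⟩
  rw [← map_cyclotomic l (cincl E h)]
  exact Polynomial.map_dvd _ hq

lemma local_pairs {P : ℕ → Prop} (hP : Dir P)
    (h : ∀ E : Subfield D, (∀ c ∈ Subring.center D, c ∈ E) → HCP P E) : QQP P D := by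
  classical
  refine QQP_of_local hP fun x y =>
    ⟨Subfield.closure ((Subring.center D : Set D) ∪ ({x, y} : Finset D)),
      Subfield.subset_closure (by simp), Subfield.subset_closure (by simp),
      FC_closure _ _ fun s hs e _ => mem_center.1 hs e,
      h _ fun c hc => Subfield.subset_closure (Or.inl hc)⟩

/-- exponents with bounded bad part -/
theorem QQP_good (n : ℕ) (hn : 1 ≤ n) :
    QQP (fun m => ∃ g, 1 ≤ g ∧ (∀ l : ℕ, l.Prime → l ∣ g → Gd D l) ∧ m = n * g) D := by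
  refine local_pairs ?_ fun E hE N hN hrad => HC_bounded hN hn fun x hx => ?_
  · rintro _ _ ⟨g1, h1, h2, rfl⟩ ⟨g2, h3, h4, rfl⟩
    exact ⟨n * (g1 * g2), ⟨g1 * g2, Nat.mul_pos h1 h3, fun l hl hd =>
      ((Nat.Prime.dvd_mul hl).1 hd).elim (h2 l hl) (h4 l hl), rfl⟩,
      mul_dvd_mul_left n (dvd_mul_right _ _), mul_dvd_mul_left n (dvd_mul_left _ _)⟩
  · obtain ⟨_, ⟨g, h1, h2, rfl⟩, e⟩ := hrad x hx
    refine good_pow hN (fun y hy => ?_) (SN.pow hx n) h1 (fun l hl hd => (h2 l hl hd).sub E hE)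
      (by rwa [← pow_mul])
    obtain ⟨_, ⟨g, h1, -, rfl⟩, e⟩ := hrad y hy
    exact ⟨n * g, Nat.mul_pos hn h1, e⟩

lemma forall_SN {N : Subgroup Dˣ} {P : D → Prop} : (∀ x ∈ SN N, P x) ↔ ∀ x ∈ N, P (x : D) := by
  constructor
  · exact fun h x hx => h x (SN.coe.2 hx)
  · rintro h _ ⟨u, hu, rfl⟩
    exact h u hu

end Pool.Agent.Work.MP_b4cb8e_al
end
end
end

-- merged part: Pool.Agent.Work.MP_b4cb8e_al.Crit
section
-- merged part: Pool.Agent.Work.MP_b4cb8e_al.Adic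
section
set_option autoImplicit false

namespace Pool.Agent.Work.MP_b4cb8e_al

universe u

variable {D : Type u} [DivisionRing D]

/-- the multiples `c B` -/
def Ml (B : Subring D) (c : D) : AddSubgroup D where
  carrier := {z | ∃ b ∈ B, z = c * b}
  zero_mem' := ⟨0, B.zero_mem, by simp⟩
  add_mem' := by
    rintro _ _ ⟨b, hb, rfl⟩ ⟨b', hb', rfl⟩
    exact ⟨b + b', B.add_mem hb hb', by rw [mul_add]⟩
  neg_mem' := by
    rintro _ ⟨b, hb, rfl⟩
    exact ⟨-b, B.neg_mem hb, by simp⟩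

lemma mem_Ml {B : Subring D} {c z : D} : z ∈ Ml B c ↔ ∃ b ∈ B, z = c * b := Iff.rfl

/-- the intersection of all `ρ ^ k B` -/
def Pw (B : Subring D) (ρ : D) : AddSubgroup D where
  carrier := {z | ∀ k : ℕ, z ∈ Ml B (ρ ^ k)}
  zero_mem' := fun _ => zero_mem _
  add_mem' := fun hx hy k => add_mem (hx k) (hy k)
  neg_mem' := fun hx k => neg_mem (hx k)

lemma mem_Pw {B : Subring D} {ρ z : D} : z ∈ Pw B ρ ↔ ∀ k : ℕ, z ∈ Ml B (ρ ^ k) := Iff.rfl

section

variable {B : Subring D} {ρ : D}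

lemma Ml.mul_right {c z y : D} (hz : z ∈ Ml B c) (hy : y ∈ B) : z * y ∈ Ml B c := by
  obtain ⟨b, hb, rfl⟩ := hz
  exact ⟨b * y, B.mul_mem hb hy, mul_assoc _ _ _⟩

lemma Ml.mul_left {c z y : D} (hc : c ∈ Subring.center D) (hy : y ∈ B) (hz : z ∈ Ml B c) :
    y * z ∈ Ml B c := by
  obtain ⟨b, hb, rfl⟩ := hz
  exact ⟨y * b, B.mul_mem hy hb, by rw [← mul_assoc, mem_center.1 hc y, mul_assoc]⟩

lemma Ml.mul {c d z y : D} (hd : d ∈ Subring.center D) (hz : z ∈ Ml B c) (hy : y ∈ Ml B d) :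
    z * y ∈ Ml B (c * d) := by
  obtain ⟨b, hb, rfl⟩ := hz
  obtain ⟨b', hb', rfl⟩ := hy
  exact ⟨b * b', B.mul_mem hb hb', by
    rw [mul_assoc, ← mul_assoc b, mem_center.1 hd b]; simp only [mul_assoc]⟩

lemma Ml.mem {c z : D} (hc : c ∈ B) (hz : z ∈ Ml B c) : z ∈ B := by
  obtain ⟨b, hb, rfl⟩ := hz
  exact B.mul_mem hc hb

lemma Ml.anti (hρ : ρ ∈ B) {j k : ℕ} (h : j ≤ k) {z : D} (hz : z ∈ Ml B (ρ ^ k)) :
    z ∈ Ml B (ρ ^ j) := by
  obtain ⟨b, hb, rfl⟩ := hz
  obtain ⟨i, rfl⟩ := Nat.exists_eq_add_of_le h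
  exact ⟨ρ ^ i * b, B.mul_mem (B.pow_mem hρ i) hb, by rw [pow_add, mul_assoc]⟩

lemma Ml.cancel (h0 : ρ ≠ 0) {k : ℕ} {z : D} (hz : ρ * z ∈ Ml B (ρ ^ (k + 1))) :
    z ∈ Ml B (ρ ^ k) := by
  obtain ⟨b, hb, e⟩ := hz
  exact ⟨b, hb, mul_left_cancel₀ h0 (by rw [e, pow_succ', mul_assoc])⟩

lemma Pw.mul_right {z y : D} (hz : z ∈ Pw B ρ) (hy : y ∈ B) : z * y ∈ Pw B ρ :=
  fun k => Ml.mul_right (hz k) hy

lemma Pw.mul_left (hF : ρ ∈ Subring.center D) {z y : D} (hy : y ∈ B) (hz : z ∈ Pw B ρ) :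
    y * z ∈ Pw B ρ :=
  fun k => Ml.mul_left (pow_mem hF k) hy (hz k)

lemma Pw.mem {z : D} (hz : z ∈ Pw B ρ) : z ∈ B := by
  simpa using Ml.mem (c := ρ ^ 0) (by simp) (hz 0)

lemma Pw.cancel (h0 : ρ ≠ 0) (j : ℕ) {z : D} (hz : ρ ^ j * z ∈ Pw B ρ) : z ∈ Pw B ρ := by
  induction j generalizing z with
  | zero => simpa using hz
  | succ j ih =>
    rw [pow_succ, mul_assoc] at hz
    exact fun k => Ml.cancel h0 (ih hz (k + 1))

lemma Pw.pow_sub (hF : ρ ∈ Subring.center D) {x y : D} (hx : x ∈ B) (hy : y ∈ B)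
    (h : x - y ∈ Pw B ρ) (i : ℕ) : x ^ i - y ^ i ∈ Pw B ρ := by
  induction i with
  | zero => simp
  | succ i ih =>
    have e : x ^ (i + 1) - y ^ (i + 1) = x ^ i * (x - y) + (x ^ i - y ^ i) * y := by
      rw [pow_succ, pow_succ]
      noncomm_ring
    rw [e]
    exact add_mem (Pw.mul_left hF (B.pow_mem hx i) h) (Pw.mul_right ih hy)

lemma near_mem (hρ : ρ ∈ B) {j : ℕ} {v : D} (hv : v - 1 ∈ Ml B (ρ ^ j)) : v ∈ B := by
  simpa using B.add_mem (Ml.mem (B.pow_mem hρ j) hv) B.one_mem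

lemma near_pow (hρ : ρ ∈ B) {j : ℕ} {v : D} (hv : v - 1 ∈ Ml B (ρ ^ j)) (i : ℕ) :
    v ^ i - 1 ∈ Ml B (ρ ^ j) := by
  induction i with
  | zero => simp
  | succ i ih =>
    have e : v ^ (i + 1) - 1 = (v ^ i - 1) * v + (v - 1) := by
      rw [pow_succ]
      noncomm_ring
    rw [e]
    exact add_mem (Ml.mul_right ih (near_mem hρ hv)) hv

lemma root_prime (hF : ρ ∈ Subring.center D) (hρ : ρ ∈ B) (h0 : ρ ≠ 0) {v w : D}
    (hv : v - 1 ∈ Ml B (ρ ^ 2)) (hw : w - 1 ∈ Ml B (ρ ^ 2)) {l : ℕ} {μ : D} (hμ : μ ∈ B)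
    (e : (l : D) * μ = ρ) (h : w ^ l - v ^ l ∈ Pw B ρ) : w - v ∈ Pw B ρ := by
  have hvB := near_mem hρ hv
  have hwB := near_mem hρ hw
  intro k
  induction k with
  | zero => exact ⟨w - v, B.sub_mem hwB hvB, by simp⟩
  | succ k ih =>
    have h1 : ∀ i : ℕ, w ^ i - v ^ i - i * (w - v) ∈ Ml B (ρ ^ (k + 2)) := by
      intro i
      induction i with
      | zero => simp
      | succ i ih' =>
        have e1 : w ^ (i + 1) - v ^ (i + 1) - (i + 1 : ℕ) * (w - v) =
            (w ^ i - 1) * (w - v) + (w ^ i - v ^ i - i * (w - v)) * v +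
              i * ((w - v) * (v - 1)) := by
          rw [pow_succ, pow_succ, Nat.cast_succ]
          noncomm_ring
        rw [e1]
        refine add_mem (add_mem ?_ (Ml.mul_right ih' hvB))
          (Ml.mul_left (pow_mem hF _) (natCast_mem B i) ?_)
        · rw [add_comm k 2, pow_add]
          exact Ml.mul (pow_mem hF _) (near_pow hρ hw i) ih
        · rw [pow_add]
          exact Ml.mul (pow_mem hF _) ih hv
    have h2 : (l : D) * (w - v) ∈ Ml B (ρ ^ (k + 2)) := by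
      simpa using sub_mem (h (k + 2)) (h1 l)
    have h3 := Ml.mul_left (pow_mem hF _) hμ h2
    rw [← mul_assoc, ← (Nat.cast_commute l μ).eq, e] at h3
    exact Ml.cancel h0 h3

lemma root_near (hF : ρ ∈ Subring.center D) (hρ : ρ ∈ B) (h0 : ρ ≠ 0)
    (h2 : ∀ l : ℕ, l.Prime → (l : D) ≠ 0 → ∃ μ ∈ B, (l : D) * μ = ρ) (n : ℕ) (hn : (n : D) ≠ 0)
    {v w : D} (hv : v - 1 ∈ Ml B (ρ ^ 2)) (hw : w - 1 ∈ Ml B (ρ ^ 2))
    (h : w ^ n - v ^ n ∈ Pw B ρ) : w - v ∈ Pw B ρ := by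
  induction n using Nat.strong_induction_on with
  | _ n ih =>
    by_cases h1 : n = 1
    · simpa [h1] using h
    obtain ⟨l, hl, m, rfl⟩ := Nat.exists_prime_and_dvd h1
    rw [Nat.cast_mul] at hn
    have hm : m ≠ 0 := by
      rintro rfl
      simp at hn
    obtain ⟨μ, hμ, e⟩ := h2 l hl (left_ne_zero_of_mul hn)
    refine ih m (lt_mul_of_one_lt_left (Nat.pos_of_ne_zero hm) hl.one_lt)
      (right_ne_zero_of_mul hn) ?_
    refine root_prime hF hρ h0 (near_pow hρ hv m) (near_pow hρ hw m) hμ e ?_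
    rwa [← pow_mul, ← pow_mul, mul_comm m l]

/-- congruence units -/
def Un (B : Subring D) (ρ : D) (j : ℕ) (u : D) : Prop :=
  u ≠ 0 ∧ u - 1 ∈ Ml B (ρ ^ j) ∧ u⁻¹ ∈ B

lemma Un.anti (hρ : ρ ∈ B) {j k : ℕ} (h : j ≤ k) {u : D} (hu : Un B ρ k u) : Un B ρ j u :=
  ⟨hu.1, Ml.anti hρ h hu.2.1, hu.2.2⟩

lemma Un.inv (hρ : ρ ∈ B) {j : ℕ} {u : D} (hu : Un B ρ j u) : Un B ρ j u⁻¹ := by
  refine ⟨inv_ne_zero hu.1, ?_, by simpa using near_mem hρ hu.2.1⟩
  have e : u⁻¹ - 1 = -((u - 1) * u⁻¹) := by simp [sub_mul, hu.1]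
  rw [e]
  exact neg_mem (Ml.mul_right hu.2.1 hu.2.2)

lemma Un.mul (hρ : ρ ∈ B) {j : ℕ} {u v : D} (hu : Un B ρ j u) (hv : Un B ρ j v) :
    Un B ρ j (u * v) := by
  refine ⟨mul_ne_zero hu.1 hv.1, ?_, by rw [mul_inv_rev]; exact B.mul_mem hv.2.2 hu.2.2⟩
  have e : u * v - 1 = (u - 1) * v + (v - 1) := by noncomm_ring
  rw [e]
  exact add_mem (Ml.mul_right hu.2.1 (near_mem hρ hv.2.1)) hv.2.1

variable {a : D}

lemma Ml.conj (hF : ρ ∈ Subring.center D) (h1 : ∀ e ∈ B, a * (ρ * e) * a⁻¹ ∈ B) {j : ℕ} {z : D}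
    (hz : z ∈ Ml B (ρ ^ (j + 1))) : a * z * a⁻¹ ∈ Ml B (ρ ^ j) := by
  obtain ⟨b, hb, rfl⟩ := hz
  refine ⟨_, h1 b hb, ?_⟩
  rw [pow_succ, mul_assoc (ρ ^ j), ← mul_assoc a, mem_center.1 (pow_mem hF j) a]
  simp only [mul_assoc]

lemma Un.conj (hF : ρ ∈ Subring.center D) (hρ : ρ ∈ B) (ha : a ≠ 0)
    (h1 : ∀ e ∈ B, a * (ρ * e) * a⁻¹ ∈ B) {j : ℕ} {u : D} (hu : Un B ρ (j + 1) u) :
    Un B ρ j (a * u * a⁻¹) := by
  have e : ∀ v : D, a * v * a⁻¹ - 1 = a * (v - 1) * a⁻¹ := fun v => by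
    simp [mul_sub, sub_mul, ha]
  refine ⟨by simp [ha, hu.1], e u ▸ Ml.conj hF h1 hu.2.1, ?_⟩
  have e2 : (a * u * a⁻¹)⁻¹ = a * u⁻¹ * a⁻¹ := by simp [mul_assoc]
  rw [e2]
  exact near_mem hρ (e _ ▸ Ml.conj hF h1 (hu.inv hρ).2.1)

lemma Un.ds (hF : ρ ∈ Subring.center D) (hρ : ρ ∈ B) (ha : a ≠ 0)
    (h1 : ∀ e ∈ B, a * (ρ * e) * a⁻¹ ∈ B) {x : D} (k : ℕ) {j : ℕ} (hx : Un B ρ (j + k) x) :
    Un B ρ j (ds a x k) := by
  induction k generalizing j with
  | zero => exact hx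
  | succ k ih =>
    have h := ih (j := j + 1) (by rwa [add_assoc, add_comm 1 k])
    exact (h.anti hρ (Nat.le_succ j)).mul hρ ((h.inv hρ).conj hF hρ ha h1)

lemma tele (ha : a ≠ 0) {v : D} (hv : v ≠ 0) (i : ℕ) :
    v * (a ^ (i + 1) * v⁻¹ * (a ^ (i + 1))⁻¹) =
      v * (a * v⁻¹ * a⁻¹) * (a * (v * (a ^ i * v⁻¹ * (a ^ i)⁻¹)) * a⁻¹) := by
  rw [pow_succ', mul_inv_rev]
  simp [mul_assoc, ha, hv]

lemma descend (hF : ρ ∈ Subring.center D) (hρ : ρ ∈ B) (h0 : ρ ≠ 0) (ha : a ≠ 0)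
    (h1 : ∀ e ∈ B, a * (ρ * e) * a⁻¹ ∈ B)
    (h2 : ∀ l : ℕ, l.Prime → (l : D) ≠ 0 → ∃ μ ∈ B, (l : D) * μ = ρ) {n : ℕ} (hn : (n : D) ≠ 0)
    (han : a ^ n ∈ Subring.center D) {x : D} (k : ℕ) (hx : Un B ρ (3 + k) x)
    (h : a * ds a x k * a⁻¹ - ds a x k ∈ Pw B ρ) : a * x * a⁻¹ - x ∈ Pw B ρ := by
  induction k with
  | zero => exact h
  | succ k ih =>
    refine ih (hx.anti hρ (by omega)) ?_
    have hv : Un B ρ 4 (ds a x k) := Un.ds hF hρ ha h1 k (by rwa [show 4 + k = 3 + (k + 1) by omega])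
    have hu : Un B ρ 3 (ds a x (k + 1)) := Un.ds hF hρ ha h1 (k + 1) hx
    rw [ds] at hu h
    set v := ds a x k
    set u := v * (a * v⁻¹ * a⁻¹) with hu'
    have huB := near_mem hρ hu.2.1
    have hsB := near_mem hρ (hu.conj hF hρ ha h1).2.1
    have key : ∀ i : ℕ, v * (a ^ i * v⁻¹ * (a ^ i)⁻¹) - u ^ i ∈ Pw B ρ := by
      intro i
      induction i with
      | zero => simp [hv.1]
      | succ i ih' =>
        rw [tele ha hv.1, ← hu']
        set w := v * (a ^ i * v⁻¹ * (a ^ i)⁻¹)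
        have e : u * (a * w * a⁻¹) - u ^ (i + 1) =
            u * (a * (w - u ^ i) * a⁻¹ + ((a * u * a⁻¹) ^ i - u ^ i)) := by
          have : (a * u * a⁻¹) ^ i = a * u ^ i * a⁻¹ := by
            rw [← cjr_apply ha, ← map_pow, cjr_apply]
          rw [this, pow_succ']
          noncomm_ring
        rw [e]
        exact Pw.mul_left hF huB (add_mem (fun j => Ml.conj hF h1 (ih' (j + 1)))
          (Pw.pow_sub hF hsB huB h i))
    have h3 := key n
    rw [← mem_center.1 han, mul_assoc, mul_inv_cancel₀ (pow_ne_zero n ha), mul_one,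
      mul_inv_cancel₀ hv.1] at h3
    have h4 : 1 - u ∈ Pw B ρ :=
      root_near hF hρ h0 h2 n hn (hu.anti hρ (by omega)).2.1 (by simp) (by simpa using h3)
    have h5 := Pw.mul_right h4 (near_mem hρ (hv.conj hF hρ ha h1).2.1)
    have e : (1 - u) * (a * v * a⁻¹) = a * v * a⁻¹ - v := by
      rw [hu', sub_mul, one_mul]
      simp [mul_assoc, ha, hv.1]
    rwa [e] at h5

end

/-- the adic argument -/
theorem adic_core {N : Subgroup Dˣ} (hN : N.IsSubnormal)
    (hrad : ∀ x ∈ SN N, ∃ m : ℕ, 1 ≤ m ∧ x ^ m ∈ Subring.center D) {a : D} (ha : a ∈ SN N) :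
    ∃ r : ℕ, 1 ≤ r ∧ ∀ (B : Subring D) (ρ : D), ρ ∈ Subring.center D → ρ ∈ B → ρ ≠ 0 →
      (∀ e ∈ B, a * (ρ * e) * a⁻¹ ∈ B) →
      (∀ l : ℕ, l.Prime → (l : D) ≠ 0 → ∃ μ ∈ B, (l : D) * μ = ρ) →
      ∀ b ∈ B, 1 + ρ ^ r * b ≠ 0 → (1 + ρ ^ r * b)⁻¹ ∈ B → a * b * a⁻¹ - b ∈ Pw B ρ := by
  obtain ⟨r, hr⟩ := absorb hN
  refine ⟨3 + r, by omega, fun B ρ hF hρ h0 h1 h2 b hb hb0 hb1 => ?_⟩
  have ha0 := SN.ne_zero ha
  obtain ⟨n, hn, han⟩ := rad_coprime hN hrad ha
  have hx : Un B ρ (3 + r) (1 + ρ ^ (3 + r) * b) := ⟨hb0, ⟨b, hb, by simp⟩, hb1⟩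
  obtain ⟨m, hm, hum⟩ := rad_coprime hN hrad (hr a ha _ hb0)
  have hu := Un.ds hF hρ ha0 h1 r hx
  have h3 := descend hF hρ h0 ha0 h1 h2 hn han r hx (root_near hF hρ h0 h2 m hm
    (hu.anti hρ (by omega)).2.1 (hu.conj hF hρ ha0 h1).2.1 (by
      rw [← cjr_apply ha0, ← map_pow, cjr_apply, mem_center.1 hum a]
      simp [ha0]))
  refine Pw.cancel h0 (3 + r) ?_
  convert h3 using 1
  rw [mul_add, add_mul, mul_one, mul_inv_cancel₀ ha0, ← mul_assoc a,
    mem_center.1 (pow_mem hF (3 + r)) a]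
  noncomm_ring

/-- radical elements congruent to one modulo a multiplicatively closed additive group without
central elements are trivial -/
lemma one_of_near {I : AddSubgroup D} (hI : ∀ x ∈ I, ∀ y ∈ I, x * y ∈ I)
    (hF : ∀ x ∈ I, x ∈ Subring.center D → x = 0) {u : D} (hu : u - 1 ∈ I) {m : ℕ}
    (hm : (m : D) ≠ 0) (h : u ^ m ∈ Subring.center D) : u = 1 := by
  have h1 : ∀ i : ℕ, u ^ i - 1 ∈ I := by
    intro i
    induction i with
    | zero => simp
    | succ i ih =>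
      have e : u ^ (i + 1) - 1 = (u ^ i - 1) * (u - 1) + (u ^ i - 1) + (u - 1) := by
        rw [pow_succ]
        noncomm_ring
      rw [e]
      exact add_mem (add_mem (hI _ ih _ hu) ih) hu
  by_contra hne
  have h2 := hF _ (h1 m) (sub_mem h (one_mem _))
  rw [← geom_sum_mul] at h2
  have h3 := (mul_eq_zero.1 h2).resolve_right (sub_ne_zero.2 hne)
  have h4 : -(m : D) ∈ I := by
    have := sum_mem (t := Finset.range m) fun i _ => h1 i
    rw [Finset.sum_sub_distrib, h3] at this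
    simpa using this
  exact hm (neg_eq_zero.1 (hF _ h4 (neg_mem (natCast_mem _ m))))

end Pool.Agent.Work.MP_b4cb8e_al
end

-- merged part: Pool.Agent.Work.MP_b4cb8e_al.Loc
section
set_option autoImplicit false

namespace Pool.Agent.Work.MP_b4cb8e_al

universe u

variable {D : Type u} [DivisionRing D]

/-- central localisation data: `B'` is a central localisation of `B` whose central part is local
with maximal ideal `M` -/
structure Loc (B B' : Subring D) (M : AddSubgroup D) : Prop where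
  le : B ≤ B'
  den : ∀ x ∈ B', ∃ s ∈ Subring.center D, s ∈ B ∧ s ≠ 0 ∧ s⁻¹ ∈ B' ∧ s * x ∈ B
  sub : ∀ x ∈ M, x ∈ B' ∧ x ∈ Subring.center D
  mul : ∀ x ∈ M, ∀ y ∈ B', y ∈ Subring.center D → x * y ∈ M
  one : (1 : D) ∉ M
  inv : ∀ x ∈ B', x ∈ Subring.center D → x ∉ M → x⁻¹ ∈ B'

lemma center_inv {s : D} (hs : s ∈ Subring.center D) : s⁻¹ ∈ Subring.center D :=
  mem_cent_univ.1 (inv_mem (mem_cent_univ.2 hs))

lemma exists_loc (B : Subring D) {π : D} (hπ : π ∈ B) (hF : π ∈ Subring.center D) (h0 : π ≠ 0)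
    (hinv : π⁻¹ ∉ B) : ∃ (B' : Subring D) (M : AddSubgroup D), Loc B B' M ∧ π ∈ M := by
  let O : Subring (Subring.center D) := B.comap (Subring.center D).subtype
  let p : O := ⟨⟨π, hF⟩, hπ⟩
  have hp : Ideal.span {p} ≠ ⊤ := by
    intro h
    rw [Ideal.span_singleton_eq_top, isUnit_iff_exists_inv] at h
    obtain ⟨y, hy⟩ := h
    have h1 : π * ((y : Subring.center D) : D) = 1 :=
      congrArg (fun z : O => ((z : Subring.center D) : D)) hy
    exact hinv (inv_eq_of_mul_eq_one_right h1 ▸ y.2)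
  obtain ⟨m, hm, hpm⟩ := Ideal.exists_le_maximal _ hp
  let c : O → D := fun z => ((z : Subring.center D) : D)
  have cF : ∀ s : O, c s ∈ Subring.center D := fun s => (s : Subring.center D).2
  have cB : ∀ s : O, c s ∈ B := fun s => s.2
  have cm : ∀ s t : O, c (s * t) = c s * c t := fun _ _ => rfl
  have c0 : ∀ s : O, s ∉ m → c s ≠ 0 := fun s hs h =>
    hs ((show s = 0 from Subtype.ext (Subtype.ext h)) ▸ m.zero_mem)
  have hmul : ∀ s t : O, s ∉ m → t ∉ m → s * t ∉ m := fun s t hs ht h =>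
    (hm.isPrime.mem_or_mem h).elim hs ht
  have h1m : (1 : O) ∉ m := (Ideal.ne_top_iff_one m).1 hm.ne_top
  have e1 : ∀ (s t : O) (x y : D), c (s * t) * (x * y) = (c s * x) * (c t * y) := by
    intro s t x y
    rw [cm, mul_assoc, ← mul_assoc (c t), ← mem_center.1 (cF t) x]
    simp only [mul_assoc]
  have e2 : ∀ (s t : O) (x y : D), c (s * t) * (x + y) = c t * (c s * x) + c s * (c t * y) := by
    intro s t x y
    rw [mul_add, ← mul_assoc, ← mul_assoc, ← cm, ← cm, mul_comm t s]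
  let B' : Subring D :=
    { carrier := {x | ∃ s : O, s ∉ m ∧ c s * x ∈ B}
      mul_mem' := by
        rintro x y ⟨s, hs, hx⟩ ⟨t, ht, hy⟩
        exact ⟨s * t, hmul s t hs ht, e1 s t x y ▸ B.mul_mem hx hy⟩
      one_mem' := ⟨1, h1m, by simpa using cB 1⟩
      add_mem' := by
        rintro x y ⟨s, hs, hx⟩ ⟨t, ht, hy⟩
        exact ⟨s * t, hmul s t hs ht,
          e2 s t x y ▸ B.add_mem (B.mul_mem (cB t) hx) (B.mul_mem (cB s) hy)⟩
      zero_mem' := ⟨1, h1m, by simp⟩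
      neg_mem' := by
        rintro x ⟨s, hs, hx⟩
        exact ⟨s, hs, by simpa using B.neg_mem hx⟩ }
  let M : AddSubgroup D :=
    { carrier := {x | ∃ s : O, s ∉ m ∧ ∃ t ∈ m, c s * x = c t}
      add_mem' := by
        rintro x y ⟨s, hs, s', hs', hx⟩ ⟨t, ht, t', ht', hy⟩
        exact ⟨s * t, hmul s t hs ht, t * s' + s * t',
          m.add_mem (m.mul_mem_left _ hs') (m.mul_mem_left _ ht'), by rw [e2, hx, hy]; rfl⟩
      zero_mem' := ⟨1, h1m, 0, m.zero_mem, by rw [mul_zero]; rfl⟩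
      neg_mem' := by
        rintro x ⟨s, hs, s', hs', hx⟩
        exact ⟨s, hs, -s', m.neg_mem hs', by rw [mul_neg, hx]; rfl⟩ }
  have c1 : ∀ x : D, c 1 * x = x := fun x => one_mul x
  refine ⟨B', M, ⟨fun x hx => ⟨1, h1m, by rwa [c1]⟩, ?_, ?_, ?_, ?_, ?_⟩,
    ⟨1, h1m, p, hpm (Ideal.mem_span_singleton_self p), c1 π⟩⟩
  · rintro x ⟨s, hs, hx⟩
    exact ⟨c s, cF s, cB s, c0 s hs,
      ⟨s, hs, by rw [mul_inv_cancel₀ (c0 s hs)]; exact B.one_mem⟩, hx⟩
  · rintro x ⟨s, hs, t, -, hx⟩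
    refine ⟨⟨s, hs, hx ▸ cB t⟩, ?_⟩
    rw [(eq_inv_mul_iff_mul_eq₀ (c0 s hs)).2 hx]
    exact mul_mem (center_inv (cF s)) (cF t)
  · rintro x ⟨s, hs, t, ht, hx⟩ y ⟨s', hs', hy⟩ hyF
    exact ⟨s * s', hmul s s' hs hs', t * ⟨⟨c s' * y, mul_mem (cF s') hyF⟩, hy⟩,
      m.mul_mem_right _ ht, by rw [e1, hx]; rfl⟩
  · rintro ⟨s, hs, t, ht, hx⟩
    rw [mul_one] at hx
    exact hs ((show s = t from Subtype.ext (Subtype.ext hx)) ▸ ht)
  · rintro x ⟨s, hs, hx⟩ hxF hxM
    let t : O := ⟨⟨c s * x, mul_mem (cF s) hxF⟩, hx⟩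
    have ht : t ∉ m := fun h => hxM ⟨s, hs, t, h, rfl⟩
    have hx0 : x ≠ 0 := right_ne_zero_of_mul (c0 t ht)
    refine ⟨t, ht, ?_⟩
    rw [show c t = c s * x from rfl, mul_assoc, mul_inv_cancel₀ hx0, mul_one]
    exact cB s

namespace Loc

variable {B B' : Subring D} {M : AddSubgroup D} (h : Loc B B' M)
include h

lemma not_inv {x : D} (hx : x ∈ M) (h0 : x ≠ 0) : x⁻¹ ∉ B' := fun h1 => by
  have := h.mul x hx _ h1 (center_inv (h.sub x hx).2)
  rw [mul_inv_cancel₀ h0] at this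
  exact h.one this

lemma primes : ∃ q ∈ B', q ∈ Subring.center D ∧ q ≠ 0 ∧
    ∀ l : ℕ, l.Prime → (l : D) ≠ 0 → ∃ μ ∈ B', (l : D) * μ = q := by
  by_cases hq : ∃ p : ℕ, p.Prime ∧ (p : D) ≠ 0 ∧ (p : D) ∈ M
  · obtain ⟨p, hp, hp0, hpM⟩ := hq
    refine ⟨p, natCast_mem _ p, natCast_mem _ p, hp0, fun l hl hl0 => ?_⟩
    by_cases hlp : l = p
    · exact ⟨1, one_mem _, by simp [hlp]⟩
    refine ⟨(l : D)⁻¹ * p, mul_mem (h.inv _ (natCast_mem _ l) (natCast_mem _ l) fun hlM => ?_)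
      (natCast_mem _ p), by simp [hl0]⟩
    obtain ⟨i, j, e⟩ := Nat.isCoprime_iff_coprime.2 ((Nat.coprime_primes hl hp).2 hlp)
    have e' := congrArg (Int.cast : ℤ → D) e
    push_cast at e'
    apply h.one
    rw [← e', (Int.cast_commute i _).eq, (Int.cast_commute j _).eq]
    exact add_mem (h.mul _ hlM _ (intCast_mem _ i) (intCast_mem _ i))
      (h.mul _ hpM _ (intCast_mem _ j) (intCast_mem _ j))
  · push Not at hq
    exact ⟨1, one_mem _, one_mem _, one_ne_zero, fun l hl hl0 =>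
      ⟨(l : D)⁻¹, h.inv _ (natCast_mem _ l) (natCast_mem _ l) (hq l hl hl0), by simp [hl0]⟩⟩

end Loc

/-- the case of an ideal without central elements -/
lemma fix_of_ideal {N : Subgroup Dˣ} (hN : N.IsSubnormal)
    (hrad : ∀ x ∈ SN N, ∃ m : ℕ, 1 ≤ m ∧ x ^ m ∈ Subring.center D) {a : D} (ha : a ∈ SN N)
    {I : AddSubgroup D} (hI : ∀ x ∈ I, ∀ y ∈ I, x * y ∈ I)
    (hF : ∀ x ∈ I, x ∈ Subring.center D → x = 0) (hc : ∀ x ∈ I, a * x * a⁻¹ ∈ I)
    (hinv : ∀ x ∈ I, 1 + x ≠ 0 ∧ (1 + x)⁻¹ - 1 ∈ I) {x : D} (hx : x ∈ I) : a * x * a⁻¹ = x := by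
  obtain ⟨r, hr⟩ := absorb hN
  have ha0 := SN.ne_zero ha
  obtain ⟨n, hn, han⟩ := rad_coprime hN hrad ha
  have h1 : ∀ k, ds a (1 + x) k - 1 ∈ I := by
    intro k
    induction k with
    | zero => simpa [ds] using hx
    | succ k ih =>
      have h2 := hc _ (hinv _ ih).2
      rw [add_sub_cancel] at h2
      have e : ds a (1 + x) (k + 1) - 1 = (ds a (1 + x) k - 1) *
          (a * ((ds a (1 + x) k)⁻¹ - 1) * a⁻¹) + (ds a (1 + x) k - 1) +
          a * ((ds a (1 + x) k)⁻¹ - 1) * a⁻¹ := by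
        rw [ds, mul_sub a, sub_mul (a * _), mul_one, mul_inv_cancel₀ ha0]
        noncomm_ring
      rw [e]
      exact add_mem (add_mem (hI _ ih _ h2) ih) h2
  have h0 := (hinv x hx).1
  have h3 : ∀ k, a * ds a (1 + x) k * a⁻¹ = ds a (1 + x) k → a * (1 + x) * a⁻¹ = 1 + x := by
    intro k
    induction k with
    | zero => exact id
    | succ k ih =>
      intro h4
      apply ih
      have hu := h1 (k + 1)
      rw [ds] at h4 hu
      have hv := ds_ne_zero ha0 h0 k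
      set v := ds a (1 + x) k
      set u := v * (a * v⁻¹ * a⁻¹) with hu'
      have key : ∀ i : ℕ, v * (a ^ i * v⁻¹ * (a ^ i)⁻¹) = u ^ i := by
        intro i
        induction i with
        | zero => simp [hv]
        | succ i ih' =>
          rw [tele ha0 hv, ← hu', ih', ← cjr_apply ha0, map_pow, cjr_apply, h4, pow_succ']
      have h5 := key n
      rw [← mem_center.1 han, mul_assoc, mul_inv_cancel₀ (pow_ne_zero n ha0), mul_one,
        mul_inv_cancel₀ hv] at h5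
      have h6 := one_of_near hI hF hu hn (h5 ▸ one_mem _)
      calc a * v * a⁻¹ = u * (a * v * a⁻¹) := by rw [h6, one_mul]
        _ = v := by rw [hu']; simp [mul_assoc, ha0, hv]
  obtain ⟨m, hm, hum⟩ := rad_coprime hN hrad (hr a ha _ h0)
  have h7 := h3 r (by rw [one_of_near hI hF (h1 r) hm hum]; simp [ha0])
  rwa [mul_add, add_mul, mul_one, mul_inv_cancel₀ ha0, add_right_inj] at h7

/-- a subring with nonzero Jacobson radical normalized by `a` is centralized by `a` -/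
theorem fix_of_radical {N : Subgroup Dˣ} (hN : N.IsSubnormal)
    (hrad : ∀ x ∈ SN N, ∃ m : ℕ, 1 ≤ m ∧ x ^ m ∈ Subring.center D) {a : D} (ha : a ∈ SN N)
    {B : Subring D} {I : AddSubgroup D} (hle : ∀ x ∈ I, x ∈ B)
    (hl : ∀ x ∈ I, ∀ b ∈ B, b * x ∈ I) (hr : ∀ x ∈ I, ∀ b ∈ B, x * b ∈ I)
    (hcB : ∀ x ∈ B, a * x * a⁻¹ ∈ B) (hc : ∀ x ∈ I, a * x * a⁻¹ ∈ I)
    (hinv : ∀ x ∈ I, 1 + x ≠ 0 ∧ (1 + x)⁻¹ ∈ B) {x0 : D} (hx0 : x0 ∈ I) (hx0' : x0 ≠ 0)
    {b : D} (hb : b ∈ B) : a * b * a⁻¹ = b := by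
  have ha0 := SN.ne_zero ha
  have case1 : ∀ J : AddSubgroup D, J ≤ I → (∀ x ∈ J, ∀ b ∈ B, b * x ∈ J) →
      (∀ x ∈ J, a * x * a⁻¹ ∈ J) → (∀ x ∈ J, x ∈ Subring.center D → x = 0) →
      ∀ y ∈ J, y ≠ 0 → a * b * a⁻¹ = b := by
    intro J hJ hJl hJc hJF y hy hy0
    have key : ∀ x ∈ J, a * x * a⁻¹ = x := fun x hx =>
      fix_of_ideal hN hrad ha (fun x hx y hy => hJl y hy x (hle x (hJ hx))) hJF hJc (fun x hx => by
        obtain ⟨h1, h2⟩ := hinv x (hJ hx)
        refine ⟨h1, ?_⟩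
        have e : (1 + x)⁻¹ - 1 = -((1 + x)⁻¹ * x) := by
          nth_rewrite 2 [← inv_mul_cancel₀ h1]
          noncomm_ring
        rw [e]
        exact neg_mem (hJl x hx _ h2)) hx
    apply mul_right_cancel₀ hy0
    rw [← key _ (hJl y hy b hb), ← cj_apply a (b * y), cj_mul ha0, cj_apply, cj_apply, key y hy]
  by_cases hF : ∀ x ∈ I, x ∈ Subring.center D → x = 0
  · exact case1 I le_rfl hl hc hF x0 hx0 hx0'
  push Not at hF
  obtain ⟨τ, hτ, hτF, hτ0⟩ := hF
  have hnu : ∀ x ∈ I, x ≠ 0 → x⁻¹ ∉ B := fun x hx h0 h => by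
    have := (hinv _ (neg_mem (hr x hx _ h))).1
    simp [h0] at this
  obtain ⟨B', M, hL, hτM⟩ := exists_loc B (hle τ hτ) hτF hτ0 (hnu τ hτ hτ0)
  obtain ⟨q, hq, hqF, hq0, hq'⟩ := hL.primes
  obtain ⟨s, hsF, hsB, hs0, -, hs⟩ := hL.den q hq
  have hcB' : ∀ x ∈ B', a * x * a⁻¹ ∈ B' := fun x hx => by
    obtain ⟨t, htF, -, ht0, ht1, ht⟩ := hL.den x hx
    have e : a * x * a⁻¹ = t⁻¹ * (a * (t * x) * a⁻¹) := by
      rw [← mul_assoc a, mem_center.1 htF a]
      simp [mul_assoc, ht0]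
    rw [e]
    exact mul_mem ht1 (hL.le (hcB _ ht))
  by_contra hne
  let J : AddSubgroup D :=
    { carrier := {z | z ∈ I ∧ ∀ t ∈ I, t ∈ M → t ≠ 0 → z ∈ Ml B' t}
      add_mem' := fun hx hy => ⟨add_mem hx.1 hy.1, fun t h1 h2 h3 =>
        add_mem (hx.2 t h1 h2 h3) (hy.2 t h1 h2 h3)⟩
      zero_mem' := ⟨zero_mem _, fun _ _ _ _ => zero_mem _⟩
      neg_mem' := fun hx => ⟨neg_mem hx.1, fun t h1 h2 h3 => neg_mem (hx.2 t h1 h2 h3)⟩ }
  refine hne (case1 J (fun x hx => hx.1) (fun x hx b hb => ⟨hl x hx.1 b hb, fun t h1 h2 h3 =>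
    Ml.mul_left (hL.sub t h2).2 (hL.le hb) (hx.2 t h1 h2 h3)⟩)
    (fun x hx => ⟨hc x hx.1, fun t h1 h2 h3 => ?_⟩) (fun x hx hxF => ?_)
    (τ * (a * b * a⁻¹ - b)) ⟨hr τ hτ _ (sub_mem (hcB b hb) hb), fun t h1 h2 h3 => ?_⟩
    (mul_ne_zero hτ0 (sub_ne_zero.2 hne)))
  · obtain ⟨y, hy, rfl⟩ := hx.2 t h1 h2 h3
    refine ⟨_, hcB' y hy, ?_⟩
    rw [← mul_assoc a, mem_center.1 (hL.sub t h2).2 a]
    simp only [mul_assoc]
  · by_contra h0
    have hxB := hL.le (hle x hx.1)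
    have h1 : τ * (x * x) ∈ M := hL.mul τ hτM _ (mul_mem hxB hxB) (mul_mem hxF hxF)
    obtain ⟨y, hy, e⟩ := hx.2 _ (hl _ (hl x hx.1 x (hle x hx.1)) τ (hle τ hτ)) h1
      (mul_ne_zero hτ0 (mul_ne_zero h0 h0))
    refine hL.not_inv hτM hτ0 ?_
    have e2 : τ * (x * y) = 1 := by
      apply mul_left_cancel₀ h0
      rw [mul_one, ← mul_assoc, mem_center.1 hτF x]
      nth_rewrite 3 [e]
      simp only [mul_assoc]
    exact inv_eq_of_mul_eq_one_right e2 ▸ mul_mem hxB hy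
  · obtain ⟨r, hr1, hr'⟩ := adic_core hN hrad ha
    have htF := (hL.sub t h2).2
    have hρI : t * (s * q) ∈ I := hr t h1 _ hs
    have hρB := hL.le (hle _ hρI)
    have hε : (t * (s * q)) ^ r * b ∈ I := by
      obtain ⟨r, rfl⟩ := Nat.exists_eq_add_of_le' hr1
      rw [pow_succ', mul_assoc]
      exact hr _ hρI _ (mul_mem (pow_mem (hle _ hρI) r) hb)
    have h4 := hr' B' (t * (s * q)) (mul_mem htF (mul_mem hsF hqF)) hρB
      (mul_ne_zero h3 (mul_ne_zero hs0 hq0)) (fun e he => hcB' _ (mul_mem hρB he))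
      (fun l hl hl0 => by
        obtain ⟨μ, hμ, e⟩ := hq' l hl hl0
        refine ⟨t * (s * μ), mul_mem (hL.sub t h2).1 (mul_mem (hL.le hsB) hμ), ?_⟩
        rw [← e, ← mul_assoc, (Nat.cast_commute l t).eq, mul_assoc, ← mul_assoc (l : D),
          (Nat.cast_commute l s).eq, mul_assoc]) b (hL.le hb) (hinv _ hε).1 (hL.le (hinv _ hε).2)
    obtain ⟨y, hy, e⟩ := h4 1
    refine Ml.mul_left htF (hL.le (hle τ hτ)) ⟨s * q * y, mul_mem (hL.le hs) hy, ?_⟩
    rw [e, pow_one, mul_assoc]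

/-- two elements whose central multiples lie in a subring with a central nonunit commute -/
theorem comm_of_nonunit {N : Subgroup Dˣ} (hN : N.IsSubnormal)
    (hrad : ∀ x ∈ SN N, ∃ m : ℕ, 1 ≤ m ∧ x ^ m ∈ Subring.center D) {a b : D} (ha : a ∈ SN N)
    (hb : b ∈ SN N) {B : Subring D} {t π : D} (htF : t ∈ Subring.center D) (ht0 : t ≠ 0)
    (hta : t * a ∈ B) (htb : t * b ∈ B) (hπ : π ∈ B) (hπF : π ∈ Subring.center D) (hπ0 : π ≠ 0)
    (hπ1 : π⁻¹ ∉ B) : a * b = b * a := by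
  have ha0 := SN.ne_zero ha
  have hb0 := SN.ne_zero hb
  obtain ⟨B', M, hL, hπM⟩ := exists_loc B hπ hπF hπ0 hπ1
  obtain ⟨q, hq, hqF, hq0, hq'⟩ := hL.primes
  have hc : ∀ x ∈ SN N, ∃ n : ℕ, (t * x) ^ (n + 1) ∈ Subring.center D := fun x hx => by
    obtain ⟨n, hn, h⟩ := hrad x hx
    obtain ⟨n, rfl⟩ := Nat.exists_eq_add_of_le' hn
    refine ⟨n, ?_⟩
    rw [Commute.mul_pow (mem_center.1 htF x).symm]
    exact mul_mem (pow_mem htF _) h
  obtain ⟨n, hn⟩ := hc a ha
  obtain ⟨m, hm⟩ := hc b hb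
  have hα := hL.le hta
  have hβ := hL.le htb
  have hα0 := mul_ne_zero ht0 ha0
  have hβ0 := mul_ne_zero ht0 hb0
  have e0 : ∀ x, a * x * a⁻¹ = t * a * x * (t * a)⁻¹ := fun x => by
    rw [mul_inv_rev, mul_assoc t, mul_assoc t, ← mem_center.1 htF]
    simp [mul_assoc, ht0]
  generalize t * a = α at hn hα hα0 e0
  let I : AddSubgroup D :=
    { carrier := {z | ∀ τ ∈ M, τ ≠ 0 → z ∈ Ml B' τ}
      add_mem' := fun hx hy τ h1 h2 => add_mem (hx τ h1 h2) (hy τ h1 h2)
      zero_mem' := fun _ _ _ => zero_mem _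
      neg_mem' := fun hx τ h1 h2 => neg_mem (hx τ h1 h2) }
  have hIB : ∀ x ∈ I, x ∈ B' := fun x hx => Ml.mem (hL.sub π hπM).1 (hx π hπM hπ0)
  have hz : a * (t * b) * a⁻¹ - t * b ∈ I := by
    intro τ hτ hτ0
    obtain ⟨r, hr1, hr⟩ := adic_core hN hrad ha
    obtain ⟨hτB, hτF⟩ := hL.sub τ hτ
    have hρM : τ * (q * α ^ (n + 1)) ∈ M :=
      hL.mul τ hτ _ (mul_mem hq (pow_mem hα _)) (mul_mem hqF hn)
    obtain ⟨hρB, hρF⟩ := hL.sub _ hρM
    set ρ := τ * (q * α ^ (n + 1)) with hρ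
    have hεB : -(ρ ^ r * (t * b)) ∈ B' := neg_mem (mul_mem (pow_mem hρB r) hβ)
    have hεM : (-(ρ ^ r * (t * b))) ^ (m + 1) ∈ M := by
      obtain ⟨r, rfl⟩ := Nat.exists_eq_add_of_le' hr1
      rw [neg_pow, Commute.mul_pow (mem_center.1 (pow_mem hρF _) _).symm, ← pow_mul,
        show (r + 1) * (m + 1) = (r * (m + 1) + m) + 1 by ring, pow_succ' ρ,
        (Commute.neg_one_left _).pow_left _, mul_assoc, mul_assoc]
      exact hL.mul ρ hρM _ (mul_mem (pow_mem hρB _) (mul_mem (pow_mem hβ _)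
        (pow_mem (neg_mem (one_mem _)) _))) (mul_mem (pow_mem hρF _) (mul_mem hm
        (pow_mem (neg_mem (one_mem _)) _)))
    have h1 : 1 - (-(ρ ^ r * (t * b))) ^ (m + 1) ∉ M := fun h =>
      hL.one (by simpa using add_mem h hεM)
    have h2 := hL.inv _ (sub_mem (one_mem _) (pow_mem hεB _))
      (sub_mem (one_mem _) (hL.sub _ hεM).2) h1
    have h3 : 1 - (-(ρ ^ r * (t * b))) ^ (m + 1) ≠ 0 := fun h => h1 (h ▸ zero_mem _)
    rw [← mul_neg_geom_sum, sub_neg_eq_add] at h2 h3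
    have h4 := hr B' ρ hρF hρB (mul_ne_zero hτ0 (mul_ne_zero hq0 (pow_ne_zero _ hα0)))
      (fun e he => by
        have e1 : a * (ρ * e) * a⁻¹ = α * (τ * q * e) * α ^ n := by
          rw [e0, hρ, mul_assoc τ, mul_assoc q, ← mem_center.1 hn e, pow_succ]
          simp [mul_assoc, hα0]
        rw [e1]
        exact mul_mem (mul_mem hα (mul_mem (mul_mem hτB hq) he)) (pow_mem hα n))
      (fun l hl hl0 => by
        obtain ⟨μ, hμ, e⟩ := hq' l hl hl0
        refine ⟨τ * (μ * α ^ (n + 1)), mul_mem hτB (mul_mem hμ (pow_mem hα _)), ?_⟩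
        rw [hρ, ← e, ← mul_assoc, (Nat.cast_commute l τ).eq]
        simp only [mul_assoc]) _ hβ (left_ne_zero_of_mul h3) (by
        have e2 := mul_mem (sum_mem (t := Finset.range (m + 1)) fun i _ => pow_mem hεB i) h2
        rwa [mul_inv_rev, ← mul_assoc, mul_inv_cancel₀ (right_ne_zero_of_mul h3), one_mul] at e2)
    obtain ⟨y, hy, e⟩ := h4 1
    exact ⟨q * α ^ (n + 1) * y, mul_mem (mul_mem hq (pow_mem hα _)) hy, by
      rw [e, pow_one, hρ, mul_assoc]⟩
  have hu : a * b * a⁻¹ * b⁻¹ - 1 ∈ I := by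
    intro τ hτ hτ0
    obtain ⟨y, hy, e⟩ := hz _ (hL.mul τ hτ _ (pow_mem hβ (m + 1)) hm)
      (mul_ne_zero hτ0 (pow_ne_zero _ hβ0))
    refine ⟨y * (t * b) ^ m, mul_mem hy (pow_mem hβ m), ?_⟩
    apply mul_right_cancel₀ hβ0
    rw [mul_assoc τ, mul_assoc y, ← pow_succ, mem_center.1 hm y, ← mul_assoc τ, ← e, sub_mul,
      one_mul, ← mem_center.1 htF b, mul_assoc a (b * t), mul_assoc b t,
      ← mem_center.1 htF a⁻¹]
    simp [mul_assoc, hb0]
  obtain ⟨k, hk, huk⟩ := rad_coprime hN hrad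
    (SN.mul (SN.mul (SN.mul ha hb) (SN.inv ha)) (SN.inv hb))
  have h5 := one_of_near (I := I) (fun x hx y hy τ h1 h2 => Ml.mul_right (hx τ h1 h2) (hIB y hy))
    (fun x hx hxF => by
      by_contra h0
      have hxB := hIB x hx
      obtain ⟨y, hy, e⟩ := hx _ (hL.mul π hπM _ hxB hxF) (mul_ne_zero hπ0 h0)
      refine hL.not_inv hπM hπ0 ?_
      have e2 : π * y = 1 := by
        apply mul_left_cancel₀ h0
        rw [mul_one, ← mul_assoc, mem_center.1 hπF x, ← e]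
      exact inv_eq_of_mul_eq_one_right e2 ▸ hy) hu hk huk
  rw [comm_central ha0 hb0, h5, one_mul]

end Pool.Agent.Work.MP_b4cb8e_al
end

-- merged part: Pool.Agent.Work.MP_b4cb8e_al.Crit
section
set_option autoImplicit false

namespace Pool.Agent.Work.MP_b4cb8e_al

universe u

variable {D : Type u} [DivisionRing D]

lemma faith_le {K : Subfield D} {N : Subgroup Dˣ} (hN : N.IsSubnormal) (hnc : NC N)
    (hrad : ∀ x ∈ SN N, ∃ m : ℕ, 1 ≤ m ∧ x ^ m ∈ K) {a : D} (ha : a ∉ K) :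
    ∃ N' : Subgroup Dˣ, N' ≤ N ∧ N'.IsSubnormal ∧ NC N' ∧
      ∀ x ∈ SN N', ∃ m : ℕ, 1 ≤ m ∧ x ^ m ∈ cent {a} := by
  have ha0 : a ≠ 0 := by
    rintro rfl
    exact ha K.zero_mem
  have ha1 : a + 1 ≠ 0 := by
    intro h
    rw [eq_neg_of_add_eq_zero_left h] at ha
    exact ha (K.neg_mem K.one_mem)
  have h1 := pull_subnormal (cjr ha0) hN
  have h2 := pull_subnormal (cjr ha1) hN
  refine ⟨N ⊓ pull (cjr ha0) N ⊓ pull (cjr ha1) N, inf_le_left.trans inf_le_left,
    (hN.inf h1).inf h2, CC_all.inf (hN.inf h1) h2 (CC_all.inf hN h1 hnc (hnc.conj ha0))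
    (hnc.conj ha1), fun x hx => ?_⟩
  rw [SN.inf, SN.inf, mem_pull, mem_pull] at hx
  obtain ⟨m1, hm1, e1⟩ := hrad _ hx.1.1
  obtain ⟨m2, hm2, e2⟩ := hrad _ hx.1.2
  obtain ⟨m3, hm3, e3⟩ := hrad _ hx.2
  obtain ⟨m4, hm4, d1, d2⟩ := dir_pos _ _ hm1 hm2
  obtain ⟨m, hm, d4, d3⟩ := dir_pos _ _ hm4 hm3
  refine ⟨m, hm, ?_⟩
  rintro _ rfl
  refine faith ha (pow_mem_of_dvd e1 (d1.trans d4)) ?_ ?_
  · rw [← cjr_apply ha0, map_pow]
    exact pow_mem_of_dvd e2 (d2.trans d4)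
  · rw [← cjr_apply ha1, map_pow]
    exact pow_mem_of_dvd e3 d3

lemma core_le {K : Subfield D} {N : Subgroup Dˣ} (hN : N.IsSubnormal) (hnc : NC N)
    (hrad : ∀ x ∈ SN N, ∃ m : ℕ, 1 ≤ m ∧ x ^ m ∈ K) (T : Finset D) (hT : ∀ t ∈ T, t ∉ K) :
    ∃ N' : Subgroup Dˣ, N' ≤ N ∧ N'.IsSubnormal ∧ NC N' ∧
      ∀ x ∈ SN N', ∃ m : ℕ, 1 ≤ m ∧ x ^ m ∈ cent (T : Set D) := by
  classical
  induction T using Finset.induction_on with
  | empty =>
    refine ⟨N, le_rfl, hN, hnc, fun x hx => ?_⟩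
    obtain ⟨m, hm, -⟩ := hrad x hx
    exact ⟨m, hm, by simp [mem_cent]⟩
  | insert a T _ ih =>
    obtain ⟨A, hA0, hA, hA1, hA2⟩ := faith_le hN hnc hrad (hT a (Finset.mem_insert_self _ _))
    obtain ⟨B, -, hB, hB1, hB2⟩ := ih fun t ht => hT t (Finset.mem_insert_of_mem ht)
    refine ⟨A ⊓ B, inf_le_left.trans hA0, hA.inf hB, CC_all.inf hA hB hA1 hB1, fun x hx => ?_⟩
    rw [SN.inf] at hx
    obtain ⟨m1, hm1, e1⟩ := hA2 x hx.1
    obtain ⟨m2, hm2, e2⟩ := hB2 x hx.2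
    obtain ⟨m, hm, d1, d2⟩ := dir_pos _ _ hm1 hm2
    refine ⟨m, hm, fun t ht => ?_⟩
    rcases Finset.mem_insert.1 ht with rfl | ht
    · exact pow_mem_of_dvd e1 d1 t rfl
    · exact pow_mem_of_dvd e2 d2 t ht

lemma reduce_FC (hF : FC D) {K : Subfield D} (hK : K ≠ ⊤) {N : Subgroup Dˣ} (hN : N.IsSubnormal)
    (hnc : NC N) (hrad : ∀ x ∈ SN N, ∃ m : ℕ, 1 ≤ m ∧ x ^ m ∈ K) :
    ∃ N' : Subgroup Dˣ, N' ≤ N ∧ N'.IsSubnormal ∧ NC N' ∧
      ∀ x ∈ SN N', ∃ m : ℕ, 1 ≤ m ∧ x ^ m ∈ Subring.center D := by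
  classical
  obtain ⟨a, ha⟩ := exists_not_mem hK
  obtain ⟨T, hT⟩ := hF
  obtain ⟨A, hA0, hA, hA1, hA2⟩ := core_le hN hnc hrad
    (insert a (T.image fun t => if t ∈ K then a + t else t)) (by
      intro t ht
      rcases Finset.mem_insert.1 ht with rfl | ht
      · exact ha
      · obtain ⟨s, -, rfl⟩ := Finset.mem_image.1 ht
        split_ifs with h
        · exact fun h' => ha (by simpa using K.sub_mem h' h)
        · exact h)
  refine ⟨A, hA0, hA, hA1, fun y hy => ?_⟩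
  obtain ⟨m, hm, e⟩ := hA2 y hy
  refine ⟨m, hm, hT _ fun t ht => ?_⟩
  have h1 := e a (by simp)
  have h2 := e (if t ∈ K then a + t else t)
    (Finset.mem_insert_of_mem (Finset.mem_image_of_mem _ ht))
  split_ifs at h2 with h
  · rwa [add_mul, mul_add, h1, add_right_inj] at h2
  · exact h2

/-- a counterexample to the problem contains a counterexample to Herstein's conjecture that is
finitely generated over the centre -/
theorem reduce {K : Subfield D} (hK : K ≠ ⊤) {N : Subgroup Dˣ} (hN : N.IsSubnormal)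
    (hnc : NC N) (hrad : ∀ x ∈ SN N, ∃ m : ℕ, 1 ≤ m ∧ x ^ m ∈ K) (T : Finset D) :
    ∃ E : Subfield D, (∀ c ∈ Subring.center D, c ∈ E) ∧ (∀ t ∈ T, t ∈ E) ∧
      ∃ N' : Subgroup Eˣ, (∀ x ∈ SN N', (x : D) ∈ SN N) ∧ N'.IsSubnormal ∧ NC N' ∧
        ∀ x ∈ SN N', ∃ m : ℕ, 1 ≤ m ∧ x ^ m ∈ Subring.center E := by
  classical
  obtain ⟨x, hx, hx'⟩ := hnc
  obtain ⟨a, ha⟩ := exists_not_mem hK
  obtain ⟨y, hy⟩ : ∃ y, y * x ≠ x * y := by
    by_contra h
    push Not at h
    exact hx' (mem_center.2 h)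
  let E := Subfield.closure ((Subring.center D : Set D) ∪ (insert x (insert y (insert a T)) : Finset D))
  have hE : ∀ t ∈ (insert x (insert y (insert a T)) : Finset D), t ∈ E := fun t ht =>
    Subfield.subset_closure (Or.inr ht)
  obtain ⟨N', h1, h2, h3, h4⟩ := reduce_FC (D := E)
    (FC_closure _ _ fun s hs e _ => mem_center.1 hs e) (K := K.comap E.subtype)
    (fun h => ha (show (⟨a, hE a (by simp)⟩ : E) ∈ K.comap E.subtype from h ▸ Subfield.mem_top _))
    (pull_subnormal E.subtype hN)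
    ⟨⟨x, hE x (by simp)⟩, (mem_pull _ _).2 hx, fun h =>
      hy (congrArg Subtype.val (mem_center.1 h ⟨y, hE y (by simp)⟩))⟩
    (fun z hz => by
      obtain ⟨m, hm, e⟩ := hrad _ ((mem_pull _ _).1 hz)
      exact ⟨m, hm, by simpa using e⟩)
  exact ⟨E, fun c hc => Subfield.subset_closure (Or.inl hc), fun t ht => hE t (by simp [ht]), N',
    fun z hz => (mem_pull E.subtype N).1 (SN.mono h1 hz), h2, h3, h4⟩

/-- Herstein's conjecture in the presence of an invariant subring -/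
theorem HC_of_invariant {B : Subring D} (hB : ∀ x, x ≠ 0 → ∀ b ∈ B, x * b * x⁻¹ ∈ B) {b0 b1 : D}
    (h0 : b0 ∈ B) (h0' : b0⁻¹ ∉ B) (h1 : b1 ∈ B) (h1' : b1 ∉ Subring.center D) : HC D := by
  intro N hN hrad
  refine CC_all N hN b1 (fun a ha => ?_) h1'
  have ha0 := SN.ne_zero ha
  have hb0 : b0 ≠ 0 := by
    rintro rfl
    exact h0' (by simp)
  obtain ⟨n, hn, han⟩ := hrad a ha
  obtain ⟨n, rfl⟩ := Nat.exists_eq_add_of_le' hn
  let y : ℕ → D := fun i => a ^ i * b0 * (a ^ i)⁻¹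
  have hy0 : ∀ i, y i ≠ 0 := fun i => by simp [y, ha0, hb0]
  have hyB : ∀ i, y i ∈ B := fun i => hB _ (pow_ne_zero i ha0) _ h0
  have hys : ∀ i, a * y i * a⁻¹ = y (i + 1) := fun i => by
    simp only [y, pow_succ', mul_inv_rev, mul_assoc]
  have hyn : y (n + 1) = y 0 := by
    simp only [y]
    rw [← mem_center.1 han b0]
    simp [pow_ne_zero _ ha0]
  have hL : ∀ i, ∀ z ∈ Ml B (y i), ∀ b ∈ B, b * z ∈ Ml B (y i) := by
    rintro i _ ⟨c, hc, rfl⟩ b hb
    exact ⟨(y i)⁻¹ * b * (y i)⁻¹⁻¹ * c, mul_mem (hB _ (inv_ne_zero (hy0 i)) b hb) hc, by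
      simp [mul_assoc, hy0 i]⟩
  let I : AddSubgroup D := ⨅ i ∈ Finset.range (n + 1), Ml B (y i)
  have hI : ∀ z, z ∈ I ↔ ∀ i < n + 1, z ∈ Ml B (y i) := fun z => by
    simp [I, AddSubgroup.mem_iInf]
  have hIB : ∀ z ∈ I, z ∈ B := fun z hz => Ml.mem (hyB 0) ((hI z).1 hz 0 (by omega))
  have hIl : ∀ z ∈ I, ∀ b ∈ B, b * z ∈ I := fun z hz b hb =>
    (hI _).2 fun i hi => hL i z ((hI z).1 hz i hi) b hb
  have hIr : ∀ z ∈ I, ∀ b ∈ B, z * b ∈ I := fun z hz b hb =>
    (hI _).2 fun i hi => Ml.mul_right ((hI z).1 hz i hi) hb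
  have hIc : ∀ z ∈ I, a * z * a⁻¹ ∈ I := fun z hz => (hI _).2 fun i hi => by
    have key : ∀ j < n + 1, a * z * a⁻¹ ∈ Ml B (y (j + 1)) := fun j hj => by
      obtain ⟨c, hc, rfl⟩ := (hI z).1 hz j hj
      exact ⟨_, hB a ha0 c hc, by rw [← hys]; simp [mul_assoc, ha0]⟩
    rcases i with _ | i
    · exact hyn ▸ key n (by omega)
    · exact key i (by omega)
  have hI1 : ∀ s, s - 1 ∈ I → s ≠ 0 := by
    rintro _ hs rfl
    obtain ⟨c, hc, e⟩ := (hI _).1 (neg_mem hs) 0 (by omega)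
    simp only [y, pow_zero, one_mul, inv_one, mul_one, zero_sub, neg_neg] at e
    exact h0' (inv_eq_of_mul_eq_one_right e.symm ▸ hc)
  obtain ⟨d, hd, hd0⟩ : ∃ d ∈ I, d ≠ 0 := by
    have : ∀ k, ∃ d ∈ B, d ≠ 0 ∧ ∀ i < k, d ∈ Ml B (y i) := by
      intro k
      induction k with
      | zero => exact ⟨1, one_mem _, one_ne_zero, by simp⟩
      | succ k ih =>
        obtain ⟨d, h1, h2, h3⟩ := ih
        refine ⟨y k * d, mul_mem (hyB k) h1, mul_ne_zero (hy0 k) h2, fun i hi => ?_⟩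
        rcases Nat.lt_succ_iff_lt_or_eq.1 hi with hi | rfl
        · exact hL i d (h3 i hi) _ (hyB k)
        · exact ⟨d, h1, rfl⟩
    obtain ⟨d, -, h2, h3⟩ := this (n + 1)
    exact ⟨d, (hI d).2 h3, h2⟩
  have hsB : ∀ s, s - 1 ∈ I → s ∈ B := fun s hs => by simpa using add_mem (hIB _ hs) B.one_mem
  have hss : ∀ s t, s - 1 ∈ I → t - 1 ∈ I → s * t - 1 ∈ I := fun s t hs ht => by
    have e : s * t - 1 = (s - 1) * t + (t - 1) := by noncomm_ring
    rw [e]
    exact add_mem (hIr _ hs _ (hsB t ht)) ht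
  have hsz : ∀ s, s - 1 ∈ I → ∀ z ∈ I, s * z * s⁻¹ ∈ I := fun s hs z hz => by
    have e : s * z * s⁻¹ = s * z - s * z * s⁻¹ * (s - 1) := by
      simp [mul_sub, hI1 s hs]
    rw [e]
    exact sub_mem (hIl z hz s (hsB s hs)) (hIl _ hs _ (hB s (hI1 s hs) z (hIB z hz)))
  have e1 : ∀ s t x z : D, t ≠ 0 → t * s * (x + z) = t * (s * x) + t * s * t⁻¹ * (t * z) :=
    fun s t x z ht => by simp [mul_add, mul_assoc, ht]
  have e2 : ∀ s t x z : D, t ≠ 0 → t * s * (x * z) = t * (s * x) * t⁻¹ * (t * z) :=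
    fun s t x z ht => by simp [mul_assoc, ht]
  have e3 : ∀ s x : D, a * s * a⁻¹ * (a * x * a⁻¹) = a * (s * x) * a⁻¹ :=
    fun s x => by simp [mul_assoc, ha0]
  have e4 : ∀ s, s - 1 ∈ I → a * s * a⁻¹ - 1 ∈ I := fun s hs => by
    simpa [mul_sub, sub_mul, ha0] using hIc _ hs
  let B1 : Subring D :=
    { carrier := {x | ∃ s, s - 1 ∈ I ∧ s * x ∈ B}
      mul_mem' := by
        rintro x z ⟨s, hs, hx⟩ ⟨t, ht, hz⟩
        exact ⟨t * s, hss t s ht hs, e2 s t x z (hI1 t ht) ▸ mul_mem (hB t (hI1 t ht) _ hx) hz⟩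
      one_mem' := ⟨1, by simp, by simp⟩
      add_mem' := by
        rintro x z ⟨s, hs, hx⟩ ⟨t, ht, hz⟩
        exact ⟨t * s, hss t s ht hs, e1 s t x z (hI1 t ht) ▸ add_mem (mul_mem (hsB t ht) hx)
          (mul_mem (hB t (hI1 t ht) _ (hsB s hs)) hz)⟩
      zero_mem' := ⟨1, by simp, by simp⟩
      neg_mem' := by
        rintro x ⟨s, hs, hx⟩
        exact ⟨s, hs, by simpa using hx⟩ }
  let I1 : AddSubgroup D :=
    { carrier := {x | ∃ s, s - 1 ∈ I ∧ s * x ∈ I}
      add_mem' := by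
        rintro x z ⟨s, hs, hx⟩ ⟨t, ht, hz⟩
        exact ⟨t * s, hss t s ht hs, e1 s t x z (hI1 t ht) ▸ add_mem (hIl _ hx _ (hsB t ht))
          (hIl _ hz _ (hB t (hI1 t ht) _ (hsB s hs)))⟩
      zero_mem' := ⟨1, by simp, by simp⟩
      neg_mem' := by
        rintro x ⟨s, hs, hx⟩
        exact ⟨s, hs, by simpa using hx⟩ }
  have key := fix_of_radical hN hrad ha (B := B1) (I := I1)
    (by
      rintro x ⟨s, hs, hx⟩
      exact ⟨s, hs, hIB _ hx⟩)
    (by
      rintro z ⟨t, ht, hz⟩ x ⟨s, hs, hx⟩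
      exact ⟨t * s, hss t s ht hs, e2 s t x z (hI1 t ht) ▸ hIl _ hz _ (hB t (hI1 t ht) _ hx)⟩)
    (by
      rintro x ⟨s, hs, hx⟩ z ⟨t, ht, hz⟩
      exact ⟨t * s, hss t s ht hs, e2 s t x z (hI1 t ht) ▸ hIr _ (hsz t ht _ hx) _ hz⟩)
    (by
      rintro x ⟨s, hs, hx⟩
      exact ⟨_, e4 s hs, e3 s x ▸ hB a ha0 _ hx⟩)
    (by
      rintro x ⟨s, hs, hx⟩
      exact ⟨_, e4 s hs, e3 s x ▸ hIc _ hx⟩)
    (by
      rintro x ⟨s, hs, hx⟩
      have h2 : s * (1 + x) - 1 ∈ I := by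
        have e : s * (1 + x) - 1 = (s - 1) + s * x := by noncomm_ring
        rw [e]
        exact add_mem hs hx
      have h3 := right_ne_zero_of_mul (hI1 _ h2)
      exact ⟨h3, _, h2, by rw [mul_assoc, mul_inv_cancel₀ h3, mul_one]; exact hsB s hs⟩)
    (x0 := d) ⟨1, by simp, by simpa using hd⟩ hd0 (b := b1) ⟨1, by simp, by simpa using h1⟩
  calc a * b1 = a * b1 * a⁻¹ * a := by simp [ha0]
    _ = b1 * a := by rw [key]

/-- the problem in the presence of a proper noncentral invariant subring -/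
theorem QQ_of_invariant {B : Subring D} (hB : ∀ x, x ≠ 0 → ∀ b ∈ B, x * b * x⁻¹ ∈ B)
    (htop : B ≠ ⊤) {b1 : D} (h1 : b1 ∈ B) (h1' : b1 ∉ Subring.center D) : QQ D := by
  classical
  obtain ⟨b0, h0, h0'⟩ : ∃ b0 ∈ B, b0⁻¹ ∉ B := by
    by_contra hcon
    push Not at hcon
    let H : Subfield D := { B with inv_mem' := hcon }
    obtain ⟨a, ha⟩ : ∃ a, a ∉ H := by
      by_contra h
      push Not at h
      exact htop (eq_top_iff.2 fun z _ => h z)
    have key : ∀ a, a ∉ H → a * b1 = b1 * a := fun a ha => by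
      refine faith ha h1 (hB a ?_ _ h1) (hB _ ?_ _ h1)
      · rintro rfl
        exact ha H.zero_mem
      · intro h
        rw [eq_neg_of_add_eq_zero_left h] at ha
        exact ha (H.neg_mem H.one_mem)
    refine h1' (mem_center.2 fun y => ?_)
    by_cases hy : y ∈ H
    · have := key (a + y) fun h' => ha (by simpa using H.sub_mem h' hy)
      rwa [add_mul, mul_add, key a ha, add_right_inj] at this
    · exact key y hy
  obtain ⟨y, hy⟩ : ∃ y, y * b1 ≠ b1 * y := by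
    by_contra h
    push Not at h
    exact h1' (mem_center.2 h)
  intro K hK N hN hrad
  by_contra hcon
  push Not at hcon
  obtain ⟨E, -, hT, N', -, h2, ⟨x, hx, hx'⟩, h4⟩ := reduce hK hN hcon hrad {b0, b1, y}
  exact hx' (HC_of_invariant (D := E) (B := B.comap E.subtype)
    (fun z hz b hb => hB z (fun h => hz (Subtype.ext h)) b hb) (b0 := ⟨b0, hT _ (by simp)⟩)
    (b1 := ⟨b1, hT _ (by simp)⟩) h0 h0' h1
    (fun h => hy (congrArg Subtype.val (mem_center.1 h ⟨y, hT _ (by simp)⟩))) N' h2 h4 x hx)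

/-- the two generator criterion -/
theorem central_of_pairs {K : Subfield D} (hK : K ≠ ⊤) {N : Subgroup Dˣ} (hN : N.IsSubnormal)
    (hrad : ∀ x ∈ SN N, ∃ m : ℕ, 1 ≤ m ∧ x ^ m ∈ K)
    (h : ∀ a ∈ SN N, ∀ b ∈ SN N,
      (∀ L : Subfield D, (∀ x ∈ L, ∀ y ∈ L, x * y = y * x) →
        (L : Set D) ⊆ Subring.closure {a, b} → (L : Set D).Finite) ∨
      ∃ t ∈ Subfield.closure ((Subring.center D : Set D) ∪ {a, b}), t ≠ 0 ∧ t * a = a * t ∧
        t * b = b * t ∧ t⁻¹ ∉ Subring.closure {t, t * a, t * b}) :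
    ∀ x ∈ SN N, x ∈ Subring.center D := by
  by_contra hcon
  push Not at hcon
  obtain ⟨E, hZ, -, N', h1, h2, ⟨a, ha, ha'⟩, h4⟩ := reduce hK hN hcon hrad ∅
  refine ha' (CC_all N' h2 a (fun b hb => ?_) ha' a ha)
  rcases h _ (h1 a ha) _ (h1 b hb) with hL | ⟨t, htG, ht0, hta, htb, ht1⟩
  · let B : Subring E := (Subring.closure {(a : D), (b : D)}).comap E.subtype
    have haB : a ∈ B := Subring.subset_closure (by simp)
    have hbB : b ∈ B := Subring.subset_closure (by simp)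
    by_cases hπ : ∃ π ∈ B, π ∈ Subring.center E ∧ π⁻¹ ∉ B
    · obtain ⟨π, h5, h6, h7⟩ := hπ
      exact comm_of_nonunit h2 h4 hb ha (t := 1) (one_mem _) one_ne_zero (by simpa using hbB)
        (by simpa using haB) h5 h6 (by rintro rfl; exact h7 (by simp)) h7
    push Not at hπ
    let L : Subfield E :=
      { B ⊓ Subring.center E with
        inv_mem' := fun x hx => ⟨hπ x hx.1 hx.2, center_inv hx.2⟩ }
    have hfin : (L : Set E).Finite := by
      refine Set.Finite.of_finite_image (f := E.subtype) (hL (L.map E.subtype) ?_ ?_)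
        E.subtype.injective.injOn
      · rintro _ ⟨x, -, rfl⟩ _ ⟨y, hy, rfl⟩
        exact congrArg Subtype.val (mem_center.1 hy.2 x)
      · rintro _ ⟨x, hx, rfl⟩
        exact hx.1
    obtain ⟨p, hp⟩ := CharP.exists E
    have hpr : p.Prime := (CharP.char_is_prime_or_zero E p).resolve_right (by
      rintro rfl
      have : CharZero E := CharP.charP_to_charZero E
      exact Set.infinite_of_injective_forall_mem (Nat.cast_injective (R := E))
        (fun n => natCast_mem L n) hfin)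
    have : Fact p.Prime := ⟨hpr⟩
    obtain ⟨m, hm, e⟩ := h4 a ha
    exact absurd (TL p (K := cent Set.univ) h2 (rad_K h4) ha (by rwa [mem_cent_univ])
      (Tor.of_pow hm (tor_of_finite (pow_ne_zero _ (SN.ne_zero ha)) hfin fun n =>
        pow_mem (show a ^ m ∈ L from ⟨pow_mem haB m, e⟩) n))) ha'
  · set G := Subfield.closure ((Subring.center D : Set D) ∪ {(a : D), (b : D)}) with hG
    have hGE : G ≤ E := by
      rw [hG, Subfield.closure_le]
      rintro w (hw | rfl | rfl)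
      · exact hZ w hw
      · exact a.2
      · exact b.2
    have hGt : G ≤ cent {t} := by
      rw [hG, Subfield.closure_le]
      rintro w (hw | rfl | rfl) _ rfl
      · exact mem_center.1 hw _
      · exact hta
      · exact htb
    let t' : G := ⟨t, htG⟩
    let a' : G := ⟨a, Subfield.subset_closure (by simp)⟩
    let b' : G := ⟨b, Subfield.subset_closure (by simp)⟩
    have ht' : t' ∈ Subring.center G := mem_center.2 fun w => Subtype.ext (hGt w.2 t rfl).symm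
    have ht0' : t' ≠ 0 := fun h => ht0 (congrArg Subtype.val h)
    have := comm_of_nonunit (pull_subnormal (Subfield.inclusion hGE) h2) (fun x hx => by
        obtain ⟨m, hm, e⟩ := h4 _ ((mem_pull _ _).1 hx)
        refine ⟨m, hm, mem_center.2 fun w => (Subfield.inclusion hGE).injective ?_⟩
        simpa using mem_center.1 e (Subfield.inclusion hGE w))
      (a := b') (b := a') ((mem_pull _ _).2 hb) ((mem_pull _ _).2 ha)
      (B := (Subring.closure {t, t * (a : D), t * (b : D)}).comap G.subtype) ht' ht0'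
      (Subring.subset_closure (by simp [t', b'])) (Subring.subset_closure (by simp [t', a']))
      (π := t') (Subring.subset_closure (by simp [t'])) ht' ht0' ht1
    exact Subtype.ext (congrArg (fun z : G => (z : D)) this)

end Pool.Agent.Work.MP_b4cb8e_al
end
end
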