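import Pool.Agent.Work.MP_b4cb8e_al.Crit

set_option autoImplicit false

namespace Pool.Agent.Work.MP_b4cb8e_al

universe u

lemma mal_jac : IsJacobsonRing ℤ := by
  refine isJacobsonRing_iff_prime_eq.mpr fun P hP => ?_
  by_cases h0 : P = ⊥
  · subst h0
    refine le_antisymm (fun x hx => ?_) Ideal.le_jacobson
    rw [Ideal.mem_jacobson_bot] at hx
    rw [Ideal.mem_bot]
    have h1 := Int.isUnit_iff.mp (hx x)
    have h2 := mul_self_nonneg x
    rcases h1 with h1 | h1
    · exact mul_self_eq_zero.mp (by linarith)
    · linarith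
  · have := hP.isMaximal h0
    exact Ideal.jacobson_eq_self_of_isMaximal

/-- a field that is finitely generated as a ring is finite -/
lemma mal_fin (F : Type u) [Field F] [h : Algebra ℤ F] [Algebra.FiniteType ℤ F] : Finite F := by
  obtain rfl := Subsingleton.elim h (Ring.toIntAlgebra F)
  have := mal_jac
  have hfin : Module.Finite ℤ F := finite_of_finite_type_of_isJacobsonRing ℤ F
  obtain ⟨p, hp⟩ := CharP.exists F
  have hpr : p.Prime := (CharP.char_is_prime_or_zero F p).resolve_right (by
    rintro rfl
    have := CharP.charP_to_charZero F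
    exact Int.not_isField (isField_of_isIntegral_of_isField (R := ℤ) (S := F)
      (algebraMap ℤ F).injective_int (Field.toIsField _)))
  have : Fact p.Prime := ⟨hpr⟩
  let : Algebra (ZMod p) F := ZMod.algebra _ p
  have : Module.Finite (ZMod p) F := Module.Finite.of_restrictScalars_finite ℤ (ZMod p) F
  exact Module.finite_of_finite (ZMod p)

variable {D : Type u} [DivisionRing D]

/-- a two generated subring of a centrally finite division ring contains no infinite division
ring -/
theorem mal_finite {a b : D} {E : Subfield D} (ha : a ∈ E) (hb : b ∈ E)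
    (hE : Module.Finite (Subring.center E) E) (L : Subfield D)
    (hL : (L : Set D) ⊆ Subring.closure {a, b}) : (L : Set D).Finite := by
  let β := Module.finBasis (Subring.center E) E
  let φ := (Algebra.leftMulMatrix β).toRingHom
  let A : Subalgebra ℤ (Subring.center E) := Algebra.adjoin ℤ
    (Set.range (Function.uncurry (φ ⟨a, ha⟩)) ∪ Set.range (Function.uncurry (φ ⟨b, hb⟩)))
  have : Algebra.FiniteType ℤ A :=
    .adjoin_of_finite ((Set.finite_range _).union (Set.finite_range _))
  obtain ⟨m, hm⟩ := Ideal.exists_maximal A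
  let : Field (A ⧸ m) := Ideal.Quotient.field m
  have := mal_fin (A ⧸ m)
  have := β.index_nonempty
  let ι := A.val.toRingHom.mapMatrix (m := Fin (Module.finrank (Subring.center E) E))
  have hι : Function.Injective ι := Matrix.map_injective Subtype.val_injective
  have h1 : Subring.closure {a, b} ≤ (ι.range.comap φ).map E.subtype := by
    rw [Subring.closure_le]
    rintro _ (rfl | rfl)
    · exact ⟨⟨_, ha⟩, ⟨fun i j => ⟨φ ⟨_, ha⟩ i j, Algebra.subset_adjoin (Or.inl ⟨(i, j), rfl⟩)⟩,
        rfl⟩, rfl⟩
    · exact ⟨⟨_, hb⟩, ⟨fun i j => ⟨φ ⟨_, hb⟩ i j, Algebra.subset_adjoin (Or.inr ⟨(i, j), rfl⟩)⟩,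
        rfl⟩, rfl⟩
  have h2 : L ≤ E := fun x hx => by
    obtain ⟨y, -, rfl⟩ := h1 (hL hx)
    exact y.2
  let g := (φ.comp (Subfield.inclusion h2)).codRestrict ι.range fun x => by
    obtain ⟨y, hy, e⟩ := h1 (hL x.2)
    rwa [show y = Subfield.inclusion h2 x from Subtype.ext e] at hy
  let e := RingEquiv.ofBijective ι.rangeRestrict
    ⟨fun _ _ h => hι (congrArg Subtype.val h), ι.rangeRestrict_surjective⟩
  exact Finite.of_injective _
    (((Ideal.Quotient.mk m).mapMatrix.comp e.symm.toRingHom).comp g).injective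

end Pool.Agent.Work.MP_b4cb8e_al
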